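import Pool.Agent.H48.VA.Ev
import Pool.Agent.H71.AVG.Cof

/-!
# The codes from the jets

`cod_jts`: the code of the orders at least `j₀` from the digits of the own jets of these orders.
-/

set_option autoImplicit false

namespace Pool.VA48

open Finset Real MvPolynomial
open Pool.Agent.H49.Ent Pool.Agent.H32.Dense Pool.STK Pool.KA Pool.KSAT Pool.K2S Pool.PB Pool.GEN
open Pool.S6C Pool.RCD Pool.LA91 Pool.AVG96 Pool.V0F Pool.V0T

/-- The error of a code. -/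
noncomputable def eCd (K : ℕ) : ℝ := ((K + 1 : ℕ) : ℝ) * Real.log (2 * (2 ^ (2 * K + 1) + 1) + 1)

/-- **The code from the jets.** -/
theorem cod_jts {m J : ℕ} {F : Fam m J} {p : F.Ω → ℝ} (hp : IsLaw p) {w N a : ℝ} (hw0 : 0 ≤ w)
    (hwJ : ⌊w * J⌋₊ ≤ J) {H : LnT F → MvPolynomial (Option (Fin m)) ℝ} {D' : ℕ}
    (hdeg : ∀ s, (H s).totalDegree ≤ D') (κ : Fin m) {N' : ℕ} (hN : (N' : ℝ) ≤ N * J)
    {α : Type} (Y : F.Ω → α) (hY : ∀ ω ω', 0 < p ω → 0 < p ω' → Y ω = Y ω' → F.T ω = F.T ω')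
    (j₀ : ℕ) (ha : 0 ≤ a) (h : ∀ j, j₀ ≤ j → j ≤ D' + 1 →
      CH p (fun ω => ⌊(2 : ℝ) ^ ((N - j * w) * J) * ojet F κ j (H (slam F ⌊w * J⌋₊ ω)) ω⌋) Y ≤ a) :
    CH p (Pool.AVG57.cod F ⌊w * J⌋₊ H κ N' j₀ (D' + 1)) Y ≤
      ((D' + 2 : ℕ) : ℝ) * a + eCd (D' + 1) := by
  have h0 := hp.nonneg
  obtain ⟨X, hX⟩ : ∃ X : F.Ω → Fin (D' + 2) → ℤ, X = fun ω (j : Fin (D' + 2)) => if j₀ ≤ (j : ℕ) then
    ⌊(2 : ℝ) ^ ((N - ((j : ℕ) : ℝ) * w) * J) * ojet F κ j (H (slam F ⌊w * J⌋₊ ω)) ω⌋ else 0 :=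
    ⟨_, rfl⟩
  have h1 := CH_le_add h0 (Pool.AVG57.cod F ⌊w * J⌋₊ H κ N' j₀ (D' + 1)) X Y
  have h2 : CH p X Y ≤ ((D' + 2 : ℕ) : ℝ) * a := by
    refine (Pool.AVG5.CH_fam h0 _ _).trans ?_
    have h3 : ∀ j ∈ (univ : Finset (Fin (D' + 2))), CH p (fun ω => X ω j) Y ≤ a := by
      intro j _
      rw [hX]
      by_cases hj : j₀ ≤ (j : ℕ)
      · simp only [if_pos hj]
        exact h j hj (by have := j.2; omega)
      · simp only [if_neg hj]
        rw [CH_eq_zero h0 fun _ _ _ _ _ => rfl]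
        exact ha
    refine (Finset.sum_le_sum h3).trans (le_of_eq ?_)
    rw [Finset.sum_const, Finset.card_univ, Fintype.card_fin, nsmul_eq_mul]
  have h4 : CH p (Pool.AVG57.cod F ⌊w * J⌋₊ H κ N' j₀ (D' + 1)) (fun ω => (X ω, Y ω)) ≤
      eCd (D' + 1) := by
    have h5 := Pool.AVG71.cod_few (F := F) (w := w) (N := N) (σ := 2 ^ N') hw0 hwJ (by positivity)
      (by
        rw [← Real.rpow_natCast]
        exact Real.rpow_le_rpow_of_exponent_le (by norm_num) hN) (κ := κ) (zl := fun s => s)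
      (G := H) (D := D' + 1) (fun s => by have := hdeg s; omega) hp (fun ω => (X ω, Y ω)) j₀
      (s := fun j => N - j * w) (fun j _ _ => le_rfl) (fun ω ω' hω hω' e => by
        obtain ⟨e1, e2⟩ := Prod.ext_iff.mp e
        refine ⟨hY ω ω' hω hω' e2, fun j hj hj' => ?_⟩
        have e3 := congrFun e1 ⟨j, by omega⟩
        rw [hX] at e3
        simp only [if_pos hj] at e3
        exact e3)
    exact h5
  linarith

end Pool.VA48
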