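import Pool.Agent.H48.VA.Cd

/-!
# The jets of both places over labels of an early window, class level

`rm_dn`: the room at an earlier window. `u_early`: the jets of the steep place over labels of the
window `w'`, from the jets over labels of `w` (orders up to the slope), from the record (order zero)
and from early windows (orders above the slope). `n_early`: the jets of the last place over labels of
the window `w'` of a lower precision.
-/

set_option autoImplicit false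

namespace Pool.VA48

open Finset Real MvPolynomial
open Pool.Agent.H49.Ent Pool.Agent.H32.Dense Pool.STK Pool.KA Pool.KSAT Pool.K2S Pool.PB Pool.GEN
open Pool.S6C Pool.RCD Pool.LA91 Pool.AVG96 Pool.V0F Pool.V0T
open Pool.OWN68 (F1 F0 few0_iff few_iff few0_room)
open Pool.V0R (LadR)

section

variable {m : ℕ} {S : PCl m} {c : ℕ → Fin m} {k r : ℕ} {sn : ℕ → ℝ → ℝ} {G : Set ℝ} {b o φ : ℝ}
  {α γ : ∀ J : ℕ, Fam m J → Type}
  {f : ∀ (J : ℕ) (F : Fam m J), F.Ω → α J F} {y : ∀ (J : ℕ) (F : Fam m J), F.Ω → γ J F}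

/-- **The room at an earlier window.** -/
theorem rm_dn (L : LadR S c k r sn G b o φ) {v w X X' : ℝ} {Nf : ℕ → ℕ → ℝ} (hv : v ∈ G)
    (hw : w ∈ G) (hbv : b ≤ v) (hvw : v ≤ w) (hwo : w ≤ o) (hX : 0 ≤ X)
    (hX' : X + (20 * k + 102) * φ ≤ X') (h1 : X' ≤ v - b) (h2 : X' ≤ 1 - w)
    (h3 : ∀ l < k, ∀ j : ℕ, j ≤ 1 → sn l w + X' - j * w ≤ Nf l j) : Rm k sn b φ v X Nf := by
  have hφ := L.φ0
  have hX1 : X + (20 * (k : ℝ) + 100) * φ + 2 * φ ≤ X' := by linarith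
  refine ⟨hX, by linarith, by linarith, fun l hl j hj => ?_⟩
  refine le_trans ?_ (h3 l hl j hj)
  have h4 := abs_le.1 (flat_of L hl hw hv (hbv.trans hvw) hwo hbv (hvw.trans hwo))
  have h5 : (1 - (j : ℝ)) * v ≤ (1 - (j : ℝ)) * w := by
    refine mul_le_mul_of_nonneg_left hvw ?_
    have : (j : ℝ) ≤ 1 := by exact_mod_cast hj
    linarith
  linarith [h4.2]

/-- **The steep place** over labels of the window `w'`. -/
theorem u_early (L : LadR S c k r sn G b o φ) {al : ℝ}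
    (hal : ∀ v ∈ G, ∀ v' ∈ G, b ≤ v → v ≤ o → b ≤ v' → v' ≤ o →
      |sn k v' - sn k v - al * (v' - v)| ≤ 2 * φ)
    (hf : ∀ (J : ℕ) (F : Fam m J), ∃ χ : α J F → PtT F, ∀ ω, ptr F J ω = χ (f J F ω))
    (hy : Kn ((range 0).image c) 1 1 y) {w' w ox X X' Cd η h : ℝ} {p : ℕ → ℝ}
    {Nf : ℕ → ℕ → ℝ} (hw' : w' ∈ G) (hw : w ∈ G) (hbw : b ≤ w') (hww : w' ≤ w) (hwo : w ≤ o)
    (hox : w ≤ ox) (hox1 : ox ≤ 1) (hp : ∀ i < k, sn i b - φ ≤ p i) (hX : 0 ≤ X)
    (hX' : X + (20 * k + 130) * φ ≤ X') (h1 : X' ≤ w' - b) (h2 : X' ≤ 1 - w)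
    (h3 : ∀ l < k, ∀ j : ℕ, j ≤ 1 → sn l w + X' - j * w ≤ Nf l j) {j : ℕ}
    (hj0 : j = 0 → X + 30 * φ ≤ al * (w - w'))
    (hj1 : 1 ≤ j → (j : ℝ) ≤ al → X + 30 * φ ≤ Cd + (al - j) * (w - w') ∧
      Fw S f (vg ox) y (jetQ m c 0 k b p Nf)
        (qJet m ((range k).image c) (c k) j w (sn k w) (sn k w + Cd - j * w)) η)
    (hj2 : al < j → ∃ v₀ ∈ G, b + X' ≤ v₀ ∧ v₀ ≤ w' ∧ X + 30 * φ ≤ (j - al) * (w' - v₀))
    (hη : 0 ≤ η) (hh : 0 < h) :
    Fw S f (vg ox) y (jetQ m c 0 k b p Nf)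
      (qJet m ((range k).image c) (c k) j w' (sn k w') (sn k w' + X + 20 * φ - j * w'))
      (η + h) := by
  have hφ := L.φ0
  obtain ⟨C₀, htm⟩ := L.tm
  have hkφ : 0 ≤ 20 * (k : ℝ) * φ := by positivity
  have hwo' : w' ≤ o := hww.trans hwo
  have hbw2 : b ≤ w := hbw.trans hww
  have hRm : ∀ v ∈ G, b + X' ≤ v → v ≤ w → Rm k sn b φ v (X + 22 * φ) Nf := fun v hv g1 g2 =>
    rm_dn L hv hw (by linarith) g2 hwo (by linarith) (by linarith) (by linarith) h2 h3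
  obtain ⟨ν, hν⟩ : ∃ ν, ν = sn k w' + X + 20 * φ - j * w' := ⟨_, rfl⟩
  rw [← hν]
  rcases le_or_gt (j : ℝ) al with hja | hja
  · -- from the window `w`
    have hst : ∀ v ∈ G, w' ≤ v → v ≤ w → ∃ X₁, Rm k sn b φ v X₁ Nf ∧ ν + j * v ≤ sn k v + X₁ :=
      fun v hv g1 g2 => by
        refine ⟨X + 22 * φ, hRm v hv (by linarith) g2, ?_⟩
        have g3 := abs_le.1 (hal w' hw' v hv hbw hwo' (hbw.trans g1) (g2.trans hwo))
        have g4 : (j : ℝ) * (v - w') ≤ al * (v - w') :=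
          mul_le_mul_of_nonneg_right hja (by linarith)
        rw [hν]
        linarith [g3.1]
    have g5 := abs_le.1 (hal w' hw' w hw hbw hwo' hbw2 hwo)
    rcases Nat.eq_zero_or_pos j with h0 | h0
    · have g6 := hj0 h0
      subst h0
      have g7 := u_nat (η := h / 2) (Q := jetQ m c 0 k b p Nf) (f := f) (y := y) (ox := ox)
        (I := (range k).image c) (κ := c k) (j := 0) (pl := sn k w) (ν := ν) L hw (by
          rw [hν]
          push_cast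
          linarith [g5.1]) (half_pos hh)
      have g8 := (u_chain L hf hy hw' hw hbw hww hwo hox hox1 hp hst (half_pos hh)).1 g7
      exact g8.mono (by linarith)
    · obtain ⟨g6, g7⟩ := hj1 h0 hja
      have g8 := Fw.low htm (N := ν) (by
        rw [hν]
        have e : (al - j) * (w - w') = al * (w - w') - j * (w - w') := by ring
        linarith [g5.1]) (half_pos hh) g7
      have g9 := (u_chain L hf hy hw' hw hbw hww hwo hox hox1 hp hst (half_pos hh)).1 g8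
      exact g9.mono (by linarith)
  · -- from an early window
    obtain ⟨v₀, hv₀, g1, g2, g3⟩ := hj2 hja
    have hX'0 : 0 ≤ X' := by
      have : 0 ≤ (20 * (k : ℝ) + 130) * φ := by positivity
      linarith
    have hbv : b ≤ v₀ := by linarith
    have hst : ∀ v ∈ G, v₀ ≤ v → v ≤ w' → ∃ X₁, Rm k sn b φ v X₁ Nf ∧ ν + j * v ≤ sn k v + X₁ :=
      fun v hv g4 g5 => by
        refine ⟨X + 22 * φ, hRm v hv (by linarith) (g5.trans hww), ?_⟩
        have g6 := abs_le.1 (hal v hv w' hw' (hbv.trans g4) (g5.trans hwo') hbw hwo')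
        have g7 : al * (w' - v) ≤ j * (w' - v) :=
          mul_le_mul_of_nonneg_right hja.le (by linarith)
        rw [hν]
        linarith [g6.2]
    have g8 := abs_le.1 (hal v₀ hv₀ w' hw' hbv (g2.trans hwo') hbw hwo')
    have g9 := u_nat (η := h / 2) (Q := jetQ m c 0 k b p Nf) (f := f) (y := y) (ox := ox)
      (I := (range k).image c) (κ := c k) (j := j) (pl := sn k v₀) (ν := ν) L hv₀ (by
        rw [hν]
        have e : ((j : ℝ) - al) * (w' - v₀) = j * (w' - v₀) - al * (w' - v₀) := by ring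
        linarith [g8.2]) (half_pos hh)
    have g10 := (u_chain L hf hy hv₀ hw' hbv g2 hwo' (hww.trans hox) hox1 hp hst (half_pos hh)).2 g9
    exact g10.mono (by linarith)

end

section

variable {m : ℕ} {S : PCl m} {c : ℕ → Fin m} {k : ℕ} {sn : ℕ → ℝ → ℝ} {G : Set ℝ} {b o φ : ℝ}
  {α γ : ∀ J : ℕ, Fam m J → Type}
  {f : ∀ (J : ℕ) (F : Fam m J), F.Ω → α J F} {y : ∀ (J : ℕ) (F : Fam m J), F.Ω → γ J F}

/-- **The last place** over labels of the window `w'` of the precision `p₂`. -/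
theorem n_early (L : LadR S c k 1 sn G b o φ) {al : ℝ}
    (hal : ∀ v ∈ G, ∀ v' ∈ G, b ≤ v → v ≤ o → b ≤ v' → v' ≤ o →
      |sn k v' - sn k v - al * (v' - v)| ≤ 2 * φ)
    (hf : ∀ (J : ℕ) (F : Fam m J), ∃ χ : α J F → PtT F, ∀ ω, ptr F J ω = χ (f J F ω))
    (hy : Kn ((range 0).image c) 1 1 y) {w' w ox X X' Cd η η₁ h P p₂ ν ν₁ : ℝ} {p : ℕ → ℝ}
    {Nf : ℕ → ℕ → ℝ} (hw' : w' ∈ G) (hw : w ∈ G) (hbw : b ≤ w') (hww : w' ≤ w) (hwo : w ≤ o)
    (hox : w ≤ ox) (hox1 : ox ≤ 1) (hp : ∀ i < k, sn i b - φ ≤ p i) (hX : 0 ≤ X)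
    (hX' : X + (20 * k + 130) * φ ≤ X') (h1 : X' ≤ w' - b) (h2 : X' ≤ 1 - w)
    (h3 : ∀ l < k, ∀ j : ℕ, j ≤ 1 → sn l w + X' - j * w ≤ Nf l j) {j : ℕ}
    (hj0 : X + 30 * φ ≤ al * (w - w'))
    (hj1 : ∀ j' : ℕ, 1 ≤ j' → j' ≤ j → (j' : ℝ) ≤ al → X + 30 * φ ≤ Cd + (al - j') * (w - w') ∧
      Fw S f (vg ox) y (jetQ m c 0 k b p Nf)
        (qJet m ((range k).image c) (c k) j' w (sn k w) (sn k w + Cd - j' * w)) η)
    (hj2 : ∀ j' : ℕ, j' ≤ j → al < j' →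
      ∃ v₀ ∈ G, b + X' ≤ v₀ ∧ v₀ ≤ w' ∧ X + 30 * φ ≤ (j' - al) * (w' - v₀))
    (hη : 0 < η) (hP : 0 ≤ P) (hp₂ : sn (k + 1) w' - P ≤ p₂)
    (hν : ν + j * w' + P ≤ sn (k + 1) w' + X) (hν₁ : ν ≤ ν₁)
    (H : Fw S f (vg ox) y (jetQ m c 0 k b p Nf)
      (qJet m ((range (k + 1)).image c) (c (k + 1)) j w' (sn (k + 1) w') ν₁) η₁) (hh : 0 < h) :
    Fw S f (vg ox) y (jetQ m c 0 k b p Nf)
      (qJet m ((range (k + 1)).image c) (c (k + 1)) j w' p₂ ν)
      (η₁ + ((k + 1) * (j + 1) : ℕ) * (2 * η) + h) := by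
  have hφ := L.φ0
  obtain ⟨C₀, htm⟩ := L.tm
  have hkφ : 0 ≤ 20 * (k : ℝ) * φ := by positivity
  have hu : ∀ j' ≤ j, Fw S f (vg ox) y (jetQ m c 0 k b p Nf)
      (qJet m ((range k).image c) (c k) j' w' (sn k w') (sn k w' + X + 20 * φ - j' * w'))
      (2 * η) := fun j' hj' => by
    have g1 := u_early L hal hf hy hw' hw hbw hww hwo hox hox1 hp hX hX' h1 h2 h3 (j := j')
      (Cd := Cd) (η := η) (h := η) (fun _ => hj0) (fun a1 a2 => hj1 j' a1 hj' a2)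
      (fun a1 => hj2 j' hj' a1) hη.le hη
    exact g1.mono (by linarith)
  have hR : Rm k sn b φ w' X Nf := rm_dn L hw' hw hbw hww hwo hX (by linarith) h1 h2 h3
  have g2 := Fw.low htm hν₁ (half_pos hh) H
  have g3 := n_chg L hf hy hw' hbw (hww.trans hwo) (hww.trans hox) hox1 hp (j := j) hP hp₂ hR hν
    (by positivity : 0 < 2 * η) hu g2 (half_pos hh)
  exact g3.mono (by linarith)

end

end Pool.VA48
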