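import Pool.Agent.H48.VA.Uj

/-!
# From the class to one event, with an error

`ev_lb`: one jet over any closed label. `ev_u`, `ev_n`: over the chart of the steep place, over the
slab label of the last place.
-/

set_option autoImplicit false

namespace Pool.VA48

open Finset Real MvPolynomial
open Pool.Agent.H49.Ent Pool.Agent.H32.Dense Pool.STK Pool.KA Pool.KSAT Pool.K2S Pool.PB Pool.GEN
open Pool.S6C Pool.RCD Pool.LA91 Pool.AVG96 Pool.V0F Pool.V0T Pool.D2R Pool.NVT16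
open Pool.BFL (Pb)
open Pool.AVG57 (jet2 upw upw_slam)
open Pool.GRD (LbP)
open Pool.AJW (CfB)
open Pool.V0R (LadR)
open Pool.VA83 (LadV)
open Pool.TW44 (ChW ChE SlN slab_lb winB_sub sl_cls cnt_ev LV lv_of lv_j2)

/-- **From the class to one event**: one jet over a closed label. -/
theorem ev_lb {m : ℕ} {S : PCl m} {c : ℕ → Fin m} {k : ℕ} {sn : ℕ → ℝ → ℝ} {b φ : ℝ}
    (hpos : ∀ (τ : ℝ) (J : ℕ) (F : Fam m J) (A : F.Ω → Prop), S.St τ J F A → 0 < Pe F.p A)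
    (D D' j : ℕ) {w' v ox ν pv η : ℝ} (hb0 : 0 ≤ b) (hb1 : b ≤ 1) (hv0 : 0 ≤ v) (hv1 : v ≤ 1)
    {Nf : ℕ → ℕ → ℝ} {I : Finset (Fin m)} {κ : Fin m}
    (H : Fw S (fun J F => ptr F J) (vg ox) (fun _ F => F.W)
      (jetQ m c 0 k b (fun l => sn l b - φ) Nf) (qJet m I κ j v pv ν) η) :
    Bas S (fun J F A => ∀ Hb H : LnT F → ℕ → MvPolynomial (Option (Fin m)) ℝ,
      LV F c k D b φ 1 sn A Hb →
      (∀ ω, ∀ l < k, H (slam F ⌊w' * J⌋₊ ω) l = Hb (slam F ⌊b * J⌋₊ ω) l) →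
      ∀ (V : Type) (z : PtT F → V) (z' : LnT F → V) (G' : V → MvPolynomial (Option (Fin m)) ℝ)
        (P : ℕ), LbP F I κ D' J ⌊v * J⌋₊ P A z z' G' → CfB F ⌊v * J⌋₊ 1 κ A z' G' →
        ⌊pv * J⌋₊ ≤ P →
      CH (Pool.Agent.H49.Ent.cond F.p A True) (fun ω => ⌊(2 : ℝ) ^ (ν * J) *
            ojet F κ j (G' (z' (slam F ⌊v * J⌋₊ ω))) ω⌋)
        (fun ω => (jet2 F c ⌊w' * J⌋₊ H 0 k Nf ω, (cR F A ox ω, F.W ω))) ≤ η * J) := by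
  obtain ⟨M₀, J₀, hM₀⟩ := lv_j2 m D k Nf (E := 1) hb0 hb1
  obtain ⟨e₁, he₁, H1⟩ := H
  have H1 := H1 e₁ he₁ le_rfl
  obtain ⟨M₁, J₁, hM₁⟩ := qj_win m D' j (N := ν) (E := 1) hv0 hv1
  refine Bas.mono (max J₀ J₁) ((H1 (max M₀ M₁)).and (pos_bas hpos)) ?_
  rintro J hJ F A ⟨H2, hA⟩ Hb H lb hb V z z' G' P l1 l2 hP
  have hcl := isLaw_cond F.isLaw hA
  have h0 := hcl.nonneg
  have q1 := hM₀ _ (le_max_left M₀ M₁) J ((le_max_left _ _).trans hJ) lb (w := w') (H := H) hb e₁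
    he₁.le
  have q2 := hM₁ _ (le_max_right M₀ M₁) J ((le_max_right _ _).trans hJ) F _ κ A V z z' G' _
    pv e₁ l1 l2 ((Nat.floor_le_floor
      (mul_le_mul_of_nonneg_right (by linarith) (Nat.cast_nonneg J))).trans hP)
  obtain ⟨V₁, z₁, hz₁, H3⟩ := H2 _ _ q1 q2
  have hd : Det (Pool.Agent.H49.Ent.cond F.p A True) (cR F A ox) z₁ :=
    det_cR hz₁ fun ω hω => of_cond_pos hω
  refine le_trans (CH_mono_cond h0 fun ω ν hω hν e => ?_) H3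
  simp only [Prod.mk.injEq] at e ⊢
  exact ⟨e.1, hd ω ν hω hν e.2.1, e.2.2⟩

/-- **The steep place** over its chart. -/
theorem ev_u {m : ℕ} {S : PCl m} {c : ℕ → Fin m} {k : ℕ} {sn : ℕ → ℝ → ℝ} {G : Set ℝ}
    {b o φ : ℝ} (L : LadV S c k 1 sn G b o φ) (D i : ℕ) {N M Dr : ℕ} {C₀ a Eb ηm : ℝ}
    {ow η σ : ℕ → ℝ} {lv bb : ℕ → ℕ → ℝ} {f : ℕ → ℕ} {n : ℕ}
    (hw : ChW k sn G b o φ N C₀ ηm ow lv f n) {t : ℕ} (ht : t ≤ n) {w' ox ν η₁ : ℝ}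
    {Nf : ℕ → ℕ → ℝ}
    (H : Fw S (fun J F => ptr F J) (vg ox) (fun _ F => F.W)
      (jetQ m c 0 k b (fun l => sn l b - φ) Nf)
      (qJet m ((range k).image c) (c k) i (ow (f t)) (sn k (ow (f t)) - φ) ν) η₁) :
    Bas S (fun J F A => ∀ {κ : ℝ} {z : ℕ → ℕ → ℕ} {g₀ : ℕ → ℕ → ℕ}
      {Gc : ℕ → PtT F → ℕ → MvPolynomial (Option (Fin m)) ℝ}
      {H : ℕ → LnT F → ℕ → MvPolynomial (Option (Fin m)) ℝ},
      ChE F c k D Dr N M C₀ a Eb ηm ow η σ lv bb f n κ z A g₀ Gc H →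
      ∀ Hj : LnT F → ℕ → MvPolynomial (Option (Fin m)) ℝ,
      (∀ ω, ∀ l < k, Hj (slam F ⌊w' * J⌋₊ ω) l = H (f 0) (slam F ⌊b * J⌋₊ ω) l) →
      CH (Pool.Agent.H49.Ent.cond F.p A True) (fun ω => ⌊(2 : ℝ) ^ (ν * J) *
        ojet F (c k) i (H (f t) (slam F ⌊ow (f t) * J⌋₊ ω) k) ω⌋)
        (fun ω => (jet2 F c ⌊w' * J⌋₊ Hj 0 k Nf ω, (cR F A ox ω, F.W ω))) ≤ η₁ * J) := by
  have h1 := ev_lb L.pos D D i (w' := w') L.b0 (by linarith [L.bo, L.o1])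
    (L.b0.trans (hw.bo ht)) ((hw.oo t ht).trans L.o1.le) H
  refine Bas.mono 0 h1 ?_
  rintro J - F A h2 κ z g₀ Gc H hE Hj hHj
  have h3 := (lv_of hE hw (Nat.zero_le n)).take (Nat.le_succ k)
  rw [hw.ob] at h3
  have h4 := lv_of hE hw ht
  obtain ⟨V, z, z', G', l1, l2⟩ := h4.lb k (Nat.lt_succ_self k)
  have h5 := h2 (H (f 0)) Hj h3 hHj V z z' G' _ l1 (cfb_of (h4.cf k (Nat.lt_succ_self k)) l2)
    le_rfl
  have e1 : (fun ω => ⌊(2 : ℝ) ^ (ν * J) *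
      ojet F (c k) i (H (f t) (slam F ⌊ow (f t) * J⌋₊ ω) k) ω⌋) =
      fun ω => ⌊(2 : ℝ) ^ (ν * J) * ojet F (c k) i (G' (z' (slam F ⌊ow (f t) * J⌋₊ ω))) ω⌋ := by
    funext ω
    rw [l2]
  rw [e1]
  exact h5

/-- **The last place** over its slab label. -/
theorem ev_n (D k i : ℕ) : ∃ C : ℕ, 1 ≤ C ∧ ∀ {m : ℕ} {S : PCl m} {c : ℕ → Fin m}
    {sn : ℕ → ℝ → ℝ} {G : Set ℝ} {b o φ s : ℝ} {sl : ℕ → ℝ} {Dr N M : ℕ} {C₀ a Eb ηm : ℝ}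
    {ow η σ : ℕ → ℝ} {lv bb : ℕ → ℕ → ℝ} {f : ℕ → ℕ} {n : ℕ}, LadV S c k 1 sn G b o φ →
    Lnv k sn G b o φ s sl → ChW k sn G b o φ N C₀ ηm ow lv f n →
    C * ((s + 3) * φ) ≤ sn (k + 1) b → ∀ {t : ℕ} {w' ox ν η₁ : ℝ} {Nf : ℕ → ℕ → ℝ}, t ≤ n →
    Fw S (fun J F => ptr F J) (vg ox) (fun _ F => F.W)
      (jetQ m c 0 k b (fun l => sn l b - φ) Nf)
      (qJet m ((range (k + 1)).image c) (c (k + 1)) i (ow (f t))
        (sn (k + 1) (ow (f t)) - C * ((s + 3) * φ)) ν) η₁ →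
    Bas S (fun J F A => ∀ {κ : ℝ} {z : ℕ → ℕ → ℕ} {g₀ : ℕ → ℕ → ℕ}
      {Gc : ℕ → PtT F → ℕ → MvPolynomial (Option (Fin m)) ℝ}
      {H : ℕ → LnT F → ℕ → MvPolynomial (Option (Fin m)) ℝ},
      ChE F c k D Dr N M C₀ a Eb ηm ow η σ lv bb f n κ z A g₀ Gc H →
      ∀ Hj : LnT F → ℕ → MvPolynomial (Option (Fin m)) ℝ,
      (∀ ω, ∀ l < k, Hj (slam F ⌊w' * J⌋₊ ω) l = H (f 0) (slam F ⌊b * J⌋₊ ω) l) →
      CH (Pool.Agent.H49.Ent.cond F.p A True) (fun ω => ⌊(2 : ℝ) ^ (ν * J) *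
        ojet F (c (k + 1)) i (slG c Gc k (f 0) (f t) (ptr F J ω)) ω⌋)
        (fun ω => (jet2 F c ⌊w' * J⌋₊ Hj 0 k Nf ω, (cR F A ox ω, F.W ω))) ≤ η₁ * J) := by
  classical
  obtain ⟨Cl, hCl, hslab⟩ := slab_lb D k
  refine ⟨Cl + 5, by omega, ?_⟩
  intro m S c sn G b o φ s sl Dr N M C₀ a Eb ηm ow η σ lv bb f n L hl hw hlev t w' ox ν η₁ Nf ht H
  have hs := hl.s0
  have hφ := L.φ0
  obtain ⟨y, hy⟩ : ∃ y : ℝ, y = (s + 3) * φ := ⟨_, rfl⟩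
  have hsφ : 0 ≤ s * φ := mul_nonneg hs hφ.le
  have hy3 : y = s * φ + 3 * φ := by rw [hy]; ring
  have hy0 : 0 < y := by linarith
  rw [← hy] at hlev H
  have hv0 : 0 ≤ ow (f t) := L.b0.trans (hw.bo ht)
  have hv1 : ow (f t) < 1 := lt_of_le_of_lt (hw.oo t ht) L.o1
  have h1 := ev_lb L.pos D (D * D + D) i (w' := w') L.b0 (by linarith [L.bo, L.o1]) hv0 hv1.le H
  obtain ⟨J₂, hJ₂⟩ := exists_nat_ge ((n : ℝ) / φ)
  obtain ⟨J₃, hJ₃⟩ := exists_nat_ge (((Cl : ℝ) + 1) / φ)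
  refine Bas.mono (max J₂ J₃) (h1.and (pos_bas L.pos)) ?_
  rintro J hJ F A ⟨h2, hA⟩ κ z g₀ Gc H hE Hj hHj
  have hJ0 : (0 : ℝ) ≤ J := Nat.cast_nonneg J
  have hJn : (n : ℝ) ≤ φ * J := by
    have h3 : (J₂ : ℝ) ≤ J := by exact_mod_cast (le_max_left _ _).trans hJ
    have h4 := hJ₂.trans h3
    rw [div_le_iff₀ hφ] at h4
    linarith
  have hJy : (Cl : ℝ) + 1 ≤ φ * J := by
    have h3 : (J₃ : ℝ) ≤ J := by exact_mod_cast (le_max_right _ _).trans hJ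
    have h4 := hJ₃.trans h3
    rw [div_le_iff₀ hφ] at h4
    linarith
  have hSl := sln_of L hl hw hJn hE.zz
  rw [← hy] at hSl
  obtain ⟨v, hv⟩ : ∃ v, v = ow (f t) := ⟨_, rfl⟩
  obtain ⟨P, hP⟩ : ∃ P : ℕ, P = ⌊(sn (k + 1) v - ((Cl + 5 : ℕ) : ℝ) * y) * J⌋₊ := ⟨_, rfl⟩
  have hst := L.st (k + 1) (Nat.le_succ k) le_rfl _ L.bG _ (hw.oG t ht) le_rfl (hw.bo ht)
    (hw.oo t ht)
  rw [← hv] at hst
  have hbv : b ≤ v := by rw [hv]; exact hw.bo ht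
  have hfl : ⌊ow (f t) * (J : ℝ)⌋₊ ≤ J := floor_le hv1.le J
  have hφy : 3 * (φ * J) ≤ y * J := by
    rw [← mul_assoc]
    exact mul_le_mul_of_nonneg_right (by linarith) hJ0
  obtain ⟨z₁, z₂, h3, -, h4⟩ := hslab hE.W L.inj hSl t ht hfl P (by
    obtain ⟨-, -, h5, -⟩ := hE.W.g_num (hw.fN t ht) (le_refl (k + 1))
    rw [hw.lv t ht (k + 1) le_rfl, ← hv] at h5
    have hηm0 : 0 ≤ ηm := (hE.W.hη _ (hw.fN t ht)).1.trans (hE.W.hη _ (hw.fN t ht)).2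
    have hηφ : ηm ≤ φ := (le_mul_of_one_le_left hηm0 hE.W.C1).trans hw.C0
    have h8 : ηm * J ≤ φ * J := mul_le_mul_of_nonneg_right hηφ hJ0
    have h9 : 0 ≤ y * J := by positivity
    have h10 : (P : ℝ) ≤ max ((sn (k + 1) v - ((Cl + 5 : ℕ) : ℝ) * y) * J) 0 := by
      rw [hP]
      rcases le_or_gt 0 ((sn (k + 1) v - ((Cl + 5 : ℕ) : ℝ) * y) * J) with h11 | h11
      · exact (Nat.floor_le h11).trans (le_max_left _ _)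
      · rw [Nat.floor_of_nonpos h11.le, Nat.cast_zero]
        exact le_max_right _ _
    have h12 : (((Cl + 5 : ℕ) : ℝ) * y) * J ≤ (sn (k + 1) v + φ) * J :=
      mul_le_mul_of_nonneg_right (by linarith) hJ0
    push_cast at h10 h12
    have h13 : (Cl : ℝ) * (y * J + 1) = Cl * (y * J) + Cl := by ring
    have h14 : 0 ≤ (Cl : ℝ) * (y * J) := by positivity
    rcases max_cases ((sn (k + 1) v - ((Cl : ℝ) + 5) * y) * J) 0 with ⟨h15, -⟩ | ⟨h15, -⟩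
    · rw [h15] at h10
      nlinarith
    · rw [h15] at h10
      nlinarith)
  have h3' := (lv_of hE hw (Nat.zero_le n)).take (Nat.le_succ k)
  rw [hw.ob] at h3'
  have h5 := h2 (H (f 0)) Hj h3' hHj _ z₁ z₂ _ P h3 (cfb_of (hE.cs t ht) h4) (by
    rw [hP, hv])
  refine le_trans (CH_mono_left (isLaw_cond F.isLaw hA).nonneg fun ω ω' hω hω' e => ?_) h5
  have e1 := (Prod.ext_iff.mp e).1
  have hωA : A ω := of_cond_pos hω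
  have hωA' : A ω' := of_cond_pos hω'
  dsimp only at e1
  rw [h4, h4, ← sl_cls hE.W (hw.fN 0 (Nat.zero_le _)) (hw.fN t ht) (hw.mo t ht 0 (Nat.zero_le _))
    hv1.le hωA, ← sl_cls hE.W (hw.fN 0 (Nat.zero_le _)) (hw.fN t ht)
    (hw.mo t ht 0 (Nat.zero_le _)) hv1.le hωA'] at e1
  exact e1

end Pool.VA48
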