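import Pool.Agent.H48.VA.Wn

/-!
# Far digits on one event

`far_u`, `far_n`: the jets of both places over the labels of the window `w`, given the far jets of the
slope-one places and the record at `w`.
-/

set_option autoImplicit false

namespace Pool.VA48

open Finset Real MvPolynomial
open Pool.Agent.H49.Ent Pool.Agent.H32.Dense
open Pool.STK hiding pr2
open Pool.KA Pool.KSAT Pool.K2S Pool.PB Pool.S6C
open Pool.GEN Pool.CHT Pool.CHX Pool.ISO Pool.LA91 Pool.AVG71 Pool.AVG5 Pool.D2F2 Pool.AVG57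
open Pool.RCD Pool.AVG96 Pool.OWN68 Pool.V0F Pool.V0Q Pool.V0T Pool.XR71 Pool.T4C72
open Pool.AJW (CfB)
open Pool.D2R (WinB)
open Pool.VA83
open Pool.NVT16
open Pool.TW44 (ChW ChE)

/-- The far digits of the slope-one places. -/
noncomputable def nF (sn : ℕ → ℝ → ℝ) (w R : ℝ) (l j : ℕ) : ℝ := sn l w + R - (j : ℝ) * w

/-- **The steep place over its chart**, orders from one, from the class level. -/
theorem u_ev {m : ℕ} {S : PCl m} {c : ℕ → Fin m} {k : ℕ} {sn : ℕ → ℝ → ℝ} {G : Set ℝ}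
    {b o φ : ℝ} (L : LadV S c k 1 sn G b o φ) (D i : ℕ) {N M Dr : ℕ} {C₀ a Eb ηm : ℝ}
    {ow η σ : ℕ → ℝ} {lv bb : ℕ → ℕ → ℝ} {f : ℕ → ℕ} {n : ℕ}
    (hw : ChW k sn G b o φ N C₀ ηm ow lv f n) {t : ℕ} (ht : t ≤ n)
    {w' ox Cd Cd' R η₁ ε : ℝ} (hox : ow (f t) ≤ ox) (hox1 : ox ≤ 1) (hd : 0 ≤ Cd') (hdd : Cd' ≤ Cd)
    (hR : Cd' + (20 * k + 100) * φ ≤ R) (h1 : R ≤ ow (f t) - b) (h2 : R ≤ 1 - ow (f t))
    (H : Fw S (fun J F => ptr F J) (vg ox) (fun _ F => F.W)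
      (jetQ m c 0 k b (fun l => sn l b - φ) (nF sn (ow (f t)) R))
      (qJet m ((range k).image c) (c k) i (ow (f t)) (sn k (ow (f t)))
        (sn k (ow (f t)) + Cd - i * ow (f t))) η₁) (hε : 0 < ε) :
    Bas S (fun J F A => ∀ {κ : ℝ} {z : ℕ → ℕ → ℕ} {g₀ : ℕ → ℕ → ℕ}
      {Gc : ℕ → PtT F → ℕ → MvPolynomial (Option (Fin m)) ℝ}
      {H : ℕ → LnT F → ℕ → MvPolynomial (Option (Fin m)) ℝ},
      ChE F c k D Dr N M C₀ a Eb ηm ow η σ lv bb f n κ z A g₀ Gc H →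
      ∀ Hj : LnT F → ℕ → MvPolynomial (Option (Fin m)) ℝ,
      (∀ ω, ∀ l < k, Hj (slam F ⌊w' * J⌋₊ ω) l = H (f 0) (slam F ⌊b * J⌋₊ ω) l) →
      CH (Pool.Agent.H49.Ent.cond F.p A True)
        (fun ω => ⌊(2 : ℝ) ^ ((sn k (ow (f t)) + Cd' - i * ow (f t)) * J) *
          ojet F (c k) i (H (f t) (slam F ⌊ow (f t) * J⌋₊ ω) k) ω⌋)
        (fun ω => (jet2 F c ⌊w' * J⌋₊ Hj 0 k (nF sn (ow (f t)) R) ω, (cR F A ox ω, F.W ω))) ≤
        (η₁ + ε) * J) := by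
  obtain ⟨C₀', htm⟩ := L.tm
  have hφ := L.φ0
  have g1 := Fw.low htm (N := sn k (ow (f t)) + Cd' - i * ow (f t)) (by linarith) (half_pos hε) H
  have g2 := u_chg (h := ε / 2) (X := Cd') L.toLadR (f := fun J F => ptr F J)
    (y := fun _ F => F.W) (v := ow (f t)) (w₁ := ow (f t)) (w₂ := ow (f t)) (ox := ox)
    (p₂ := sn k (ow (f t)) - φ) (fun J F => ⟨fun x => x, fun _ => rfl⟩) kn_W (hw.oG t ht)
    (hw.oG t ht) (hw.bo ht) (hw.oo t ht) le_rfl le_rfl hox hox1 (fun i _ => le_rfl) (j := i)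
    (by linarith) (by linarith) ⟨hd, by linarith, by linarith, fun l hl j hj => by
      unfold nF
      linarith⟩ (by linarith) g1 (half_pos hε)
  have g3 := ev_u L D i (Dr := Dr) (M := M) (a := a) (Eb := Eb) (η := η) (σ := σ) (bb := bb) hw ht
    (w' := w') g2
  refine Bas.mono 0 g3 ?_
  rintro J - F A h3 κ z g₀ Gc H hE Hj hHj
  refine (h3 hE Hj hHj).trans (mul_le_mul_of_nonneg_right (by linarith) (Nat.cast_nonneg J))

/-- A window well below `w'`. -/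
theorem win_lo {m : ℕ} {S : PCl m} {c : ℕ → Fin m} {k : ℕ} {sn : ℕ → ℝ → ℝ} {G : Set ℝ}
    {b o φ : ℝ} (L : LadV S c k 1 sn G b o φ) {w' X' R x : ℝ} (hw : w' ≤ o)
    (hb : b + X' + R + φ ≤ w') (hX : 0 ≤ X') (hR : φ ≤ R) {μ : ℝ} (hμ : 0 ≤ μ)
    (hx : x ≤ μ * (R - φ)) : ∃ v₀ ∈ G, b + X' ≤ v₀ ∧ v₀ ≤ w' ∧ x ≤ μ * (w' - v₀) := by
  obtain ⟨v, hv, h1⟩ := L.toLadR.gap (w' - R) (by linarith [L.φ0]) (by linarith [L.φ0])
  have h2 := abs_le.1 h1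
  refine ⟨v, hv, by linarith [h2.1], by linarith [h2.2], hx.trans ?_⟩
  exact mul_le_mul_of_nonneg_left (by linarith [h2.2]) hμ

/-- **The last place over its slab label** of the window `w = ow (f n)`, from a label of the window
`w' = ow (f t₀)` at the class level. `d`: the digits (in units); `X₀`: an upper bound of the digits
behind the natural ones on the way. -/
theorem n_up (m D k i : ℕ) : ∃ C : ℕ, 1 ≤ C ∧ ∀ {S : PCl m} {c : ℕ → Fin m}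
    {sn : ℕ → ℝ → ℝ} {G : Set ℝ} {b o φ al : ℝ} {sl : ℕ → ℝ} {Dr N M : ℕ} {C₀ a Eb ηm : ℝ}
    {ow η σ : ℕ → ℝ} {lv bb : ℕ → ℕ → ℝ} {f : ℕ → ℕ} {n : ℕ}, LadV S c k 1 sn G b o φ →
    Lnv k sn G b o φ al sl → sl k = al → ChW k sn G b o φ N C₀ ηm ow lv f n →
    C * ((al + 3) * φ) ≤ sn (k + 1) b → ∀ {t₀ : ℕ} {w' ox Cd d d₁ X₀ R R₀ η₁ η₂ ε : ℝ}, t₀ ≤ n →
    ow (f n) ≤ ox → ox ≤ 1 → 0 ≤ d → d ≤ d₁ → 0 ≤ X₀ →
    (∀ v, ow (f t₀) ≤ v → v ≤ ow (f n) → d + (sl (k + 1) - i) * (ow (f n) - v) ≤ X₀) →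
    X₀ + C * ((al + 3) * φ) ≤ R → R + R₀ + φ ≤ ow (f t₀) - b → R ≤ 1 - ow (f n) → φ ≤ R₀ →
    -- the places below
    X₀ + C * ((al + 3) * φ) ≤ al * (ow (f n) - ow (f t₀)) →
    (∀ j' : ℕ, 1 ≤ j' → j' ≤ i → (j' : ℝ) ≤ al →
      X₀ + C * ((al + 3) * φ) ≤ Cd + (al - j') * (ow (f n) - ow (f t₀)) ∧
      Fw S (fun J F => ptr F J) (vg ox) (fun _ F => F.W)
        (jetQ m c 0 k b (fun l => sn l b - φ) (nF sn (ow (f n)) R))
        (qJet m ((range k).image c) (c k) j' (ow (f n)) (sn k (ow (f n)))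
          (sn k (ow (f n)) + Cd - j' * ow (f n))) η₂) →
    (∀ j' : ℕ, j' ≤ i → al < j' → X₀ + C * ((al + 3) * φ) ≤ (j' - al) * (R₀ - φ)) → 0 < η₂ →
    Fw S (fun J F => ptr F J) (vg ox) (fun _ F => F.W)
      (jetQ m c 0 k b (fun l => sn l b - φ) (nF sn (ow (f n)) R))
      (qJet m ((range (k + 1)).image c) (c (k + 1)) i (ow (f t₀)) (sn (k + 1) (ow (f t₀)))
        (sn (k + 1) (ow (f n)) + d₁ - i * ow (f n))) η₁ → 0 < ε →
    Bas S (fun J F A => ∀ {κ : ℝ} {z : ℕ → ℕ → ℕ} {g₀ : ℕ → ℕ → ℕ}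
      {Gc : ℕ → PtT F → ℕ → MvPolynomial (Option (Fin m)) ℝ}
      {H : ℕ → LnT F → ℕ → MvPolynomial (Option (Fin m)) ℝ},
      ChE F c k D Dr N M C₀ a Eb ηm ow η σ lv bb f n κ z A g₀ Gc H →
      ∀ Hj : LnT F → ℕ → MvPolynomial (Option (Fin m)) ℝ,
      (∀ ω, ∀ l < k, Hj (slam F ⌊w' * J⌋₊ ω) l = H (f 0) (slam F ⌊b * J⌋₊ ω) l) →
      CH (Pool.Agent.H49.Ent.cond F.p A True)
        (fun ω => ⌊(2 : ℝ) ^ ((sn (k + 1) (ow (f n)) + d - i * ow (f n)) * J) *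
          ojet F (c (k + 1)) i (slG c Gc k (f 0) (f n) (ptr F J ω)) ω⌋)
        (fun ω => (jet2 F c ⌊w' * J⌋₊ Hj 0 k (nF sn (ow (f n)) R) ω, (cR F A ox ω, F.W ω))) ≤
        (η₁ + ((k + 1) * (i + 1) : ℕ) * (2 * η₂) + ε) * J) := by
  obtain ⟨Cn, hCn, hev⟩ := ev_n D k i
  obtain ⟨Ce, hCe, hnj⟩ := nj_E m D k i
  refine ⟨Cn + Ce + 20 * k + 200, by omega, ?_⟩
  intro S c sn G b o φ al sl Dr N M C₀ a Eb ηm ow η σ lv bb f n L hl hslk hw hlev t₀ w' ox Cd d d₁ X₀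
    R R₀ η₁ η₂ ε ht₀ hox hox1 hd hdd hX₀ hX hXR hRb hR1 hR₀ hj0 hj1 hj2 hη₂ H hε
  have hal := hl.s0
  have hφ := L.φ0
  obtain ⟨y, hy⟩ : ∃ y : ℝ, y = (al + 3) * φ := ⟨_, rfl⟩
  have hsφ : 0 ≤ al * φ := mul_nonneg hal hφ.le
  have hy3 : y = al * φ + 3 * φ := by rw [hy]; ring
  have hy0 : 0 < y := by linarith
  have hk0 : (0 : ℝ) ≤ k := Nat.cast_nonneg k
  obtain ⟨Cy, hCy⟩ : ∃ Cy : ℝ, Cy = ((Cn + Ce + 20 * k + 200 : ℕ) : ℝ) * y := ⟨_, rfl⟩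
  have hCy1 : Cy = Cn * y + Ce * y + (20 * k + 200) * y := by
    rw [hCy]
    push_cast
    ring
  have hCn0 : 0 ≤ (Cn : ℝ) * y := by positivity
  have hCe0 : 0 ≤ (Ce : ℝ) * y := by positivity
  have hky : (20 * k + 200) * φ ≤ (20 * (k : ℝ) + 200) * y :=
    mul_le_mul_of_nonneg_left (by linarith) (by positivity)
  have hkφ : 0 ≤ 20 * (k : ℝ) * φ := by positivity
  rw [← hy, ← hCy] at hXR hj0 hlev
  have hj1' := hj1
  rw [← hy, ← hCy] at hj1'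
  have hj2' := hj2
  rw [← hy, ← hCy] at hj2'
  obtain ⟨w, hwd⟩ : ∃ w, w = ow (f n) := ⟨_, rfl⟩
  obtain ⟨v', hv'⟩ : ∃ v', v' = ow (f t₀) := ⟨_, rfl⟩
  rw [← hwd] at hox hX hR1 hj0 hj1' H
  rw [← hwd]
  rw [← hv'] at hX hRb hj0 hj1' H
  have hwG : w ∈ G := by rw [hwd]; exact hw.oG n le_rfl
  have hvG : v' ∈ G := by rw [hv']; exact hw.oG t₀ ht₀
  have hbv : b ≤ v' := by rw [hv']; exact hw.bo ht₀
  have hvw : v' ≤ w := by rw [hv', hwd]; exact hw.mo n le_rfl t₀ ht₀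
  have hwo : w ≤ o := by rw [hwd]; exact hw.oo n le_rfl
  have hR0' : 0 ≤ R := by linarith
  obtain ⟨ν, hν⟩ : ∃ ν, ν = sn (k + 1) w + d - i * w := ⟨_, rfl⟩
  have hli := fun v hv v'' hv'' (a1 : b ≤ v) (a2 : v ≤ o) (a3 : b ≤ v'') (a4 : v'' ≤ o) =>
    hl.li k le_rfl (Nat.le_succ k) v hv v'' hv'' a1 a2 a3 a4
  rw [hslk] at hli
  have hlb := fun v hv (a1 : b ≤ v) (a2 : v ≤ w) =>
    abs_le.1 (hl.li (k + 1) (Nat.le_succ k) le_rfl v hv w hwG a1 (a2.trans hwo) (hbv.trans hvw) hwo)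
  have hνv : ∀ v ∈ G, v' ≤ v → v ≤ w → ν + i * v ≤ sn (k + 1) v + X₀ + 2 * φ :=
    fun v hv a1 a2 => by
      have g1 := hX v a1 a2
      have g2 := (hlb v hv (hbv.trans a1) a2).2
      rw [hν]
      have e1 : (sl (k + 1) - i) * (w - v) = sl (k + 1) * (w - v) - i * (w - v) := by ring
      linarith
  -- the early window
  have g1 := n_early (h := ε / 2) (η := η₂) (η₁ := η₁) (p₂ := sn (k + 1) v' - Cn * y) (P := Cn * y)
    (X := X₀ + Cn * y + 2 * φ) (X' := R) (Cd := Cd) (ν := ν)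
    (ν₁ := sn (k + 1) w + d₁ - i * w) L.toLadR (f := fun J F => ptr F J) (y := fun _ F => F.W)
    hli (fun J F => ⟨fun x => x, fun _ => rfl⟩) kn_W hvG hwG hbv hvw hwo hox hox1
    (p := fun i => sn i b - φ) (Nf := nF sn w R) (fun i _ => le_rfl) (by linarith) (by linarith)
    (by linarith) hR1 (fun l hl j hj => le_rfl) (j := i) (by linarith)
    (fun j' a1 a2 a3 => by
      obtain ⟨g2, g3⟩ := hj1' j' a1 a2 a3
      exact ⟨by linarith, g3⟩)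
    (fun j' a1 a2 => by
      refine win_lo L (hvw.trans hwo) (by linarith) hR0' hR₀ (by linarith) ?_
      linarith [hj2' j' a1 a2]) hη₂ hCn0 le_rfl (by linarith [hνv v' hvG le_rfl hvw])
    (by rw [hν]; linarith) H (half_pos hε)
  -- on the event
  have g2 := hev (Dr := Dr) (M := M) (a := a) (Eb := Eb) (η := η) (σ := σ) (bb := bb)
    (w' := w') (ox := ox) (ν := ν) (Nf := nF sn w R) L hl hw (t := t₀)
    (by
      rw [← hy]
      have : 0 ≤ (20 * (k : ℝ) + 200) * y := by positivity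
      linarith) ht₀ (by rw [← hy, ← hv']; exact g1)
  have g3 := hnj (Dr := Dr) (M := M) (a := a) (Eb := Eb) (η := η) (σ := σ) (bb := bb)
    (w' := w') (ox := ox) (ν := ν) (Nf := nF sn w R) (ε := ε / 2) (X := fun _ => X₀ + 2 * φ) L hl hw
    (t₁ := t₀) ht₀ (by rw [← hwd]; exact hox) hox1 (fun t a1 a2 => by
      have b1 : v' ≤ ow (f t) := by rw [hv']; exact hw.mo t a2 t₀ a1
      have b2 : ow (f t) ≤ w := by rw [hwd]; exact hw.mo n le_rfl t a2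
      rw [← hy]
      refine ⟨by linarith, by linarith [hνv _ (hw.oG t a2) b1 b2], by linarith, by linarith,
        fun l hl' j hj => ?_⟩
      have h4 := abs_le.1 (flat_of L.toLadR hl' hwG (hw.oG t a2) (hbv.trans hvw) hwo (hw.bo a2)
        (hw.oo t a2))
      have h5 : (1 - (j : ℝ)) * ow (f t) ≤ (1 - (j : ℝ)) * w := by
        refine mul_le_mul_of_nonneg_left b2 ?_
        have : (j : ℝ) ≤ 1 := by exact_mod_cast hj
        linarith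
      unfold nF
      linarith [h4.2]) (half_pos hε)
  refine Bas.mono 0 (g2.and g3) ?_
  rintro J - F A ⟨h2, h3⟩ κ z g₀ Gc H hE Hj hHj
  have h4 := h2 hE Hj hHj
  have h5 := (h3 hE Hj hHj _).2 h4
  rw [hν] at h5
  refine h5.trans (le_of_eq ?_)
  ring

end Pool.VA48
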