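import Pool.Agent.H48.VA.Nev

/-!
# The far codes on one event

`tj_le`: the digits of the targets over the labels. `far_ev`: the own jets of both targets over the
labels of `w`, given the far jets of the slope-one places. `dja_ev`: the codes.
-/

set_option autoImplicit false

namespace Pool.VA48

open Finset Real MvPolynomial
open Pool.Agent.H49.Ent Pool.Agent.H32.Dense
open Pool.STK hiding pr2
open Pool.KA Pool.KSAT Pool.K2S Pool.PB Pool.S6C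
open Pool.GEN Pool.CHT Pool.CHX Pool.ISO Pool.LA91 Pool.AVG71 Pool.AVG5 Pool.D2F2
open Pool.RCD Pool.AVG96 Pool.OWN68 Pool.V0F Pool.V0Q Pool.V0T Pool.XR71 Pool.T4C72
open Pool.AVG57 (upw upw_slam jet2)
open Pool.AJW (CfB)
open Pool.D2R (WinB)
open Pool.GRD (LbP)
open Pool.VA83
open Pool.NVT16
open Pool.TW44 (ChW ChE LV lv_of)
open Pool.T462 (GNs HNs)
open Pool.NA98 (NEv FdE NdE nrJ tj dgA)

/-- **The digits of the targets**: the label of the place `k` is the chart, the label of the last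
place is the slab. -/
theorem tj_le {m J : ℕ} {F : Fam m J} {c : ℕ → Fin m} {k D' : ℕ} {w u φ E : ℝ}
    {sn : ℕ → ℝ → ℝ} {A : F.Ω → Prop} (hA : 0 < Pe F.p A) {g' : ℕ → ℕ}
    {Gw : PtT F → ℕ → MvPolynomial (Option (Fin m)) ℝ}
    {Gc : ℕ → PtT F → ℕ → MvPolynomial (Option (Fin m)) ℝ}
    {H : ℕ → LnT F → ℕ → MvPolynomial (Option (Fin m)) ℝ} {kb kw W₀ W₁ V₀ V₁ : ℕ}
    (hT : LbT F c k 1 D' w u φ E sn A g' Gw (GNs c Gc k kb kw) (HNs c H k kb kw W₀ W₁))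
    {γ : Type} (Y : F.Ω → γ) (i : ℕ) (N x : ℝ) :
    (CH (Pool.Agent.H49.Ent.cond F.p A True) (fun ω => ⌊(2 : ℝ) ^ (N * J) *
        ojet F (c k) i (H kw (slam F ⌊w * J⌋₊ ω) k) ω⌋) Y ≤ x →
      CH (Pool.Agent.H49.Ent.cond F.p A True)
        (tj F c w (fhT H (HNs c H k kb kw W₀ W₁) kb k V₀ V₁) k i N) Y ≤ x) ∧
    (CH (Pool.Agent.H49.Ent.cond F.p A True) (fun ω => ⌊(2 : ℝ) ^ (N * J) *
        ojet F (c (k + 1)) i (slG c Gc k kb kw (ptr F J ω)) ω⌋) Y ≤ x →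
      CH (Pool.Agent.H49.Ent.cond F.p A True)
        (tj F c w (fhT H (HNs c H k kb kw W₀ W₁) kb k V₀ V₁) (k + 1) i N) Y ≤ x) := by
  have hcl := isLaw_cond F.isLaw hA
  have h0 := hcl.nonneg
  constructor
  · intro h
    have e1 : tj F c w (fhT H (HNs c H k kb kw W₀ W₁) kb k V₀ V₁) k i N =
        fun ω => ⌊(2 : ℝ) ^ (N * J) * ojet F (c k) i (H kw (slam F ⌊w * J⌋₊ ω) k) ω⌋ := by
      funext ω
      have e2 : fhT H (HNs c H k kb kw W₀ W₁) kb k V₀ V₁ (slam F ⌊w * J⌋₊ ω) k =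
          H kw (slam F ⌊w * J⌋₊ ω) k := by
        unfold fhT HNs
        rw [if_neg (lt_irrefl _), if_pos le_rfl]
      unfold tj
      rw [e2]
    rw [e1]
    exact h
  · intro h
    refine le_trans (CH_mono_left h0 fun ω ν hω hν e => ?_) h
    have e2 : ∀ ω, A ω → fhT H (HNs c H k kb kw W₀ W₁) kb k V₀ V₁ (slam F ⌊w * J⌋₊ ω) (k + 1) =
        slG c Gc k kb kw (ptr F J ω) := fun ω hω => by
      have e3 := hT.cls (k + 1) (Nat.le_succ k) le_rfl ω hω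
      have e4 : GNs c Gc k kb kw (ptr F J ω) (k + 1) = slG c Gc k kb kw (ptr F J ω) :=
        if_neg (by omega)
      unfold fhT
      rw [if_neg (by omega), ← e3, e4]
    have e5 := (Prod.ext_iff.mp e).1
    unfold tj
    rw [e2 ω (of_cond_pos hω), e2 ν (of_cond_pos hν)]
    exact e5

/-- **The own jets of both targets** of the orders from one, given the far jets of the slope-one
places. `dk`, `dn`: the digits, in units; `μ`: the distance of `al` to the next integer. -/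
theorem far_ev (m D K k : ℕ) : ∃ C : ℕ, 1 ≤ C ∧ ∀ {S : PCl m} {c : ℕ → Fin m}
    {sn : ℕ → ℝ → ℝ} {G : Set ℝ} {b o φ al be : ℝ} {Dr N M : ℕ} {C₀ a Eb ηm : ℝ}
    {ow η σ : ℕ → ℝ} {lv bb : ℕ → ℕ → ℝ} {f : ℕ → ℕ} {n : ℕ}, LadV S c k 1 sn G b o φ →
    Lnv k sn G b o φ al (two k al be) → ChW k sn G b o φ N C₀ ηm ow lv f n →
    ∀ {t₀ τ : ℕ} {w u T Cf δ₁ dk dn μ r₀ ε : ℝ}, w = ow (f n) → t₀ ≤ n → ow (f t₀) = w - τ * u →
    0 < u → 1 ≤ be → be < al → 0 < δ₁ → 0 < ε → 1 ≤ τ →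
    0 ≤ dk → dk ≤ Cf → 0 ≤ dn → dn ≤ 1 → dn + 1 ≤ Cf →
    C * ((al + 3) * φ) ≤ sn (k + 1) b → C * ((al + 3) * φ) ≤ u →
    C * ((al + 3) * φ) ≤ (al - be) * u →
    0 < μ → (∀ j : ℕ, al < j → μ ≤ j - al) → be * τ + 2 ≤ μ * (r₀ - 1) → 1 ≤ r₀ →
    be * τ + 2 + dk ≤ T → (T + r₀ + τ + 1) * u ≤ w - b → T * u ≤ 1 - w →
    FarA S c k K sn τ b w u T Cf φ δ₁ →
    ∀ i : ℕ, 1 ≤ i → i ≤ K →
    Bas S (fun J F A => ∀ {κ : ℝ} {z : ℕ → ℕ → ℕ} {g₀ : ℕ → ℕ → ℕ}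
      {Gc : ℕ → PtT F → ℕ → MvPolynomial (Option (Fin m)) ℝ}
      {H : ℕ → LnT F → ℕ → MvPolynomial (Option (Fin m)) ℝ},
      ChE F c k D Dr N M C₀ a Eb ηm ow η σ lv bb f n κ z A g₀ Gc H →
      ∀ Hj : LnT F → ℕ → MvPolynomial (Option (Fin m)) ℝ,
      (∀ ω, ∀ l < k, Hj (slam F ⌊w * J⌋₊ ω) l = H (f 0) (slam F ⌊b * J⌋₊ ω) l) →
      CH (Pool.Agent.H49.Ent.cond F.p A True)
        (fun ω => ⌊(2 : ℝ) ^ ((sn k w + dk * u - i * w) * J) *
          ojet F (c k) i (H (f n) (slam F ⌊w * J⌋₊ ω) k) ω⌋)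
        (fun ω => (jet2 F c ⌊w * J⌋₊ Hj 0 k (nF sn w (T * u)) ω, (cR F A w ω, F.W ω))) ≤
        (δ₁ * u + ε) * J ∧
      CH (Pool.Agent.H49.Ent.cond F.p A True)
        (fun ω => ⌊(2 : ℝ) ^ ((sn (k + 1) w + dn * u - i * w) * J) *
          ojet F (c (k + 1)) i (slG c Gc k (f 0) (f n) (ptr F J ω)) ω⌋)
        (fun ω => (jet2 F c ⌊w * J⌋₊ Hj 0 k (nF sn w (T * u)) ω, (cR F A w ω, F.W ω))) ≤
        (δ₁ * u + ((k + 1) * (K + 1) : ℕ) * (2 * (δ₁ * u)) + ε) * J) := by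
  classical
  choose C hC hup using fun i : ℕ => n_up m D k i
  obtain ⟨Cs, hCs⟩ : ∃ Cs : ℕ, ∀ i ≤ K, C i ≤ Cs :=
    ⟨(range (K + 1)).sup C, fun i hi => Finset.le_sup (f := C) (Finset.mem_range_succ_iff.2 hi)⟩
  refine ⟨Cs + 20 * k + 200, by omega, ?_⟩
  intro S c sn G b o φ al be Dr N M C₀ a Eb ηm ow η σ lv bb f n L hl hw t₀ τ w u T Cf δ₁ dk dn μ
    r₀ ε hwd ht₀ hot hu hbe hba hδ₁ hε hτ hdk hdkC hdn hdn1 hdnC hlev hyu hyab hμ0 hμ hr hr1 hT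
    hTb hT1 hF i hi hiK
  obtain ⟨e₁, he₁, hFe⟩ := hF
  have hφ := L.φ0
  have hτ1 : (1 : ℝ) ≤ τ := by exact_mod_cast hτ
  have hi1 : (1 : ℝ) ≤ i := by exact_mod_cast hi
  have hal0 : 0 < al := by linarith
  obtain ⟨y, hy⟩ : ∃ y : ℝ, y = (al + 3) * φ := ⟨_, rfl⟩
  have hsφ : 0 ≤ al * φ := mul_nonneg hal0.le hφ.le
  have hy3 : y = al * φ + 3 * φ := by rw [hy]; ring
  have hy0 : 0 < y := by linarith
  rw [← hy] at hlev hyu hyab
  have hk0 : (0 : ℝ) ≤ k := Nat.cast_nonneg k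
  have hCi : (C i : ℝ) * y ≤ Cs * y :=
    mul_le_mul_of_nonneg_right (by exact_mod_cast hCs i hiK) hy0.le
  have hky0 : 0 ≤ 20 * (k : ℝ) * y := by positivity
  have hCy : ((Cs + 20 * k + 200 : ℕ) : ℝ) * y = Cs * y + 20 * k * y + 200 * y := by
    push_cast
    ring
  rw [hCy] at hlev hyu hyab
  have hCs0 : 0 ≤ (Cs : ℝ) * y := by positivity
  have hkφ : 20 * (k : ℝ) * φ ≤ 20 * k * y := mul_le_mul_of_nonneg_left (by linarith) (by positivity)
  have hbτ : 0 ≤ be * τ := by positivity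
  have hdku : 0 ≤ dk * u := by positivity
  have hTu : (be * τ + 2 + dk) * u ≤ T * u := mul_le_mul_of_nonneg_right hT hu.le
  have hTb' : (T + r₀ + τ + 1) * u = T * u + r₀ * u + τ * u + u := by ring
  rw [hTb'] at hTb
  have hbτu : 0 ≤ be * τ * u := by positivity
  have hru : u ≤ r₀ * u := le_mul_of_one_le_left hu.le hr1
  have hτu : u ≤ τ * u := le_mul_of_one_le_left hu.le hτ1
  have hT2 : (be * τ + 2 + dk) * u = be * τ * u + 2 * u + dk * u := by ring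
  rw [hT2] at hTu
  have hslk : two k al be k = al := if_pos rfl
  have hsln : two k al be (k + 1) = be := if_neg (by omega)
  -- the place `k`
  have g1 := u_ev L D i (Dr := Dr) (M := M) (a := a) (Eb := Eb) (η := η) (σ := σ) (bb := bb)
    (η₁ := δ₁ * u) (ε := ε) hw (t := n) le_rfl (w' := w) (ox := w) (Cd := Cf * u) (Cd' := dk * u)
    (R := T * u) (by rw [hwd]) (by linarith) hdku (mul_le_mul_of_nonneg_right hdkC hu.le)
    (by linarith) (by rw [← hwd]; linarith) (by rw [← hwd]; linarith)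
    (by rw [← hwd]; exact ⟨e₁, he₁, fun e a1 a2 => (hFe e a1 a2 i hi hiK).1⟩) hε
  rw [← hwd] at g1
  -- the last place
  have hmx0 : (0 : ℝ) ≤ max 0 (be - i) := le_max_left _ _
  have hmx1 : be - i ≤ max 0 (be - i) := le_max_right _ _
  have hmx2 : max 0 (be - i) ≤ be - 1 := max_le (by linarith) (by linarith)
  have hmx3 : max 0 (be - i) * τ ≤ be * τ - τ := by
    have := mul_le_mul_of_nonneg_right hmx2 (by linarith : (0 : ℝ) ≤ τ)
    linarith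
  have hmx4 : max 0 (be - i) * τ * u ≤ (be * τ - τ) * u := mul_le_mul_of_nonneg_right hmx3 hu.le
  have hmx5 : 0 ≤ max 0 (be - i) * τ * u := by positivity
  have hdnu : dn * u ≤ u := mul_le_of_le_one_left hu.le hdn1
  have hdnu0 : 0 ≤ dn * u := by positivity
  have hX0 : (dn + max 0 (be - i) * τ) * u = dn * u + max 0 (be - i) * τ * u := by ring
  have hbt2 : (be * τ - τ) * u = be * τ * u - τ * u := by ring
  have g2 := hup i (Dr := Dr) (M := M) (a := a) (Eb := Eb) (η := η) (σ := σ) (bb := bb)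
    (η₁ := δ₁ * u) (η₂ := δ₁ * u) (ε := ε) (w' := w) (ox := w) (Cd := Cf * u) (d := dn * u)
    (d₁ := Cf * u) (X₀ := (dn + max 0 (be - i) * τ) * u) (R := T * u) (R₀ := r₀ * u) L hl hslk hw
    (by rw [← hy]; linarith) ht₀ (by rw [hwd]) (by linarith) hdnu0
    (mul_le_mul_of_nonneg_right (by linarith) hu.le) (by rw [hX0]; linarith)
    (fun v a1 a2 => by
      rw [hot] at a1
      rw [← hwd] at a2 ⊢
      rw [hsln, hX0]
      have b1 : (be - i) * (w - v) ≤ max 0 (be - i) * (w - v) :=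
        mul_le_mul_of_nonneg_right hmx1 (by linarith)
      have b2 : max 0 (be - i) * (w - v) ≤ max 0 (be - i) * (τ * u) :=
        mul_le_mul_of_nonneg_left (by linarith) hmx0
      have b3 : max 0 (be - i) * (τ * u) = max 0 (be - i) * τ * u := by ring
      linarith)
    (by rw [← hy, hX0]; linarith) (by rw [hot]; linarith) (by rw [← hwd]; linarith)
    (by linarith)
    (by
      rw [← hy, hX0, ← hwd, hot]
      have b1 : al * (w - (w - τ * u)) = al * τ * u := by ring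
      have b2 : be * τ * u + (al - be) * u ≤ al * τ * u := by
        have b3 : (al - be) * u ≤ (al - be) * (τ * u) :=
          mul_le_mul_of_nonneg_left hτu (by linarith)
        have b4 : (al - be) * (τ * u) = al * τ * u - be * τ * u := by ring
        linarith
      rw [b1]
      linarith)
    (fun j' a1 a2 a3 => by
      refine ⟨?_, ?_⟩
      · rw [← hy, hX0, ← hwd, hot]
        have b0 : (j' : ℝ) ≤ i := by exact_mod_cast a2
        have b1 : (al - j') * (w - (w - τ * u)) = (al - j') * τ * u := by ring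
        have b2 : max 0 (be - i) ≤ al - j' := max_le (by linarith) (by linarith)
        have b3 : max 0 (be - i) * (τ * u) ≤ (al - j') * (τ * u) :=
          mul_le_mul_of_nonneg_right b2 (by linarith)
        have b4 : (dn + 1) * u ≤ Cf * u := mul_le_mul_of_nonneg_right hdnC hu.le
        rw [b1]
        linarith
      · rw [← hwd]
        exact ⟨e₁, he₁, fun e c1 c2 => (hFe e c1 c2 j' a1 (a2.trans hiK)).1⟩)
    (fun j' _ a2 => by
      rw [← hy, hX0]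
      have b1 := hμ j' a2
      have b2 : μ * (r₀ * u - φ) ≤ (j' - al) * (r₀ * u - φ) :=
        mul_le_mul_of_nonneg_right b1 (by linarith)
      have b3 : μ * (r₀ * u - u) ≤ μ * (r₀ * u - φ) :=
        mul_le_mul_of_nonneg_left (by linarith) hμ0.le
      have b4 : (be * τ + 2) * u ≤ μ * (r₀ - 1) * u := mul_le_mul_of_nonneg_right hr hu.le
      have b5 : μ * (r₀ * u - u) = μ * (r₀ - 1) * u := by ring
      have b6 : (be * τ + 2) * u = be * τ * u + 2 * u := by ring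
      linarith)
    (by positivity)
    (by
      rw [← hwd, hot]
      exact ⟨e₁, he₁, fun e c1 c2 => (hFe e c1 c2 i hi hiK).2⟩) hε
  rw [← hwd] at g2
  refine Bas.mono 0 (g1.and g2) ?_
  rintro J - F A ⟨h1, h2⟩ κ z g₀ Gc H hE Hj hHj
  refine ⟨h1 hE Hj hHj, (h2 hE Hj hHj).trans (mul_le_mul_of_nonneg_right ?_ (Nat.cast_nonneg J))⟩
  have h3 : (((k + 1) * (i + 1) : ℕ) : ℝ) ≤ ((k + 1) * (K + 1) : ℕ) := by
    exact_mod_cast Nat.mul_le_mul_left _ (by omega)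
  have h4 : (((k + 1) * (i + 1) : ℕ) : ℝ) * (2 * (δ₁ * u)) ≤
      ((k + 1) * (K + 1) : ℕ) * (2 * (δ₁ * u)) := mul_le_mul_of_nonneg_right h3 (by positivity)
  linarith

/-- **The far codes** from the digits. -/
theorem dja_of {m J : ℕ} {F : Fam m J} {c : ℕ → Fin m} {k D' : ℕ} {b w u φ E T δ x : ℝ}
    {sn : ℕ → ℝ → ℝ} {A : F.Ω → Prop} (hA : 0 < Pe F.p A) {g' : ℕ → ℕ}
    {Gw GN : PtT F → ℕ → MvPolynomial (Option (Fin m)) ℝ}
    {HN : LnT F → ℕ → MvPolynomial (Option (Fin m)) ℝ}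
    {H : ℕ → LnT F → ℕ → MvPolynomial (Option (Fin m)) ℝ} {kb : ℕ} {d : ℕ → ℝ}
    (hT : LbT F c k 1 D' w u φ E sn A g' Gw GN HN) (hw0 : 0 ≤ w) (hw1 : w ≤ 1) (hx : 0 ≤ x)
    (h : ∀ l, k ≤ l → l ≤ k + 1 → ∀ i : ℕ, 1 ≤ i → i ≤ D' + 1 →
      CH (Pool.Agent.H49.Ent.cond F.p A True)
        (tj F c w (fhT H HN kb k ⌊b * J⌋₊ ⌊w * J⌋₊) l i (sn l w + d l * u - i * w))
        (fun ω => (jet2 F c ⌊w * J⌋₊ (fhT H HN kb k ⌊b * J⌋₊ ⌊w * J⌋₊) 0 k
          (nF sn w (T * u)) ω, (cR F A w ω, F.W ω))) ≤ x)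
    (hfin : ((D' + 2 : ℕ) : ℝ) * x + eCd (D' + 1) ≤ δ * u * J) :
    DjA F c k D' sn b w u T δ d kb H HN A := by
  intro l h1 h2 N' hN'
  have hcl := isLaw_cond F.isLaw hA
  have hwJ : ⌊w * (J : ℝ)⌋₊ ≤ J := floor_le hw1 J
  refine le_trans (cod_jts hcl hw0 hwJ (hT.deg l h1 h2).2 (c l) hN' _ (fun ω ω' _ _ e => ?_) 1 hx
    (fun j hj hj' => ?_)) hfin
  · exact congrArg (fun q => q.2.2.1) e
  · have e1 := h l h1 h2 j hj hj'
    have e2 : tj F c w (fhT H HN kb k ⌊b * J⌋₊ ⌊w * J⌋₊) l j (sn l w + d l * u - j * w) =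
        fun ω => ⌊(2 : ℝ) ^ ((sn l w + d l * u - j * w) * J) *
          ojet F (c l) j (HN (slam F ⌊w * J⌋₊ ω) l) ω⌋ := by
      funext ω
      have e3 : fhT H HN kb k ⌊b * J⌋₊ ⌊w * J⌋₊ (slam F ⌊w * J⌋₊ ω) l =
          HN (slam F ⌊w * J⌋₊ ω) l := if_neg (by omega)
      unfold tj
      rw [e3]
    rw [e2] at e1
    exact e1

/-- Fewer digits. -/
theorem fde_of {m J : ℕ} {F : Fam m J} {c : ℕ → Fin m} {k D' : ℕ} {b w u T δ δ₂ : ℝ}
    {sn : ℕ → ℝ → ℝ} {A : F.Ω → Prop}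
    {HN : LnT F → ℕ → MvPolynomial (Option (Fin m)) ℝ}
    {H : ℕ → LnT F → ℕ → MvPolynomial (Option (Fin m)) ℝ} {kb : ℕ} {d d' : ℕ → ℝ} (hu : 0 ≤ u)
    (h : DjA F c k D' sn b w u T δ d kb H HN A)
    (hd : ∀ l, k ≤ l → l ≤ k + 1 → d' l ≤ d l) (hδ : δ ≤ δ₂) :
    FdE F c k D' sn w u T δ₂ d' (fhT H HN kb k ⌊b * J⌋₊ ⌊w * J⌋₊) A := by
  intro l h1 h2 N' hN'
  have hJ : (0 : ℝ) ≤ J := Nat.cast_nonneg J
  have e1 : (fun s' => fhT H HN kb k ⌊b * J⌋₊ ⌊w * J⌋₊ s' l) = fun s' => HN s' l :=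
    funext fun s' => if_neg (by omega)
  rw [e1]
  refine (h l h1 h2 N' (hN'.trans (mul_le_mul_of_nonneg_right ?_ hJ))).trans
    (mul_le_mul_of_nonneg_right (mul_le_mul_of_nonneg_right hδ hu) hJ)
  have := mul_le_mul_of_nonneg_right (hd l h1 h2) hu
  linarith

end Pool.VA48
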