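import Pool.Agent.H48.VA.Pn
import Pool.Agent.H18.PN.Fdl

/-!
# Few bits up to an error, for all small accuracies

`Fw`: the calculus. `lad_exs`: labels of all places exist at every window. `fw_chg`: a change of the
labels of a place at one window.
-/

set_option autoImplicit false

namespace Pool.VA48

open Finset Real MvPolynomial
open Pool.Agent.H49.Ent Pool.Agent.H32.Dense Pool.STK Pool.KA Pool.KSAT Pool.K2S Pool.PB Pool.GEN
open Pool.S6C Pool.RCD Pool.LA91 Pool.AVG96 Pool.V0F Pool.V0T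
open Pool.OWN68 (F1 F0 few0_iff few_iff)
open Pool.V0R (LadR)

/-- **Few bits up to `η`**, for all small accuracies. -/
def Fw {m : ℕ} {U U' : Type} {α β γ : ∀ J : ℕ, Fam m J → Type} (S : PCl m)
    (f : ∀ (J : ℕ) (F : Fam m J), F.Ω → α J F) (g : ∀ (J : ℕ) (F : Fam m J), F.Ω → β J F)
    (y : ∀ (J : ℕ) (F : Fam m J), F.Ω → γ J F) (Q : Qt m U) (Q' : Qt m U') (η : ℝ) : Prop :=
  ∃ e₁ : ℝ, 0 < e₁ ∧ ∀ e : ℝ, 0 < e → e ≤ e₁ → F1 S f g y Q Q' e η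

section

variable {m : ℕ} {U U₁ U₂ U' : Type} {α β γ : ∀ J : ℕ, Fam m J → Type}
  {f : ∀ (J : ℕ) (F : Fam m J), F.Ω → α J F} {g : ∀ (J : ℕ) (F : Fam m J), F.Ω → β J F}
  {y : ∀ (J : ℕ) (F : Fam m J), F.Ω → γ J F} {S : PCl m} {C₀ : ℝ}
  {Q : Qt m U} {Q₁ : Qt m U₁} {Q₂ : Qt m U₂} {Q' : Qt m U'}

theorem Fw.of_few (H : Few S f g y Q Q') {η : ℝ} (hη : 0 < η) : Fw S f g y Q Q' η := by
  obtain ⟨e, he, h1⟩ := few_iff.1 H η hη
  exact ⟨e, he, fun e' _ h2 => h1.mono h2 le_rfl⟩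

theorem Fw.of_few0 (htm : TmC S C₀) (H : Few0 S f g y Q') {η : ℝ} (hη : 0 < η) :
    Fw S f g y Q Q' η := by
  obtain ⟨e, he, h1⟩ := few0_iff.1 H η hη
  exact ⟨e, he, fun e' _ h2 => (F1.of0 htm h1).mono h2 le_rfl⟩

theorem Fw.mono {η η' : ℝ} (H : Fw S f g y Q Q' η) (h : η ≤ η') : Fw S f g y Q Q' η' := by
  obtain ⟨e, he, h1⟩ := H
  exact ⟨e, he, fun e' a b => (h1 e' a b).mono le_rfl h⟩

theorem Fw.trans (htm : TmC S C₀) (x : Exs S Q₁) {h₁ h₂ : ℝ} (h0 : Fw S f g y Q Q₁ h₁)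
    (hf : Fw S f g y Q₁ Q' h₂) : Fw S f g y Q Q' (h₁ + h₂) := by
  obtain ⟨e, he, h1⟩ := h0
  obtain ⟨e', he', h2⟩ := hf
  exact ⟨min e e', lt_min he he', fun a ha hb => F1.trans htm x ha
    (h1 a ha (hb.trans (min_le_left _ _))) (h2 a ha (hb.trans (min_le_right _ _)))⟩

theorem Fw.pair (htm : TmC S C₀) {h₁ h₂ : ℝ} (H1 : Fw S f g y Q Q₁ h₁) (H2 : Fw S f g y Q Q₂ h₂) :
    Fw S f g y Q (Q₁.prod Q₂) (h₁ + h₂) := by
  obtain ⟨e, he, h1⟩ := H1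
  obtain ⟨e', he', h2⟩ := H2
  exact ⟨min e e', lt_min he he', fun a ha hb => F1.pair htm
    (h1 a ha (hb.trans (min_le_left _ _))) (h2 a ha (hb.trans (min_le_right _ _)))⟩

/-- Finitely many. -/
theorem Fw.fin {ι : Type} {T : Finset ι} {V : ι → Type} {Qi : ∀ i : ι, Qt m (V i)} {η : ℝ}
    (h : ∀ i ∈ T, Fw S f g y Q (Qi i) η) : ∃ e₁ : ℝ, 0 < e₁ ∧ ∀ e : ℝ, 0 < e → e ≤ e₁ →
      ∀ i ∈ T, F1 S f g y Q (Qi i) e η := by
  classical
  induction T using Finset.induction_on with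
  | empty => exact ⟨1, one_pos, fun _ _ _ i hi => absurd hi (Finset.notMem_empty i)⟩
  | insert a T _ ih =>
    obtain ⟨e, he, h1⟩ := ih fun i hi => h i (Finset.mem_insert_of_mem hi)
    obtain ⟨e', he', h2⟩ := h a (Finset.mem_insert_self a T)
    refine ⟨min e e', lt_min he he', fun e₀ ha hb i hi => ?_⟩
    rcases Finset.mem_insert.1 hi with rfl | hi
    · exact h2 e₀ ha (hb.trans (min_le_right _ _))
    · exact h1 e₀ ha (hb.trans (min_le_left _ _)) i hi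

/-- The jets of a chain. -/
theorem Fw.qjets (htm : TmC S C₀) {c : ℕ → Fin m} {r₀ r j : ℕ} {w p N : ℕ → ℕ → ℝ} {η : ℝ}
    (hη : 0 ≤ η) (h : ∀ i, r₀ ≤ i → i < r → ∀ j' ≤ j, Fw S f g y Q
      (qJet m ((range i).image c) (c i) j' (w i j') (p i j') (N i j')) η) :
    Fw S f g y Q (qJets m c r₀ r j w p N) ((r * (j + 1) : ℕ) * η) := by
  obtain ⟨e, he, h1⟩ := Fw.fin (T := (range r ×ˢ range (j + 1)).filter fun x => r₀ ≤ x.1)
    (V := fun _ => ℤ) (Qi := fun x : ℕ × ℕ => qJet m ((range x.1).image c) (c x.1) x.2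
      (w x.1 x.2) (p x.1 x.2) (N x.1 x.2)) (S := S) (f := f) (g := g) (y := y) (Q := Q) (η := η)
    fun x hx => by
      rw [Finset.mem_filter, Finset.mem_product, Finset.mem_range, Finset.mem_range] at hx
      exact h x.1 hx.2 hx.1.1 x.2 (by omega)
  refine ⟨e, he, fun e' h2 h3 => Pool.OWN68.F1.qjets htm hη fun i hi hi' j' hj' => ?_⟩
  exact h1 e' h2 h3 (i, j') (by
    rw [Finset.mem_filter, Finset.mem_product, Finset.mem_range, Finset.mem_range]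
    exact ⟨⟨hi', by show j' < j + 1; omega⟩, hi⟩)

theorem Fw.up {b a η : ℝ} (hba : b ≤ a) (ha : a ≤ 1) (h : Fw S f (vg b) y Q Q' η) :
    Fw S f (vg a) y Q Q' η := by
  obtain ⟨e, he, h1⟩ := h
  exact ⟨e, he, fun e' h2 h3 => Pool.OWN68.F1.up hba ha (h1 e' h2 h3)⟩

/-- **Fewer digits.** -/
theorem Fw.low (htm : TmC S C₀) {I : Finset (Fin m)} {k : Fin m} {j : ℕ} {w p N₁ N η h : ℝ}
    (hN : N ≤ N₁) (hh : 0 < h) (H : Fw S f g y Q (qJet m I k j w p N₁) η) :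
    Fw S f g y Q (qJet m I k j w p N) (η + h) := by
  obtain ⟨e, he, h1⟩ := H
  exact ⟨e, he, fun e' h2 h3 => Pool.PN18.f1_low htm hN hh (h1 e' h2 h3)⟩

end

section

variable {m : ℕ} {S : PCl m} {c : ℕ → Fin m} {k r : ℕ} {sn : ℕ → ℝ → ℝ} {G : Set ℝ} {b o φ : ℝ}

/-- **Labels of all places** exist at every window. -/
theorem lad_exs (L : LadR S c k r sn G b o φ) {w : ℝ} (hw : w ∈ G) {l : ℕ} (hl : l ≤ k + r)
    (j : ℕ) (N : ℝ) : Exs S (qJet m ((range l).image c) (c l) j w (sn l w) N) := by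
  rcases Nat.lt_or_eq_of_le hl with h | rfl
  · obtain ⟨u₁, rd, hrd, hch⟩ := L.ch.ch w hw
    exact exs_jet (hrd l (by omega)) (hch.att l (Nat.zero_le _) (by omega))
  · obtain ⟨rk, E, h1, -, h2, -, h3⟩ := L.att w hw
    exact exs_jetE h1 h2 h3

theorem lad_exsN (L : LadR S c k r sn G b o φ) {w : ℝ} (hw : w ∈ G) {l : ℕ} (hl : l ≤ k + r)
    (j : ℕ) (N : ℕ → ℕ → ℝ) : Exs S (qJets m c 0 l j (fun _ _ => w) (fun i _ => sn i w) N) :=
  exs_qjets fun i _ hi j' _ => lad_exs L hw (by omega) j' (N i j')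

variable {U : Type} {Q : Qt m U} {α γ : ∀ J : ℕ, Fam m J → Type}
  {f : ∀ (J : ℕ) (F : Fam m J), F.Ω → α J F} {y : ∀ (J : ℕ) (F : Fam m J), F.Ω → γ J F}

/-- **A change of the label of the place `l`**, at the window `v`: from a label of the window `w₁` to
a label of the window `w₂`; `x`: the digits of the lower places behind the natural ones. -/
theorem fw_chg (L : LadR S c k r sn G b o φ)
    (hf : ∀ (J : ℕ) (F : Fam m J), ∃ χ : α J F → PtT F, ∀ ω, ptr F J ω = χ (f J F ω))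
    (hy : Kn ((range 0).image c) 1 1 y) {v w₁ w₂ ox p₂ ν η₀ η₁ h : ℝ} (hv : v ∈ G) (hw₁ : w₁ ∈ G)
    (hwv : w₁ ≤ v) (hw₂ : w₂ ≤ v) (hox : v ≤ ox) (hox1 : ox ≤ 1) {l : ℕ} (hl : l ≤ k + r) {j : ℕ}
    {x : ℕ → ℝ} {Nx : ℕ → ℕ → ℝ}
    (hx0 : ∀ i < l, 0 < x i) (hx1 : ∀ i < l, x i + φ ≤ 1 - v)
    (hxn : ∀ i < l, ∀ i' < i, x i + φ ≤ x i')
    (hxN : ∀ i < l, ∀ j' ≤ j, sn i v + x i + φ ≤ Nx i j' + j' * v)
    (hN1 : ν + j * v + φ ≤ min (sn l w₁) p₂ + (1 - v))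
    (hNx : ∀ i < l, ν + j * v + φ ≤ min (sn l w₁) p₂ + x i)
    (H0 : Fw S f (vg ox) y Q (qJets m c 0 l j (fun _ _ => v) (fun i _ => sn i v) Nx) η₀)
    (H1 : Fw S f (vg ox) y Q (qJet m ((range l).image c) (c l) j w₁ (sn l w₁) ν) η₁)
    (hh : 0 < h) :
    Fw S f (vg ox) y Q (qJet m ((range l).image c) (c l) j w₂ p₂ ν) (η₀ + η₁ + h) := by
  have hφ := L.φ0
  obtain ⟨C₀, htm⟩ := L.tm
  obtain ⟨u₁, rd, hrd, hch⟩ := L.ch.ch v hv
  have hv1 : v < 1 := hch.u0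
  have hmin : min (1 : ℝ) (1 - v) = 1 - v := min_eq_right (by linarith [hch.w0])
  have key := few_jetN (f := f) (y := y) htm (hch.take (Nat.zero_le l) hl) (k := c l) (j := j)
    (wv := fun _ _ => v) (pv := fun i _ => sn i v) (Nv := Nx)
    (lv := x) (w₁ := w₁) (w₂ := w₂) (p₁ := sn l w₁) (p₂ := p₂)
    (N₁ := ν) (N₂ := ν) (p₀ := 1) (lam := 1) (σ₀ := φ)
    (fun _ _ _ _ _ => le_rfl) hwv hw₂ hv1 le_rfl one_pos hφ (fun i _ hi => hx0 i hi)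
    (fun i _ hi j' hj' => hxN i hi j' hj') (fun i _ hi j' _ => by
      rw [hmin, min_self]
      linarith [hx1 i hi]) (fun i _ hi j' _ i' _ hi' => by
      rw [min_self]
      linarith [hxn i hi i' hi']) le_rfl (by rw [hmin]; exact hN1)
    (fun i _ hi => hNx i hi) hf hy
  exact (Fw.pair htm H0 H1).trans htm
    (Exs.prod (lad_exsN L hv hl j Nx) (lad_exs L hw₁ hl j ν))
    (Fw.up hox hox1 (Fw.of_few key hh))

/-- **Windows between `w` and `x`**, the levels of the targets grow by at most `2 φ` in every step. -/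
theorem lad_mesh (L : LadR S c k r sn G b o φ) {w x : ℝ} (hw : w ∈ G) (hx : x ∈ G) (hbw : b ≤ w)
    (hwx : w ≤ x) (hxo : x ≤ o) : ∃ (M : ℕ) (B : ℕ → ℝ), B 0 = w ∧ B M = x ∧
      (∀ t ≤ M, B t ∈ G ∧ w ≤ B t ∧ B t ≤ x) ∧
      (∀ t < M, B t ≤ B (t + 1) ∧ B (t + 1) ≤ B t + 3 * φ ∧
        ∀ l, k ≤ l → l ≤ k + r → sn l (B (t + 1)) ≤ sn l (B t) + 2 * φ) := by
  obtain ⟨φ', hφ'0, hφ', hgap, hjmp⟩ := L.fm
  obtain ⟨n', hn'⟩ := exists_nat_ge ((x - w) / φ')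
  obtain ⟨N, bw, b0, bN, hbw', hs⟩ := gseq (h := 3 * φ') (ρ₀ := φ') hw (by linarith) n' x
    hx hwx (by
      rw [div_le_iff₀ hφ'0] at hn'
      linarith) (fun y h1 h2 => hgap y (hbw.trans h1) (h2.trans hxo))
  refine ⟨N, fun t => bw (N - t), by simp [bN], by simp [b0], fun t _ => hbw' _ (by omega),
    fun t ht => ?_⟩
  obtain ⟨h1, h2⟩ := hs (N - (t + 1)) (by omega)
  have e : N - (t + 1) + 1 = N - t := by omega
  rw [e] at h1 h2
  obtain ⟨g1, g2, g3⟩ := hbw' (N - t) (by omega)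
  obtain ⟨g4, g5, g6⟩ := hbw' (N - (t + 1)) (by omega)
  exact ⟨h1, by linarith, fun l hl hl' => hjmp l hl hl' _ g1 _ g4 (hbw.trans g2) h1
    (g6.trans hxo) h2⟩

end

end Pool.VA48
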