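import Pool.Agent.H48.VA.Lv
import Pool.Agent.H62.V0P.Lbt2

/-!
# The labels of a steep place and of a flatter last place on one event

`che_sub`: smaller events. `lbt_che`: the chart of the window for the place `k`, the slab for the last
place.
-/

set_option autoImplicit false

namespace Pool.VA48

open Finset Real MvPolynomial
open Pool.Agent.H49.Ent Pool.Agent.H32.Dense Pool.STK Pool.KA Pool.KSAT Pool.K2S Pool.PB Pool.S6C
open Pool.GEN Pool.RCD Pool.LA91 Pool.CHT Pool.AVG71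
open Pool.AVG57 (upw upw_slam)
open Pool.AJW (CfB)
open Pool.GRD (LbP)
open Pool.V0T (LbT)
open Pool.D2R (WinB bt_near)
open Pool.V0R (LadR)
open Pool.VA83 (LadV)
open Pool.TW44 (ChW ChE SlN winB_sub)
open Pool.NVT16 (slG slH slab_near deg_slb dep_slb)
open Pool.T462 (GNs HNs cell_q)

/-- Smaller events. -/
theorem che_sub {m J : ℕ} {F : Fam m J} {c : ℕ → Fin m} {k D Dr N M : ℕ} {C₀ a Eb ηm : ℝ}
    {ow η σ : ℕ → ℝ} {lv bb : ℕ → ℕ → ℝ} {f : ℕ → ℕ} {n : ℕ} {κ : ℝ} {z : ℕ → ℕ → ℕ}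
    {A : F.Ω → Prop} {g₀ : ℕ → ℕ → ℕ} {G : ℕ → PtT F → ℕ → MvPolynomial (Option (Fin m)) ℝ}
    {H : ℕ → LnT F → ℕ → MvPolynomial (Option (Fin m)) ℝ}
    (h : ChE F c k D Dr N M C₀ a Eb ηm ow η σ lv bb f n κ z A g₀ G H) {B : F.Ω → Prop}
    {κ₁ κ₂ : ℝ} (hB : Sub B A) (hP : κ₁ * Pe F.p A ≤ Pe F.p B) (h2 : 0 ≤ κ₂) (hκ : κ ≤ κ₂ * κ₁) :
    ChE F c k D Dr N M C₀ a Eb ηm ow η σ lv bb f n κ₂ z B g₀ G H :=
  ⟨winB_sub h.W hB hP h2 hκ, h.zz, fun t ht l hl ω hω => h.cf t ht l hl ω (hB ω hω),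
    fun t ht ω hω => h.cs t ht ω (hB ω hω)⟩

/-- **The labels of the two targets**: the chart of the window `f n` for the place `k`, the slab of
the windows `f 0`, `f n` for the place `k + 1`. -/
theorem lbt_che (D D' k : ℕ) (hD : 1 ≤ D) (hD' : D * D ≤ D') : ∃ C : ℕ, 1 ≤ C ∧
    ∀ {m : ℕ} {S : PCl m} {c : ℕ → Fin m}
    {sn : ℕ → ℝ → ℝ} {G : Set ℝ} {b o φ' s : ℝ} {sl : ℕ → ℝ} {Dr N M : ℕ} {C₀ a Eb ηm : ℝ}
    {ow η σ : ℕ → ℝ} {lv bb : ℕ → ℕ → ℝ} {f : ℕ → ℕ} {n : ℕ} {u φ : ℝ},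
    LadV S c k 1 sn G b o φ' → Lnv k sn G b o φ' s sl → ChW k sn G b o φ' N C₀ ηm ow lv f n →
    0 < u → φ ≤ u → C * ((s + 3) * φ') ≤ φ → (∀ l, k ≤ l → l ≤ k + 1 → φ ≤ sn l (ow (f n))) →
    (∀ l ≤ k + 1, Eb + sn l (ow (f n)) + 8 * u ≤ 1) → ∃ J₀ : ℕ, ∀ J ≥ J₀, ∀ {F : Fam m J}
      {A : F.Ω → Prop} {κ : ℝ} {z : ℕ → ℕ → ℕ}
      {g₀ : ℕ → ℕ → ℕ} {Gc : ℕ → PtT F → ℕ → MvPolynomial (Option (Fin m)) ℝ}
      {H : ℕ → LnT F → ℕ → MvPolynomial (Option (Fin m)) ℝ},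
      ChE F c k D Dr N M C₀ a Eb ηm ow η σ lv bb f n κ z A g₀ Gc H →
      LbT F c k 1 D' (ow (f n)) u φ 1 sn A (g₀ (f n)) (Gc (f n)) (GNs c Gc k (f 0) (f n))
          (HNs c H k (f 0) (f n) ⌊ow (f 0) * J⌋₊ ⌊ow (f n) * J⌋₊) := by
  classical
  obtain ⟨C₁, hC₁, hslab⟩ := slab_near D k
  obtain ⟨C₂, hC₂, hcell⟩ := cell_q D D' (k + 1)
  refine ⟨4 * C₁ + 4, by omega, ?_⟩
  intro m S c sn G b o φ' s sl Dr N M C₀ a Eb ηm ow η σ lv bb f n u φ L hl hw hu hφu hCφ hlev hEb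
  have hs := hl.s0
  have hφ' := L.φ0
  obtain ⟨y, hy⟩ : ∃ y : ℝ, y = (s + 3) * φ' := ⟨_, rfl⟩
  rw [← hy] at hCφ
  have hsφ : 0 ≤ s * φ' := mul_nonneg hs hφ'.le
  have hy3 : y = s * φ' + 3 * φ' := by rw [hy]; ring
  have hy0 : 0 < y := by linarith
  have hCφ' : 4 * (C₁ * y) + 4 * y ≤ φ := by
    push_cast at hCφ
    linarith
  have hC1y : y ≤ C₁ * y := le_mul_of_one_le_left hy0.le (by exact_mod_cast hC₁)
  have hφ : 0 < φ := by linarith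
  have hDD : D ≤ D * D := Nat.le_mul_of_pos_left _ (by omega)
  have hinj := L.inj
  obtain ⟨w, hwd⟩ : ∃ w, w = ow (f n) := ⟨_, rfl⟩
  rw [← hwd] at hlev hEb ⊢
  have hw0 : 0 ≤ w := by rw [hwd]; exact L.b0.trans (hw.bo le_rfl)
  have hw1 : w < 1 := by rw [hwd]; exact lt_of_le_of_lt (hw.oo n le_rfl) L.o1
  obtain ⟨J₂, hJ₂⟩ := exists_nat_ge ((2 * (C₂ : ℝ) + 2 * C₁ + 8) / (φ / 4))
  obtain ⟨J₃, hJ₃⟩ := exists_nat_ge ((n : ℝ) / φ')
  refine ⟨max J₂ J₃, ?_⟩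
  intro J hJ F A κ z g₀ Gc H hE
  have W := hE.W
  have h0N := hw.fN n le_rfl
  have hbN := hw.fN 0 (Nat.zero_le _)
  have hJ0 : (0 : ℝ) ≤ J := Nat.cast_nonneg J
  have hJ1 : 2 * (C₂ : ℝ) + 2 * C₁ + 8 ≤ φ / 4 * J := by
    have h3 : (J₂ : ℝ) ≤ J := by exact_mod_cast (le_max_left _ _).trans hJ
    have h4 := hJ₂.trans h3
    rw [div_le_iff₀ (by positivity)] at h4
    linarith
  have hJ4 : (n : ℝ) ≤ φ' * J := by
    have h3 : (J₃ : ℝ) ≤ J := by exact_mod_cast (le_max_right _ _).trans hJ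
    have h4 := hJ₃.trans h3
    rw [div_le_iff₀ hφ'] at h4
    linarith
  have hfw : ⌊w * (J : ℝ)⌋₊ ≤ J := floor_le hw1.le J
  have hSl := sln_of L hl hw hJ4 hE.zz
  rw [← hy] at hSl
  have hnear0 := hslab (n := n) (f := f) (y := y) W (hinj.mono fun j hj => by
      rw [Set.mem_Iio] at hj ⊢
      omega) hSl.fN hSl.mo hSl.zz hSl.C0 hSl.nJ hSl.s1
      (fun t ht t' ht' htt l hl => hSl.s2 t ht t' ht' htt l (by omega))
      (fun t ht => hSl.s3 t ht n le_rfl ht)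
  rw [← hwd] at hnear0
  -- numbers of the window
  obtain ⟨g, hg⟩ : ∃ g, g = g₀ (f n) := ⟨_, rfl⟩
  obtain ⟨Gw, hGw⟩ : ∃ Gw, Gw = Gc (f n) := ⟨_, rfl⟩
  have hev := W.ev _ h0N
  rw [← hwd, ← hg] at hev
  rw [← hg] at hnear0 ⊢
  have hηm0 : 0 ≤ ηm := (W.hη _ h0N).1.trans (W.hη _ h0N).2
  have hηm : ηm ≤ φ' := (le_mul_of_one_le_left hηm0 W.C1).trans hw.C0
  have hlvn : ∀ l ≤ k + 1, lv (f n) l = sn l w := fun l hl => by
    rw [hwd]
    exact hw.lv n le_rfl l hl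
  have hg1 : ∀ l ≤ k + 1, (sn l w - φ / 4) * J ≤ g l ∧ (g l : ℝ) ≤ sn l w * J := by
    intro l hl
    obtain ⟨h4, h5⟩ := W.sds _ h0N l hl
    rw [hlvn l hl, ← hg] at h4 h5
    refine ⟨le_trans (mul_le_mul_of_nonneg_right ?_ hJ0) h4, h5⟩
    linarith [(W.hσ _ h0N).2]
  have hg2 : ∀ l ≤ k + 1, (sn l w - φ') * J ≤ g l := by
    intro l hl
    obtain ⟨h4, h5⟩ := W.sds _ h0N l hl
    rw [hlvn l hl, ← hg] at h4 h5
    refine le_trans (mul_le_mul_of_nonneg_right ?_ hJ0) h4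
    linarith [(W.hσ _ h0N).2]
  -- the exponents
  obtain ⟨E₁, hE₁⟩ : ∃ E₁ : ℝ, E₁ = C₁ * (y * J + 1) := ⟨_, rfl⟩
  rw [← hE₁] at hnear0
  have hC1r : (1 : ℝ) ≤ C₁ := by exact_mod_cast hC₁
  have hE0 : 0 ≤ E₁ := by rw [hE₁]; positivity
  have hE1 : E₁ ≤ (φ / 4 - y) * J + C₁ := by
    have h3 : C₁ * y * J ≤ (φ / 4 - y) * J := mul_le_mul_of_nonneg_right (by linarith) hJ0
    rw [hE₁]
    linarith
  obtain ⟨X, hX⟩ : ∃ X : ℕ, X = ⌈E₁⌉₊ := ⟨_, rfl⟩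
  have hX1 : E₁ ≤ X := by rw [hX]; exact Nat.le_ceil _
  have hX2 : (X : ℝ) ≤ E₁ + 1 := by rw [hX]; exact (Nat.ceil_lt_add_one hE0).le
  have hyJ : 0 ≤ y * J := by positivity
  have hφ'y : φ' * J ≤ y * J := mul_le_mul_of_nonneg_right (by linarith) hJ0
  have e1 : (φ / 4 - y) * (J : ℝ) = φ / 4 * J - y * J := by ring
  rw [e1] at hE1
  have e2 : φ * (J : ℝ) = 4 * (φ / 4 * J) := by ring
  have hC20 : (0 : ℝ) ≤ C₂ := Nat.cast_nonneg C₂
  have hEφ : E₁ ≤ φ * J := by linarith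
  have hXp : (2 : ℝ) ^ E₁ ≤ 2 ^ X := by
    rw [← Real.rpow_natCast 2 X]
    exact Real.rpow_le_rpow_of_exponent_le (by norm_num) hX1
  -- the labels
  obtain ⟨GN, hGN⟩ : ∃ GN, GN = GNs c Gc k (f 0) (f n) := ⟨_, rfl⟩
  obtain ⟨HN, hHN⟩ : ∃ HN, HN = HNs c H k (f 0) (f n) ⌊ow (f 0) * J⌋₊ ⌊w * J⌋₊ := ⟨_, rfl⟩
  rw [← hGN, ← hHN]
  have eG : ∀ y', GN y' k = Gc (f n) y' k := fun y' => by
    rw [hGN]
    exact if_pos le_rfl
  have eG1 : ∀ y', GN y' (k + 1) = slG c Gc k (f 0) (f n) y' := fun y' => by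
    rw [hGN]
    exact if_neg (by omega)
  have eH : ∀ s', HN s' k = H (f n) s' k := fun s' => by
    rw [hHN]
    exact if_pos le_rfl
  have eH1 : ∀ s', HN s' (k + 1) = slH c H k (f 0) (f n) ⌊ow (f 0) * J⌋₊ ⌊w * J⌋₊ s' :=
    fun s' => by
      rw [hHN]
      exact if_neg (by omega)
  have hcases : ∀ l, k ≤ l → l ≤ k + 1 → l = k ∨ l = k + 1 := fun l a b => by omega
  have hdeg : ∀ l, k ≤ l → l ≤ k + 1 → (∀ y', (GN y' l).totalDegree ≤ D') ∧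
      ∀ s', (HN s' l).totalDegree ≤ D' := by
    intro l a b
    rcases hcases l a b with rfl | rfl
    · exact ⟨fun y' => by rw [eG]; exact ((hev.ball.degG _ _).trans hDD).trans hD',
        fun s' => by rw [eH]; exact ((hev.ball.degH _ _).trans hDD).trans hD'⟩
    · exact ⟨fun y' => by
        rw [eG1]
        exact (deg_slb _ hD ((W.ev _ hbN).ball.degG _ _) ((W.ev _ h0N).ball.degG _ _)
          ((W.ev _ h0N).ball.degG _ _)).trans hD', fun s' => by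
        rw [eH1]
        exact (deg_slb _ hD ((W.ev _ hbN).ball.degH _ _) ((W.ev _ h0N).ball.degH _ _)
          ((W.ev _ h0N).ball.degH _ _)).trans hD'⟩
  have hdep : ∀ l, k ≤ l → l ≤ k + 1 → (∀ y', DepC c l (GN y' l)) ∧ ∀ s', DepC c l (HN s' l) := by
    intro l a b
    rcases hcases l a b with rfl | rfl
    · exact ⟨fun y' => by rw [eG]; exact hev.ball.depG _ _,
        fun s' => by rw [eH]; exact hev.ball.depH _ _⟩
    · exact ⟨fun y' => by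
        rw [eG1]
        exact dep_slb ((W.ev _ hbN).ball.depG _ _) ((W.ev _ h0N).ball.depG _ _)
          ((W.ev _ h0N).ball.depG _ _), fun s' => by
        rw [eH1]
        exact dep_slb ((W.ev _ hbN).ball.depH _ _) ((W.ev _ h0N).ball.depH _ _)
          ((W.ev _ h0N).ball.depH _ _)⟩
  have hcls : ∀ l, k ≤ l → l ≤ k + 1 → ∀ ω, A ω → GN (ptr F J ω) l =
      HN (slam F ⌊w * J⌋₊ ω) l := by
    intro l a b ω hω
    rcases hcases l a b with rfl | rfl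
    · rw [eG, eH]
      exact hev.cls ω hω l (by omega)
    · rw [eG1, eH1]
      have h3 : ow (f 0) ≤ w := by
        rw [hwd]
        exact hw.mo n le_rfl 0 (Nat.zero_le _)
      unfold slG slH
      rw [upw_slam F (Nat.floor_le_floor (mul_le_mul_of_nonneg_right h3 hJ0)) hfw ω,
        (W.ev _ hbN).cls ω hω (k + 1) (by omega), hev.cls ω hω (k + 1) (by omega),
        hev.cls ω hω k (by omega)]
  have hbtN : ∀ ω, A ω → NBx c (Gc (f n) (ptr F J ω)) g ⌊w * J⌋₊ (F.t ω) (k + 1) (bt F ω) := by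
    intro ω hω
    refine ⟨?_, fun l hl => hev.ball.pos ω hω l (by omega)⟩
    show |bt F ω none - bt F ω none| ≤ _
    rw [sub_self, abs_zero]
    positivity
  have hnear : ∀ l, k ≤ l → l ≤ k + 1 → ∀ ω, A ω → ∀ x,
      NBx c (Gc (f n) (ptr F J ω)) g ⌊w * J⌋₊ (F.t ω) l x →
      |eval x (GN (ptr F J ω) l) - eval x (Gc (f n) (ptr F J ω) l)| ≤ 2 ^ E₁ / 2 ^ g l := by
    intro l a b ω hω x hx
    rcases hcases l a b with rfl | rfl
    · rw [eG, sub_self, abs_zero]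
      positivity
    · rw [eG1]
      exact hnear0 ω hω x hx
  have hposl : ∀ l, k ≤ l → l ≤ k + 1 → ∀ ω, A ω →
      |F.x ω (c l) - eval (bt F ω) (GN (ptr F J ω) l)| ≤ 1 / 2 ^ ⌊(sn l w - φ) * J⌋₊ := by
    intro l a b ω hω
    have h3 : NBx c (Gc (f n) (ptr F J ω)) g ⌊w * J⌋₊ (F.t ω) l (bt F ω) :=
      ⟨(hbtN ω hω).1, fun i hi => (hbtN ω hω).2 i (by omega)⟩
    have h4 := hnear l a b ω hω _ h3
    have h5 := hev.ball.pos ω hω l (by omega)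
    have h6 : |F.x ω (c l) - eval (bt F ω) (GN (ptr F J ω) l)| ≤ (2 : ℝ) ^ (E₁ + 1) / 2 ^ g l := by
      have h7 : (2 : ℝ) ^ (E₁ + 1) = 2 ^ E₁ + 2 ^ E₁ := by
        rw [Real.rpow_add (by norm_num), Real.rpow_one]
        ring
      have h8 : (1 : ℝ) ≤ 2 ^ E₁ := Real.one_le_rpow (by norm_num) hE0
      rw [h7, add_div]
      have h9 : (1 : ℝ) / 2 ^ g l ≤ 2 ^ E₁ / 2 ^ g l := div_le_div_of_nonneg_right h8 (by positivity)
      rw [abs_le] at h4 h5 ⊢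
      constructor <;> linarith only [h4.1, h4.2, h5.1, h5.2, h9]
    refine h6.trans ?_
    rw [div_le_div_iff₀ (by positivity) (by positivity), one_mul, ← Real.rpow_natCast,
      ← Real.rpow_natCast, ← Real.rpow_add (by norm_num)]
    refine Real.rpow_le_rpow_of_exponent_le (by norm_num) ?_
    have h7 := Nat.floor_le (show 0 ≤ (sn l w - φ) * (J : ℝ) from
      mul_nonneg (by linarith [hlev l a b]) hJ0)
    have h8 := hg2 l b
    have e3 : (sn l w - φ) * (J : ℝ) = sn l w * J - φ * J := by ring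
    have e4 : (sn l w - φ') * (J : ℝ) = sn l w * J - φ' * J := by ring
    have h9 := h7.trans (le_of_eq e3)
    rw [e4] at h8
    linarith
  refine ⟨hdeg, hdep, hcls, fun l a b => ?_, hposl, ⟨fun _ _ => 0, fun l a b ω hω x hx => ?_⟩,
    fun l a b ω ν hω hν hpt => ?_⟩
  · rcases hcases l a b with rfl | rfl
    · have e3 : (fun s' => HN s' l) = fun s' => H (f n) s' l := funext eH
      rw [e3, hwd]
      exact hE.cf n le_rfl l le_rfl
    · have e3 : (fun s' => HN s' (k + 1)) = fun s' => slH c H k (f 0) (f n) ⌊ow (f 0) * J⌋₊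
          ⌊w * J⌋₊ s' := funext eH1
      rw [e3, hwd]
      exact hE.cs n le_rfl
  · rw [add_zero]
    exact (hnear l a b ω hω x hx).trans (div_le_div_of_nonneg_right
      (Real.rpow_le_rpow_of_exponent_le (by norm_num) hEφ) (by positivity))
  · obtain ⟨v, hv⟩ : ∃ v, v = ⌈(3 * u + φ / 4) * J⌉₊ + X + C₂ + 1 := ⟨_, rfl⟩
    have hv1 : (3 * u + φ / 4) * J ≤ ⌈(3 * u + φ / 4) * (J : ℝ)⌉₊ := Nat.le_ceil _
    have hv2 : (⌈(3 * u + φ / 4) * (J : ℝ)⌉₊ : ℝ) ≤ (3 * u + φ / 4) * J + 1 :=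
      (Nat.ceil_lt_add_one (by positivity)).le
    have hvr : (v : ℝ) = ⌈(3 * u + φ / 4) * (J : ℝ)⌉₊ + X + C₂ + 1 := by
      rw [hv]
      push_cast
      ring
    have hEr : ((⌊(Eb + σ (f n) + η (f n)) * J⌋₊ : ℕ) : ℝ) ≤ (Eb + 2 * φ') * J := by
      refine (Nat.floor_le (mul_nonneg (by linarith [W.Eb0, (W.hσ _ h0N).1, (W.hη _ h0N).1])
        hJ0)).trans (mul_le_mul_of_nonneg_right ?_ hJ0)
      linarith [(W.hσ _ h0N).2, (W.hη _ h0N).2]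
    have huJ : φ * J ≤ u * J := mul_le_mul_of_nonneg_right hφu hJ0
    have e1' := hcell (hinj.mono fun j hj => by
        rw [Set.mem_Iio] at hj ⊢
        omega) hev.ball (v := v) (l := l) (M := 2 ^ X) (fun i hi => by
      have h4 : (((⌊(Eb + σ (f n) + η (f n)) * J⌋₊ + g i + v + C₂ : ℕ)) : ℝ) ≤ (J : ℕ) := by
        push_cast
        rw [hvr]
        have h5 := (hg1 i hi).2
        have h6 := mul_le_mul_of_nonneg_right (hEb i hi) hJ0
        nlinarith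
      exact_mod_cast h4) b (by positivity) (fun y' => GN y' l)
      (fun y' => (hdeg l a b).1 y') (fun y' => (hdep l a b).1 y')
      (fun ω' hω' x hx => (hnear l a b ω' hω' x hx).trans
        (div_le_div_of_nonneg_right hXp (by positivity))) ω ν hω hν hpt
    refine e1'.trans ?_
    have h4 : (2 : ℝ) ^ C₂ * (1 + 2 ^ X) ≤ 2 ^ (C₂ + X + 1) := by
      have h5 : (1 : ℝ) ≤ 2 ^ X := one_le_pow₀ (by norm_num)
      rw [pow_succ, pow_add]
      nlinarith [(by positivity : (0 : ℝ) < 2 ^ C₂)]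
    refine (div_le_div_of_nonneg_right h4 (by positivity)).trans ?_
    rw [div_le_div_iff₀ (by positivity) (by positivity), one_mul, ← pow_add]
    refine pow_le_pow_right₀ (by norm_num) ?_
    have h5 : ⌊(sn l w + 3 * u) * (J : ℝ)⌋₊ ≤ g l + ⌈(3 * u + φ / 4) * (J : ℝ)⌉₊ := by
      refine Nat.floor_le_of_le ?_
      push_cast
      have h6 := (hg1 l b).1
      nlinarith
    omega

end Pool.VA48
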