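import Pool.Agent.H48.VA.Nev
import Pool.Agent.H92.V0F.Lbf

/-!
# The gradient of the slab label of the last place

`lbt_sub`, `lbt_mono`, `lno_mono`: smaller events and lower precisions. `lno_ev`: on a part of every
event the labels of both targets, the one of the last place with a bounded gradient.
-/

set_option autoImplicit false

namespace Pool.VA48

open Finset Real MvPolynomial
open Pool.Agent.H49.Ent Pool.Agent.H32.Dense
open Pool.STK hiding pr2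
open Pool.KA Pool.KSAT Pool.K2S Pool.PB Pool.S6C
open Pool.GEN Pool.CHT Pool.CHX Pool.ISO Pool.LA91 Pool.AVG71 Pool.AVG5 Pool.D2F2
open Pool.RCD Pool.AVG96 Pool.OWN68 Pool.V0F Pool.V0Q Pool.V0T Pool.XR71 Pool.T4C72
open Pool.AVG57 (upw upw_slam jet2)
open Pool.AJW (CfB)
open Pool.D2R (WinB)
open Pool.GRD (LbP)
open Pool.VA83
open Pool.NVT16
open Pool.TW44 (ChW ChE LV lv_of)
open Pool.T462 (GNs HNs)

section

variable {m J : ℕ} {F : Fam m J} {c : ℕ → Fin m} {k f D' : ℕ} {w u φ φ₁ E : ℝ}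
  {sn : ℕ → ℝ → ℝ} {A B : F.Ω → Prop} {g₀ : ℕ → ℕ}
  {Gw GN : PtT F → ℕ → MvPolynomial (Option (Fin m)) ℝ}
  {HN : LnT F → ℕ → MvPolynomial (Option (Fin m)) ℝ}

theorem lbt_sub (h : LbT F c k f D' w u φ E sn A g₀ Gw GN HN) (hB : Sub B A) :
    LbT F c k f D' w u φ E sn B g₀ Gw GN HN where
  deg := h.deg
  dep := h.dep
  cls := fun l a b ω hω => h.cls l a b ω (hB ω hω)
  cfb := fun l a b ω hω => h.cfb l a b ω (hB ω hω)
  pos := fun l a b ω hω => h.pos l a b ω (hB ω hω)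
  near := by
    obtain ⟨κN, h1⟩ := h.near
    exact ⟨κN, fun l a b ω hω => h1 l a b ω (hB ω hω)⟩
  cell := fun l a b ω ν hω hν => h.cell l a b ω ν (hB ω hω) (hB ν hν)

theorem lbt_mono (h : LbT F c k f D' w u φ₁ E sn A g₀ Gw GN HN) (hφ : φ₁ ≤ φ) :
    LbT F c k f D' w u φ E sn A g₀ Gw GN HN where
  deg := h.deg
  dep := h.dep
  cls := h.cls
  cfb := h.cfb
  pos := fun l a b ω hω => (h.pos l a b ω hω).trans (inv_mono (Nat.floor_le_floor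
    (mul_le_mul_of_nonneg_right (by linarith) (Nat.cast_nonneg J))))
  near := by
    obtain ⟨κN, h1⟩ := h.near
    exact ⟨κN, fun l a b ω hω x hx => (h1 l a b ω hω x hx).trans (div_le_div_of_nonneg_right
      (Real.rpow_le_rpow_of_exponent_le (by norm_num)
        (mul_le_mul_of_nonneg_right hφ (Nat.cast_nonneg J))) (by positivity))⟩
  cell := h.cell

theorem lno_mono {K₀ : ℕ} {e₀ ρ₀ : ℝ} (h : LnO F c k sn w φ₁ K₀ e₀ ρ₀ HN A) (hφ : φ₁ ≤ φ)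
    (hB : Sub B A) : LnO F c k sn w φ K₀ e₀ ρ₀ HN B := by
  obtain ⟨V, z, z', g, h1, h2⟩ := h
  refine ⟨V, z, z', g, (h1.sub hB).mono (Finset.Subset.refl _) le_rfl le_rfl le_rfl
    (Nat.floor_le_floor (mul_le_mul_of_nonneg_right (by linarith) (Nat.cast_nonneg J))), h2⟩

end

/-- The time deficit with a nonnegative constant. -/
theorem tmc_max {m : ℕ} {S : PCl m} {Ct : ℝ} (htm : TmC S Ct) : TmC S (max Ct 0) := by
  intro τ J F A hτ hst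
  refine ⟨(htm τ J F A hτ hst).1, fun h => ?_⟩
  have h1 := (htm τ J F A hτ hst).2 h
  have h2 : Ct * τ * J ≤ max Ct 0 * τ * J :=
    mul_le_mul_of_nonneg_right (mul_le_mul_of_nonneg_right (le_max_left _ _) hτ.le)
      (Nat.cast_nonneg J)
  unfold Fam.Tm at h1 ⊢
  linarith

/-- **The labels of both targets** on a part of every event. -/
theorem lno_ev (D D' k : ℕ) (hD : 1 ≤ D) (hD' : D * D ≤ D') : ∃ C : ℕ, 1 ≤ C ∧
    ∀ {m : ℕ} {S : PCl m} {c : ℕ → Fin m}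
    {sn : ℕ → ℝ → ℝ} {G : Set ℝ} {b o φ' s : ℝ} {sl : ℕ → ℝ} {Dr N M : ℕ} {C₀ a Eb ηm : ℝ}
    {ow η σ : ℕ → ℝ} {lv bb : ℕ → ℕ → ℝ} {f : ℕ → ℕ} {n : ℕ} {w u φ e₀ ρ₀ rk E : ℝ},
    LadV S c k 1 sn G b o φ' → Lnv k sn G b o φ' s sl → ChW k sn G b o φ' N C₀ ηm ow lv f n →
    w = ow (f n) → 0 < u → 0 < φ → φ ≤ u → C * ((s + 3) * φ') ≤ φ →
    (∀ l, k ≤ l → l ≤ k + 1 → φ ≤ sn l w) →
    (∀ l ≤ k + 1, Eb + sn l w + 8 * u ≤ 1) → w ≤ sn k w →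
    Ful S ((range (k + 1)).image c) w (sn k w) → 0 ≤ E → E + u ≤ e₀ →
    AttG S ((range (k + 1)).image c) (c (k + 1)) w (sn (k + 1) w) rk E →
    sn k w + u ≤ e₀ + sn (k + 1) w → sn k w + u ≤ ρ₀ →
    Bas S (fun J F A => ∀ {κ : ℝ} {z : ℕ → ℕ → ℕ} {g₀ : ℕ → ℕ → ℕ}
      {Gc : ℕ → PtT F → ℕ → MvPolynomial (Option (Fin m)) ℝ}
      {H : ℕ → LnT F → ℕ → MvPolynomial (Option (Fin m)) ℝ},
      ChE F c k D Dr N M C₀ a Eb ηm ow η σ lv bb f n κ z A g₀ Gc H →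
      ∃ B : F.Ω → Prop, Sub B A ∧ 1 / 16 * Pe F.p A ≤ Pe F.p B ∧
      LbT F c k 1 D' w u φ 1 sn B (g₀ (f n)) (Gc (f n)) (GNs c Gc k (f 0) (f n))
        (HNs c H k (f 0) (f n) ⌊ow (f 0) * J⌋₊ ⌊w * J⌋₊) ∧
      LnO F c k sn w φ D' e₀ ρ₀ (HNs c H k (f 0) (f n) ⌊ow (f 0) * J⌋₊ ⌊w * J⌋₊) B) := by
  classical
  obtain ⟨C, hC, hlbt⟩ := lbt_che D D' k hD hD'
  refine ⟨2 * C, by omega, ?_⟩
  intro m S c sn G b o φ' s sl Dr N M C₀ a Eb ηm ow η σ lv bb f n w u φ e₀ ρ₀ rk E L hl hw hwd hu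
    hφ hφu hCφ hlev hEb hwk hful hE0 hEe hatt h1 h2
  obtain ⟨Ct, htm⟩ := L.tm
  have hw0 : 0 ≤ w := by rw [hwd]; exact L.b0.trans (hw.bo le_rfl)
  obtain ⟨u₁, rd, -, hch⟩ := L.ch.ch w (by rw [hwd]; exact hw.oG n le_rfl)
  have hs1 : sn k w < 1 := (hch.s0 k (Nat.zero_le _) (Nat.lt_succ_self k)).2
  have hφ1 := hlev (k + 1) (Nat.le_succ k) le_rfl
  have hhalf : C * ((s + 3) * φ') ≤ φ / 2 := by
    push_cast at hCφ
    linarith
  rw [hwd] at hlev hEb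
  obtain ⟨J₁, hJ₁⟩ := hlbt (Dr := Dr) (M := M) (a := a) (η := η) (σ := σ) (bb := bb) L hl hw hu
    (by linarith : φ / 2 ≤ u) hhalf (fun l a1 a2 => by linarith [hlev l a1 a2]) hEb
  rw [← hwd] at hlev hEb
  have hatt' : AttR S ((range (k + 1)).image c) (c (k + 1)) w (sn (k + 1) w) rk (e₀ - φ / 2) := by
    intro e he
    obtain ⟨K, hK⟩ := hatt e he
    refine ⟨K, hK.mono 0 ?_⟩
    rintro J - F A ⟨V, z, z', g, h3⟩
    refine ⟨V, z, z', g, h3.mono (Finset.Subset.refl _) le_rfl (Nat.floor_le_floor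
      (mul_le_mul_of_nonneg_right (by linarith) (Nat.cast_nonneg J))) le_rfl le_rfl⟩
  have hst := lb_step (le_max_right Ct 0) (tmc_max htm) L.pos hw0 hwk hs1 hful hatt' (by linarith)
    (by linarith) D' (p := sn (k + 1) w - φ / 2) (by linarith) (half_pos hφ) (by linarith)
    (by linarith)
  obtain ⟨J₂, hJ₂⟩ := exists_nat_ge (1 / (φ / 16))
  refine Bas.mono (max J₁ J₂) hst ?_
  rintro J hJ F A h3 κ z g₀ Gc H hE
  have hJ0 : (0 : ℝ) ≤ J := Nat.cast_nonneg J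
  have hJ2 : 1 ≤ φ / 16 * J := by
    have h4 : (J₂ : ℝ) ≤ J := by exact_mod_cast (le_max_right _ _).trans hJ
    have h5 := hJ₂.trans h4
    rw [div_le_iff₀ (by positivity)] at h5
    linarith
  have hT := hJ₁ J ((le_max_left _ _).trans hJ) hE
  rw [← hwd] at hT
  obtain ⟨V, z₁, z₁', G', h4, h5⟩ := lbp_of hT (Nat.le_succ k) le_rfl
  obtain ⟨B, hB, hP, hO⟩ := h3 _ V z₁ z₁' G' h4 (by
    have h6 := Nat.lt_floor_add_one ((sn (k + 1) w - φ / 2) * (J : ℝ))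
    have e1 : (sn (k + 1) w - φ / 2 - φ / 2 / 8) * (J : ℝ) =
      (sn (k + 1) w - φ / 2) * J - φ / 16 * J := by ring
    rw [e1]
    linarith)
  refine ⟨B, hB, by linarith, lbt_sub (lbt_mono hT (by linarith)) hB, V, z₁, z₁', G', ?_, h5⟩
  rw [show e₀ - φ / 2 + φ / 2 = e₀ by ring, show sn (k + 1) w - φ / 2 - φ / 2 =
    sn (k + 1) w - φ by ring] at hO
  exact hO.mono (Finset.Subset.refl _) le_rfl le_rfl (Nat.floor_le_floor
    (mul_le_mul_of_nonneg_right (by linarith) hJ0)) le_rfl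

end Pool.VA48
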