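import Pool.Agent.H44.V0P.P5
import Pool.Agent.H83.VA.S

/-!
# Chains of windows over a ladder of two slopes

`Lnv`: the slopes of the two targets. `sln_of`: the windows of the slab labels. `che_part`: the bounds
of the own paths hold on a large part.
-/

set_option autoImplicit false

namespace Pool.VA48

open Finset Real MvPolynomial
open Pool.Agent.H49.Ent Pool.Agent.H32.Dense Pool.STK Pool.KA Pool.KSAT Pool.K2S Pool.PB Pool.GEN
open Pool.S6C Pool.RCD Pool.LA91 Pool.AVG96 Pool.V0F Pool.V0T Pool.D2R Pool.NVT16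
open Pool.BFL (Pb)
open Pool.AVG57 (upw upw_slam)
open Pool.GRD (LbP)
open Pool.AJW (CfB)
open Pool.V0R (LadR)
open Pool.VA83 (LadV)
open Pool.TW44 (ChW ChE SlN slab_lb winB_sub)

/-- **The slopes of the two targets**: `sl k`, `sl (k + 1)`, at most `s`. -/
structure Lnv (k : ℕ) (sn : ℕ → ℝ → ℝ) (G : Set ℝ) (b o φ s : ℝ) (sl : ℕ → ℝ) : Prop where
  s0 : 0 ≤ s
  b0 : ∀ l, k ≤ l → l ≤ k + 1 → 0 ≤ sl l ∧ sl l ≤ s
  li : ∀ l, k ≤ l → l ≤ k + 1 → ∀ v ∈ G, ∀ v' ∈ G, b ≤ v → v ≤ o → b ≤ v' → v' ≤ o →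
    |sn l v' - sn l v - sl l * (v' - v)| ≤ 2 * φ

section

variable {m : ℕ} {S : PCl m} {c : ℕ → Fin m} {k : ℕ} {sn : ℕ → ℝ → ℝ} {G : Set ℝ} {b o φ : ℝ}
  {N : ℕ} {C₀ ηm : ℝ} {ow : ℕ → ℝ} {lv : ℕ → ℕ → ℝ} {f : ℕ → ℕ} {n : ℕ} {s : ℝ} {sl : ℕ → ℝ}

/-- Levels of the slope-one places. -/
theorem flat_of {r : ℕ} (L : LadR S c k r sn G b o φ) {l : ℕ} (hl : l < k) {v v' : ℝ} (hv : v ∈ G)
    (hv' : v' ∈ G) (h1 : b ≤ v) (h2 : v ≤ o) (h1' : b ≤ v') (h2' : v' ≤ o) :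
    |(sn l v' - v') - (sn l v - v)| ≤ 2 * φ := by
  have h3 := L.fl l hl _ hv h1 h2
  have h4 := L.fl l hl _ hv' h1' h2'
  rw [abs_le] at h3 h4 ⊢
  constructor <;> linarith [h3.1, h3.2, h4.1, h4.2]

/-- Levels of the targets. -/
theorem lin_of (hl : Lnv k sn G b o φ s sl) {l : ℕ} (h0 : k ≤ l) (h0' : l ≤ k + 1) {v v' : ℝ}
    (hv : v ∈ G) (hv' : v' ∈ G) (h1 : b ≤ v) (h2 : v ≤ o) (h1' : b ≤ v') (h2' : v' ≤ o) :
    |sn l v' - sn l v - sl l * (v' - v)| ≤ 2 * φ :=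
  hl.li l h0 h0' v hv v' hv' h1 h2 h1' h2'

/-- **The windows of the slab labels.** -/
theorem sln_of (L : LadV S c k 1 sn G b o φ) (hl : Lnv k sn G b o φ s sl)
    (h : ChW k sn G b o φ N C₀ ηm ow lv f n) {J M : ℕ} {z : ℕ → ℕ → ℕ} (hJ : (n : ℝ) ≤ φ * J)
    (hz : ∀ t < n, ∃ j ≤ M, z (f t) j = ⌊ow (f (t + 1)) * J⌋₊ - ⌊ow (f t) * J⌋₊) :
    SlN k J N M n C₀ ηm ow lv z f ((s + 3) * φ) := by
  have hφ := L.φ0
  have hs := hl.s0
  have hsφ : 0 ≤ s * φ := mul_nonneg hs hφ.le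
  have e1 : (s + 3) * φ = s * φ + 3 * φ := by ring
  have hJ0 : (0 : ℝ) ≤ J := Nat.cast_nonneg J
  refine ⟨h.fN, fun t ht => (h.st t ht).1, hz, by linarith [h.C0], ?_, fun t ht l hll => ?_,
    fun t ht t' ht' htt l hll => ?_, fun t ht t' ht' htt => ?_⟩
  · refine hJ.trans (mul_le_mul_of_nonneg_right (by linarith) hJ0)
  · rw [h.lv t ht.le l hll, h.lv (t + 1) ht l hll]
    obtain ⟨h3, h4⟩ := h.st t ht
    rcases Nat.lt_or_ge l k with h5 | h5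
    · have h6 := abs_le.1 (flat_of L.toLadR h5 (h.oG t ht.le) (h.oG (t + 1) ht) (h.bo ht.le)
        (h.oo t ht.le) (h.bo ht) (h.oo (t + 1) ht))
      linarith [h6.2]
    · have h6 := abs_le.1 (lin_of hl h5 hll (h.oG t ht.le) (h.oG (t + 1) ht) (h.bo ht.le)
        (h.oo t ht.le) (h.bo ht) (h.oo (t + 1) ht))
      obtain ⟨b1, b2⟩ := hl.b0 l h5 hll
      have h7 : sl l * (ow (f (t + 1)) - ow (f t)) ≤ sl l * φ :=
        mul_le_mul_of_nonneg_left (by linarith) b1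
      have h8 : sl l * φ ≤ s * φ := mul_le_mul_of_nonneg_right b2 hφ.le
      linarith [h6.2]
  · rw [h.lv t ht l hll, h.lv t' ht' l hll]
    have h3 := h.mo t' ht' t htt
    rcases Nat.lt_or_ge l k with h5 | h5
    · have h6 := abs_le.1 (flat_of L.toLadR h5 (h.oG t ht) (h.oG t' ht') (h.bo ht) (h.oo t ht)
        (h.bo ht') (h.oo t' ht'))
      linarith [h6.1]
    · have h6 := abs_le.1 (lin_of hl h5 hll (h.oG t ht) (h.oG t' ht') (h.bo ht) (h.oo t ht)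
        (h.bo ht') (h.oo t' ht'))
      have h7 : 0 ≤ sl l * (ow (f t') - ow (f t)) := mul_nonneg (hl.b0 l h5 hll).1 (by linarith)
      linarith [h6.1]
  · rw [h.lv t ht k (by omega), h.lv t ht (k + 1) le_rfl, h.lv t' ht' k (by omega),
      h.lv t' ht' (k + 1) le_rfl]
    have h3 := L.le (k + 1) (Nat.le_succ k) le_rfl _ (h.oG t ht) _ (h.oG t' ht') (h.bo ht)
      (h.mo t' ht' t htt) (h.oo t' ht')
    linarith

end

/-- **The bounds of the own paths** hold on a large part. -/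
theorem che_part (D k : ℕ) : ∃ C : ℕ, 1 ≤ C ∧ ∀ {m : ℕ} {S : PCl m} {c : ℕ → Fin m}
    {sn : ℕ → ℝ → ℝ} {G : Set ℝ} {b o φ s : ℝ} {sl : ℕ → ℝ} {Dr N M : ℕ} {C₀ a Eb ηm : ℝ}
    {ow η σ : ℕ → ℝ} {lv bb : ℕ → ℕ → ℝ} {f : ℕ → ℕ} {n : ℕ}, LadV S c k 1 sn G b o φ →
    Lnv k sn G b o φ s sl → ChW k sn G b o φ N C₀ ηm ow lv f n →
    C * ((s + 3) * φ) ≤ sn (k + 1) b →
    Bas S (fun J F A => ∀ {κ : ℝ} {z : ℕ → ℕ → ℕ} {g₀ : ℕ → ℕ → ℕ}
      {Gc : ℕ → PtT F → ℕ → MvPolynomial (Option (Fin m)) ℝ}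
      {H : ℕ → LnT F → ℕ → MvPolynomial (Option (Fin m)) ℝ},
      WinB F c (k + 1) D Dr N M C₀ a Eb ηm ow η σ lv bb κ z A g₀ Gc H →
      (∀ t < n, ∃ j ≤ M, z (f t) j = ⌊ow (f (t + 1)) * J⌋₊ - ⌊ow (f t) * J⌋₊) →
      ∃ B : F.Ω → Prop, Sub B A ∧ 1 / 2 * Pe F.p A ≤ Pe F.p B ∧ ∀ κ₂ : ℝ, 0 ≤ κ₂ →
        κ ≤ κ₂ * (1 / 2) → ChE F c k D Dr N M C₀ a Eb ηm ow η σ lv bb f n κ₂ z B g₀ Gc H) := by
  classical
  obtain ⟨Cl, hCl, hslab⟩ := slab_lb D k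
  refine ⟨Cl + 2, by omega, ?_⟩
  intro m S c sn G b o φ s sl Dr N M C₀ a Eb ηm ow η σ lv bb f n L hl hw hlev
  have hs := hl.s0
  have hφ := L.φ0
  obtain ⟨Ct, htm⟩ := L.tm
  obtain ⟨y, hy⟩ : ∃ y : ℝ, y = (s + 3) * φ := ⟨_, rfl⟩
  have hsφ : 0 ≤ s * φ := mul_nonneg hs hφ.le
  have hy3 : y = s * φ + 3 * φ := by rw [hy]; ring
  have hy0 : 0 < y := by linarith
  rw [← hy] at hlev
  have hv0 : ∀ t ≤ n, 0 ≤ ow (f t) ∧ ow (f t) < 1 := fun t ht =>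
    ⟨L.b0.trans (hw.bo ht), lt_of_le_of_lt (hw.oo t ht) L.o1⟩
  -- the pairs (window, place)
  obtain ⟨wn, hwn⟩ : ∃ wn : ℕ → ℝ, wn = fun i => ow (f (i / (k + 2))) := ⟨_, rfl⟩
  have hdiv : ∀ i < (n + 1) * (k + 2), i / (k + 2) ≤ n := fun i hi =>
    Nat.lt_succ_iff.1 (Nat.div_lt_of_lt_mul (by rw [mul_comm]; exact hi))
  have hcf := Pool.V0C62.cfb_stmt htm L.pos (D * D + D) ((n + 1) * (k + 2)) (E := 1) wn
    (fun i => (range (i % (k + 2))).image c) (fun i => c (i % (k + 2))) one_pos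
    (fun i hi => by
      rw [hwn]
      exact hv0 _ (hdiv i hi))
  obtain ⟨J₂, hJ₂⟩ := exists_nat_ge ((n : ℝ) / φ)
  obtain ⟨J₃, hJ₃⟩ := exists_nat_ge ((Cl : ℝ) / y)
  refine Bas.mono (max J₂ J₃) hcf ?_
  rintro J hJ F A h2 κ z g₀ Gc H W hz
  have hJ0 : (0 : ℝ) ≤ J := Nat.cast_nonneg J
  have hJn : (n : ℝ) ≤ φ * J := by
    have h3 : (J₂ : ℝ) ≤ J := by exact_mod_cast (le_max_left _ _).trans hJ
    have h4 := hJ₂.trans h3
    rw [div_le_iff₀ hφ] at h4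
    linarith
  have hJy : (Cl : ℝ) ≤ y * J := by
    have h3 : (J₃ : ℝ) ≤ J := by exact_mod_cast (le_max_right _ _).trans hJ
    have h4 := hJ₃.trans h3
    rw [div_le_iff₀ hy0] at h4
    linarith
  have hSl := sln_of L hl hw hJn hz
  rw [← hy] at hSl
  have hinj : Set.InjOn c (Set.Iio (k + 2)) := L.inj
  have hdd : D ≤ D * D + D := Nat.le_add_left _ _
  have hex : ∀ i : ℕ, ∃ (V : Type) (z₁ : PtT F → V) (z₂ : LnT F → V)
      (g : V → MvPolynomial (Option (Fin m)) ℝ) (P : ℕ), i < (n + 1) * (k + 2) →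
      LbP F ((range (i % (k + 2))).image c) (c (i % (k + 2))) (D * D + D) J ⌊wn i * J⌋₊ P A z₁ z₂ g ∧
      ∀ s, g (z₂ s) = if i % (k + 2) ≤ k then H (f (i / (k + 2))) s (i % (k + 2)) else
        slH c H k (f 0) (f (i / (k + 2))) ⌊ow (f 0) * J⌋₊ ⌊ow (f (i / (k + 2))) * J⌋₊ s := by
    intro i
    by_cases hi : i < (n + 1) * (k + 2)
    swap
    · exact ⟨Unit, fun _ => (), fun _ => (), fun _ => 0, 0, fun h => absurd h hi⟩
    obtain ⟨t, ht⟩ : ∃ t, t = i / (k + 2) := ⟨_, rfl⟩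
    have htn : t ≤ n := by rw [ht]; exact hdiv i hi
    have hmod : i % (k + 2) < k + 2 := Nat.mod_lt _ (by omega)
    have hwi : wn i = ow (f t) := by rw [hwn, ht]
    rw [hwi, ← ht]
    by_cases h : i % (k + 2) ≤ k
    · refine ⟨_, _, _, _, g₀ (f t) (i % (k + 2)), fun _ => ⟨(lb_of (W.ev _ (hw.fN t htn)).ball
        (fun ω hω l hl => (W.ev _ (hw.fN t htn)).cls ω hω l hl) (show i % (k + 2) < k + 1 + 1 by
          omega) le_rfl).mono (Finset.Subset.refl _) hdd le_rfl, fun s => ?_⟩⟩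
      rw [if_pos h]
    · have hk : i % (k + 2) = k + 1 := by omega
      rw [hk]
      have hfl : ⌊ow (f t) * (J : ℝ)⌋₊ ≤ J := floor_le (hv0 t htn).2.le J
      obtain ⟨z₁, z₂, h3, -, h4⟩ := hslab W hinj hSl t htn hfl 0 (by
        obtain ⟨-, -, h5, -⟩ := W.g_num (hw.fN t htn) (le_refl (k + 1))
        rw [hw.lv t htn (k + 1) le_rfl] at h5
        have h6 := L.st (k + 1) (Nat.le_succ k) le_rfl _ L.bG _ (hw.oG t htn) le_rfl
          (hw.bo htn) (hw.oo t htn)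
        have h7 := hw.bo htn
        have hηm0 : 0 ≤ ηm := (W.hη _ (hw.fN t htn)).1.trans (W.hη _ (hw.fN t htn)).2
        have hηφ : ηm ≤ φ := (le_mul_of_one_le_left hηm0 W.C1).trans hw.C0
        have h8 : ηm * J ≤ φ * J := mul_le_mul_of_nonneg_right hηφ hJ0
        have h9 : (sn (k + 1) b - φ) * J ≤ sn (k + 1) (ow (f t)) * J :=
          mul_le_mul_of_nonneg_right (by linarith) hJ0
        have h10 : ((Cl + 2 : ℕ) : ℝ) * y * J ≤ sn (k + 1) b * J :=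
          mul_le_mul_of_nonneg_right hlev hJ0
        have h11 : 2 * φ * J ≤ y * J := mul_le_mul_of_nonneg_right (by linarith) hJ0
        push_cast at h10 ⊢
        linarith)
      refine ⟨_, z₁, z₂, _, 0, fun _ => ⟨h3, fun s => ?_⟩⟩
      rw [if_neg (by omega)]
      exact h4 s
  choose V z₁ z₂ g P hP using hex
  obtain ⟨B, b1, b2, b3⟩ := h2 P V z₁ z₂ g fun i hi => (hP i hi).1
  have key : ∀ t ≤ n, ∀ l < k + 2, CfB F ⌊ow (f t) * J⌋₊ 1 (c l) B (fun s => s)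
      (fun s => if l ≤ k then H (f t) s l else
        slH c H k (f 0) (f t) ⌊ow (f 0) * J⌋₊ ⌊ow (f t) * J⌋₊ s) := by
    intro t ht l hl
    have hi : t * (k + 2) + l < (n + 1) * (k + 2) := by
      calc t * (k + 2) + l < t * (k + 2) + (k + 2) := by omega
        _ = (t + 1) * (k + 2) := by ring
        _ ≤ (n + 1) * (k + 2) := Nat.mul_le_mul_right _ (by omega)
    have e1 : (t * (k + 2) + l) % (k + 2) = l := by
      rw [Nat.mul_comm, Nat.mul_add_mod, Nat.mod_eq_of_lt hl]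
    have e2 : (t * (k + 2) + l) / (k + 2) = t := by
      rw [Nat.mul_comm, Nat.mul_add_div (by omega), Nat.div_eq_of_lt hl, Nat.add_zero]
    have h3 := b3 _ hi
    have h4 := (hP _ hi).2
    rw [hwn] at h3
    simp only [e1, e2] at h3 h4
    intro ω hω j
    have h5 := h3 ω hω j
    have e3 : (fun s (_ : Fin m) => g (t * (k + 2) + l) (z₂ (t * (k + 2) + l) s)) =
        fun s (_ : Fin m) => if l ≤ k then H (f t) s l else
          slH c H k (f 0) (f t) ⌊ow (f 0) * J⌋₊ ⌊ow (f t) * J⌋₊ s := by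
      funext s _
      exact h4 s
    rw [e3] at h5
    exact h5
  have b2' : 1 / 2 * Pe F.p A ≤ Pe F.p B := by linarith
  refine ⟨B, b1, b2', fun κ₂ hκ0 hκ => ⟨winB_sub W b1 b2' hκ0 hκ, hz, fun t ht l hll => ?_,
    fun t ht => ?_⟩⟩
  · have h3 := key t ht l (by omega)
    simp only [if_pos hll] at h3
    exact h3
  · have h3 := key t ht (k + 1) (by omega)
    simp only [if_neg (by omega : ¬ (k + 1 ≤ k))] at h3
    exact h3

end Pool.VA48
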