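import Pool.Agent.H48.VA.Fe

/-!
# The jets known near on one event

`near_up`: a window of the chain just below a number. `nde_ev`: the own jets of both targets over the
labels of `w`, all orders but one alive order of each, given the near jets of the slope-one places.
-/

set_option autoImplicit false

namespace Pool.VA48

open Finset Real MvPolynomial
open Pool.Agent.H49.Ent Pool.Agent.H32.Dense
open Pool.STK hiding pr2
open Pool.KA Pool.KSAT Pool.K2S Pool.PB Pool.S6C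
open Pool.GEN Pool.CHT Pool.CHX Pool.ISO Pool.LA91 Pool.AVG71 Pool.AVG5 Pool.D2F2
open Pool.RCD Pool.AVG96 Pool.OWN68 Pool.V0F Pool.V0Q Pool.V0T Pool.XR71 Pool.T4C72
open Pool.AVG57 (upw upw_slam jet2)
open Pool.AJW (CfB)
open Pool.D2R (WinB)
open Pool.GRD (LbP)
open Pool.VA83
open Pool.NVT16
open Pool.TW44 (ChW ChE LV lv_of)
open Pool.T462 (GNs HNs)
open Pool.NA98 (NEv FdE NdE nrJ tj dgA)

/-- **A window just below** `q`. -/
theorem near_up {k : ℕ} {sn : ℕ → ℝ → ℝ} {G : Set ℝ} {b o φ : ℝ} {N : ℕ} {C₀ ηm : ℝ}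
    {ow : ℕ → ℝ} {lv : ℕ → ℕ → ℝ} {f : ℕ → ℕ} {n : ℕ} (hw : ChW k sn G b o φ N C₀ ηm ow lv f n)
    (hφ : 0 ≤ φ) {nb : ℕ} (hnb : nb ≤ n) {w u q : ℝ} (hwd : w = ow (f nb))
    (hx : |ow (f n) - (w + u)| ≤ φ) (h1 : w ≤ q) (h2 : q ≤ w + u) :
    ∃ t, nb ≤ t ∧ t ≤ n ∧ ow (f t) ≤ q ∧ q ≤ ow (f t) + 2 * φ := by
  have hx' := abs_le.1 hx
  have hwx : w ≤ ow (f n) := by rw [hwd]; exact hw.mo n le_rfl nb hnb
  have hbw : b ≤ w := by rw [hwd]; exact hw.bo hnb
  have hq : w ≤ min q (ow (f n)) := le_min h1 hwx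
  obtain ⟨t, ht, e1, e2⟩ := hw.near hφ (x := min q (ow (f n))) (hbw.trans hq) n le_rfl
    (min_le_right _ _)
  have e3 : q ≤ min q (ow (f n)) + φ := by
    rcases min_choice q (ow (f n)) with h | h
    · rw [h]
      linarith
    · rw [h]
      linarith [hx'.1]
  rcases Nat.le_total nb t with h | h
  · exact ⟨t, h, ht, e1.trans (min_le_left _ _), by linarith⟩
  · refine ⟨nb, le_rfl, hnb, by rw [← hwd]; exact h1, ?_⟩
    have e4 : ow (f t) ≤ w := by rw [hwd]; exact hw.mo nb hnb t h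
    rw [← hwd]
    linarith

/-- **The jets known near**: the place `k`. -/
theorem nde_u (m D k i : ℕ) {S : PCl m} {c : ℕ → Fin m}
    {sn : ℕ → ℝ → ℝ} {G : Set ℝ} {b o φ al be : ℝ} {Dr N M : ℕ} {C₀ a Eb ηm : ℝ}
    {ow η σ : ℕ → ℝ} {lv bb : ℕ → ℕ → ℝ} {f : ℕ → ℕ} {n nb : ℕ} (L : LadV S c k 1 sn G b o φ)
    (hl : Lnv k sn G b o φ al (two k al be)) (hw : ChW k sn G b o φ N C₀ ηm ow lv f n)
    (hnb : nb ≤ n) {w u R μ r₀ ε : ℝ} (hwd : w = ow (f nb)) (hx : |ow (f n) - (w + u)| ≤ φ)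
    (hu : 0 < u) (hal : 1 < al) (hε : 0 < ε) (hφu : 30 * φ ≤ u)
    (hR : u + (20 * k + 130) * φ ≤ R) (hμ0 : 0 < μ) (hμ : ∀ j : ℕ, al < j → μ ≤ j - al)
    (hr : 2 ≤ μ * (r₀ - 1)) (hr1 : 1 ≤ r₀) (hRb : R + r₀ * u + u ≤ w - b)
    (hR1 : R ≤ 1 - w - 2 * u) :
    Bas S (fun J F A => ∀ {κ : ℝ} {z : ℕ → ℕ → ℕ} {g₀ : ℕ → ℕ → ℕ}
      {Gc : ℕ → PtT F → ℕ → MvPolynomial (Option (Fin m)) ℝ}
      {H : ℕ → LnT F → ℕ → MvPolynomial (Option (Fin m)) ℝ},
      ChE F c k D Dr N M C₀ a Eb ηm ow η σ lv bb f n κ z A g₀ Gc H →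
      ∀ Hj : LnT F → ℕ → MvPolynomial (Option (Fin m)) ℝ,
      (∀ ω, ∀ l < k, Hj (slam F ⌊w * J⌋₊ ω) l = H (f 0) (slam F ⌊b * J⌋₊ ω) l) →
      CH (Pool.Agent.H49.Ent.cond F.p A True)
        (fun ω => ⌊(2 : ℝ) ^ ((sn k w + dgA k al be k i * u - i * w) * J) *
          ojet F (c k) i (H (f nb) (slam F ⌊w * J⌋₊ ω) k) ω⌋)
        (fun ω => (jet2 F c ⌊w * J⌋₊ Hj 0 k (nF sn w R) ω, (cR F A (ow (f n)) ω, F.W ω))) ≤
        (2 * ((al + 3) * φ) + ε) * J) := by
  have hφ := L.φ0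
  have hslk : two k al be k = al := if_pos rfl
  have hkφ : 0 ≤ 20 * (k : ℝ) * φ := by positivity
  have halφ : 0 ≤ al * φ := by positivity
  have hruu : u ≤ r₀ * u := le_mul_of_one_le_left hu.le hr1
  have hx' := abs_le.1 hx
  have hwx : w ≤ ow (f n) := by rw [hwd]; exact hw.mo n le_rfl nb hnb
  have hwG : w ∈ G := by rw [hwd]; exact hw.oG nb hnb
  have hno : ow (f n) ≤ o := hw.oo n le_rfl
  have hn1 : ow (f n) ≤ 1 := hno.trans L.o1.le
  have e0 : dgA k al be k i = if al - 1 < i ∧ (i : ℝ) ≤ al then 0 else 1 := if_pos rfl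
  rcases lt_or_ge al (i : ℝ) with h1 | h1
  · -- the orders above the slope
    have e1 : dgA k al be k i = 1 := by rw [e0, if_neg fun h => absurd h.2 (not_le.2 h1)]
    rw [e1]
    have g1 := u_hi L hl hslk D i (Dr := Dr) (M := M) (a := a) (Eb := Eb) (η := η) (σ := σ)
      (bb := bb) hw hnb (w' := w) (ox := ow (f n)) (Cd := 1 * u) (R := R) (R₀ := r₀ * u) (ε := ε)
      (by rw [← hwd]; exact hwx) hn1 h1 (by linarith) (by
        have b1 := hμ i h1
        have b2 : μ * (r₀ * u - φ) ≤ (i - al) * (r₀ * u - φ) :=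
          mul_le_mul_of_nonneg_right b1 (by linarith)
        have b3 : μ * (r₀ * u - u) ≤ μ * (r₀ * u - φ) :=
          mul_le_mul_of_nonneg_left (by linarith) hμ0.le
        have b4 : 2 * u ≤ μ * (r₀ - 1) * u := mul_le_mul_of_nonneg_right hr hu.le
        have b5 : μ * (r₀ * u - u) = μ * (r₀ - 1) * u := by ring
        linarith) (by linarith) (by linarith) (by rw [← hwd]; linarith) (by rw [← hwd]; linarith) hε
    rw [← hwd] at g1
    refine Bas.mono 0 g1 ?_
    rintro J - F A h κ z g₀ Gc H hE Hj hHj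
    exact (h hE Hj hHj).trans (mul_le_mul_of_nonneg_right (by linarith) (Nat.cast_nonneg J))
  rcases lt_or_ge (al - 1) (i : ℝ) with h2 | h2
  · -- the alive order
    have e1 : dgA k al be k i = 0 := by rw [e0, if_pos ⟨h2, h1⟩]
    rw [e1]
    have g1 := u_lo L hl hslk D i (Dr := Dr) (M := M) (a := a) (Eb := Eb) (η := η) (σ := σ)
      (bb := bb) hw hnb (w' := w) (x₀ := w) (ox := ow (f n)) (Cd := 0 * u) (γ := 0) (R := R)
      (ε := ε) hwG (by rw [← hwd]) (hwx.trans hno) hwx hn1 le_rfl (by rw [← hwd]; linarith)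
      (fun v a1 a2 => by
        rw [← hwd] at a1 ⊢
        have a3 : v = w := le_antisymm a2 a1
        rw [a3]
        linarith) (by rw [← hwd]; linarith) (by rw [← hwd]; linarith) (by linarith) hε
    rw [← hwd] at g1
    refine Bas.mono 0 g1 ?_
    rintro J - F A h κ z g₀ Gc H hE Hj hHj
    exact (h hE Hj hHj).trans (mul_le_mul_of_nonneg_right (by linarith) (Nat.cast_nonneg J))
  · -- the orders below
    have e1 : dgA k al be k i = 1 := by rw [e0, if_neg fun h => absurd h.1 (not_lt.2 h2)]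
    rw [e1]
    have h3 : 1 ≤ al - i := by linarith
    have h4 : 0 < al - i := by linarith
    have h5 : u / (al - i) ≤ u := div_le_self hu.le h3
    have h6 : 0 ≤ u / (al - i) := by positivity
    obtain ⟨t, ht1, ht2, ht3, ht4⟩ := near_up hw hφ.le hnb (q := w + u / (al - i)) hwd hx
      (by linarith) (by linarith)
    have hwt : w ≤ ow (f t) := by rw [hwd]; exact hw.mo t ht2 nb ht1
    have h7 : (al - i) * (u / (al - i)) = u := by field_simp
    have h8 : (al - i) * (w + u / (al - i) - w) ≤ (al - i) * (ow (f t) + 2 * φ - w) :=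
      mul_le_mul_of_nonneg_left (by linarith) h4.le
    have h9 : (al - i) * φ ≤ al * φ := mul_le_mul_of_nonneg_right
      (by linarith [(Nat.cast_nonneg i : (0 : ℝ) ≤ i)]) hφ.le
    have h10 : (al - i) * (w + u / (al - i) - w) = (al - i) * (u / (al - i)) := by ring
    have h11 : (al - i) * (ow (f t) + 2 * φ - w) = (al - i) * (ow (f t) - w) +
      2 * ((al - i) * φ) := by ring
    have g1 := u_lo L hl hslk D i (Dr := Dr) (M := M) (a := a) (Eb := Eb) (η := η) (σ := σ)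
      (bb := bb) hw hnb (w' := w) (x₀ := ow (f t)) (ox := ow (f n)) (Cd := 1 * u)
      (γ := 2 * (al * φ)) (R := R) (ε := ε) (hw.oG t ht2) (by rw [← hwd]; exact hwt)
      (hw.oo t ht2) (hw.mo n le_rfl t ht2) hn1 (by linarith) (by rw [← hwd]; linarith)
      (fun v a1 a2 => by
        rw [← hwd] at a1 ⊢
        have a3 : 1 * (v - w) ≤ (al - i) * (v - w) := mul_le_mul_of_nonneg_right h3 (by linarith)
        linarith) (by rw [← hwd]; linarith) (by rw [← hwd]; linarith) (by linarith) hε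
    rw [← hwd] at g1
    refine Bas.mono 0 g1 ?_
    rintro J - F A h κ z g₀ Gc H hE Hj hHj
    refine (h hE Hj hHj).trans (mul_le_mul_of_nonneg_right ?_ (Nat.cast_nonneg J))
    have h12 : (al + 3) * φ = al * φ + 3 * φ := by ring
    linarith

/-- **The jets known near**: the last place. -/
theorem nde_n (m D k i : ℕ) : ∃ C : ℕ, 1 ≤ C ∧ ∀ {S : PCl m} {c : ℕ → Fin m}
    {sn : ℕ → ℝ → ℝ} {G : Set ℝ} {b o φ al be : ℝ} {Dr N M : ℕ} {C₀ a Eb ηm : ℝ}
    {ow η σ : ℕ → ℝ} {lv bb : ℕ → ℕ → ℝ} {f : ℕ → ℕ} {n nb : ℕ}, LadV S c k 1 sn G b o φ →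
    Lnv k sn G b o φ al (two k al be) → ChW k sn G b o φ N C₀ ηm ow lv f n →
    nb ≤ n → ∀ {w u R μ r₀ ε : ℝ}, w = ow (f nb) → |ow (f n) - (w + u)| ≤ φ →
    0 < u → 1 ≤ be → be < al → 0 < ε → C * ((al + 3) * φ) ≤ sn (k + 1) b →
    C * ((al + 3) * φ) ≤ u → u + C * ((al + 3) * φ) ≤ R →
    0 < μ → (∀ j : ℕ, be < j → μ ≤ j - be) → 2 ≤ μ * r₀ → 1 ≤ r₀ →
    R + r₀ * u + u ≤ w - b → R ≤ 1 - w - 2 * u →
    Bas S (fun J F A => ∀ {κ : ℝ} {z : ℕ → ℕ → ℕ} {g₀ : ℕ → ℕ → ℕ}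
      {Gc : ℕ → PtT F → ℕ → MvPolynomial (Option (Fin m)) ℝ}
      {H : ℕ → LnT F → ℕ → MvPolynomial (Option (Fin m)) ℝ},
      ChE F c k D Dr N M C₀ a Eb ηm ow η σ lv bb f n κ z A g₀ Gc H →
      ∀ Hj : LnT F → ℕ → MvPolynomial (Option (Fin m)) ℝ,
      (∀ ω, ∀ l < k, Hj (slam F ⌊w * J⌋₊ ω) l = H (f 0) (slam F ⌊b * J⌋₊ ω) l) →
      CH (Pool.Agent.H49.Ent.cond F.p A True)
        (fun ω => ⌊(2 : ℝ) ^ ((sn (k + 1) w + dgA k al be (k + 1) i * u - i * w) * J) *
          ojet F (c (k + 1)) i (slG c Gc k (f 0) (f nb) (ptr F J ω)) ω⌋)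
        (fun ω => (jet2 F c ⌊w * J⌋₊ Hj 0 k (nF sn w R) ω, (cR F A (ow (f n)) ω, F.W ω))) ≤
        (C * ((al + 3) * φ) + ε) * J) := by
  obtain ⟨C₁, hC₁, hlo⟩ := n_lo m D k i
  obtain ⟨C₂, hC₂, hhi⟩ := n_hi m D k i
  refine ⟨C₁ + C₂ + 10, by omega, ?_⟩
  intro S c sn G b o φ al be Dr N M C₀ a Eb ηm ow η σ lv bb f n nb L hl hw hnb w u R μ r₀ ε hwd hx
    hu hbe hba hε hlev hyu hR hμ0 hμ hr hr1 hRb hR1
  have hφ := L.φ0
  have hal0 : 0 < al := by linarith
  obtain ⟨y, hy⟩ : ∃ y : ℝ, y = (al + 3) * φ := ⟨_, rfl⟩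
  have halφ : 0 ≤ al * φ := by positivity
  have hy3 : y = al * φ + 3 * φ := by rw [hy]; ring
  have hy0 : 0 < y := by linarith
  have hCy : ((C₁ + C₂ + 10 : ℕ) : ℝ) * y = C₁ * y + C₂ * y + 10 * y := by
    push_cast
    ring
  rw [← hy, hCy] at hlev hyu hR
  have hC1y : 0 ≤ (C₁ : ℝ) * y := by positivity
  have hC2y : 0 ≤ (C₂ : ℝ) * y := by positivity
  have hsln : two k al be (k + 1) = be := if_neg (by omega)
  have hruu : u ≤ r₀ * u := le_mul_of_one_le_left hu.le hr1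
  have hwx : w ≤ ow (f n) := by rw [hwd]; exact hw.mo n le_rfl nb hnb
  have hno : ow (f n) ≤ o := hw.oo n le_rfl
  have hn1 : ow (f n) ≤ 1 := hno.trans L.o1.le
  have hba0 : 0 < be / al := by positivity
  have hba1 : be / al ≤ 1 := by
    rw [div_le_one hal0]
    exact hba.le
  have hbau : be / al * u ≤ u := mul_le_of_le_one_left hu.le hba1
  have hbau0 : 0 < be / al * u := by positivity
  have e0 : dgA k al be (k + 1) i =
      if be - be / al < i ∧ (i : ℝ) ≤ be then 0 else be / al := by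
    unfold dgA
    rw [if_neg (by omega)]
  rcases lt_or_ge be (i : ℝ) with h1 | h1
  · -- the orders above the slope
    have e1 : dgA k al be (k + 1) i = be / al := by
      rw [e0, if_neg fun h => absurd h.2 (not_le.2 h1)]
    rw [e1]
    have g1 := hhi (Dr := Dr) (M := M) (a := a) (Eb := Eb) (η := η) (σ := σ)
      (bb := bb) L hl (hw.take hnb) (by rw [← hy]; linarith) (w' := w) (ox := ow (f n))
      (d := be / al * u) (R := R) (R₀ := r₀ * u) (ε := ε)
      (by rw [← hwd]; exact hwx) hn1 (by rw [hsln]; exact h1.le) hbau0.le (by linarith) (by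
        rw [← hy, hsln]
        have b1 : μ * (r₀ * u) ≤ (i - be) * (r₀ * u) :=
          mul_le_mul_of_nonneg_right (hμ i h1) (by linarith)
        have b4 : 2 * u ≤ μ * r₀ * u := mul_le_mul_of_nonneg_right hr hu.le
        linarith) (by rw [← hy]; linarith) (by rw [← hwd]; linarith) (by rw [← hwd]; linarith) hε
    rw [← hwd] at g1
    refine Bas.mono 0 g1 ?_
    rintro J - F A h κ z g₀ Gc H hE Hj hHj
    refine (h (hE.take hnb) Hj hHj).trans (mul_le_mul_of_nonneg_right ?_ (Nat.cast_nonneg J))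
    rw [← hy, hCy]
    linarith
  rcases lt_or_ge (be - be / al) (i : ℝ) with h2 | h2
  · -- the alive order
    have e1 : dgA k al be (k + 1) i = 0 := by rw [e0, if_pos ⟨h2, h1⟩]
    rw [e1]
    have g1 := hlo (Dr := Dr) (M := M) (a := a) (Eb := Eb) (η := η) (σ := σ)
      (bb := bb) L hl (hw.take hnb) (by rw [← hy]; linarith) (t₁ := nb) (w' := w) (ox := ow (f n))
      (d := 0 * u) (γ := 0) (R := R) (ε := ε) le_rfl
      (by rw [← hwd]; exact hwx) hn1 (by rw [hsln]; exact h1) le_rfl (by linarith) (by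
        rw [← hy, sub_self, mul_zero]
        linarith) (by rw [← hwd]; linarith) (by rw [← hwd]; linarith) hε
    rw [← hwd] at g1
    refine Bas.mono 0 g1 ?_
    rintro J - F A h κ z g₀ Gc H hE Hj hHj
    refine (h (hE.take hnb) Hj hHj).trans (mul_le_mul_of_nonneg_right ?_ (Nat.cast_nonneg J))
    rw [← hy, hCy]
    linarith
  · -- the orders below
    have e1 : dgA k al be (k + 1) i = be / al := by
      rw [e0, if_neg fun h => absurd h.1 (not_lt.2 h2)]
    rw [e1]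
    have h3 : be / al ≤ be - i := by linarith
    have h4 : 0 < be - i := by linarith
    obtain ⟨q, hq⟩ : ∃ q : ℝ, q = be / al * u / (be - i) := ⟨_, rfl⟩
    have h5 : q ≤ u := by
      rw [hq, div_le_iff₀ h4, mul_comm u]
      exact mul_le_mul_of_nonneg_right h3 hu.le
    have h6 : 0 ≤ q := by rw [hq]; positivity
    have h7 : (be - i) * q = be / al * u := by rw [hq]; field_simp
    obtain ⟨t, ht1, ht2, ht3, ht4⟩ := near_up hw hφ.le hnb (q := w + q) hwd hx
      (by linarith) (by linarith)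
    have hwt : w ≤ ow (f t) := by rw [hwd]; exact hw.mo t ht2 nb ht1
    have h8 : (be - i) * q ≤ (be - i) * (ow (f t) + 2 * φ - w) :=
      mul_le_mul_of_nonneg_left (by linarith) h4.le
    have h9 : (be - i) * φ ≤ al * φ := mul_le_mul_of_nonneg_right
      (by linarith [(Nat.cast_nonneg i : (0 : ℝ) ≤ i)]) hφ.le
    have h11 : (be - i) * (ow (f t) + 2 * φ - w) = (be - i) * (ow (f t) - w) +
      2 * ((be - i) * φ) := by ring
    have h12 : max 1 (be - i) * (ow (f t) - w) ≤ u := by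
      rcases max_choice 1 (be - (i : ℝ)) with h | h
      · rw [h]
        linarith
      · rw [h]
        have : (be - i) * (ow (f t) - w) ≤ (be - i) * q :=
          mul_le_mul_of_nonneg_left (by linarith) h4.le
        linarith
    have g1 := hlo (Dr := Dr) (M := M) (a := a) (Eb := Eb) (η := η) (σ := σ)
      (bb := bb) L hl (hw.take ht2) (by rw [← hy]; linarith) (t₁ := nb) (w' := w)
      (ox := ow (f n))
      (d := be / al * u) (γ := 2 * (al * φ)) (R := R) (ε := ε) ht1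
      (hw.mo n le_rfl t ht2) hn1 (by rw [hsln]; exact h1) (by linarith)
      (by rw [← hwd, hsln]; linarith) (by
        rw [← hy, ← hwd, hsln]
        linarith) (by rw [← hwd]; linarith) (by linarith) hε
    rw [← hwd] at g1
    refine Bas.mono 0 g1 ?_
    rintro J - F A h κ z g₀ Gc H hE Hj hHj
    refine (h (hE.take ht2) Hj hHj).trans (mul_le_mul_of_nonneg_right ?_ (Nat.cast_nonneg J))
    rw [← hy, hCy]
    linarith

end Pool.VA48
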