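import Pool.Agent.H48.VA.Far

/-!
# Near digits on one event

`n_lo`: the orders below the slope of the last place, from a later record. `n_hi`: the orders above
the slope, from an early window. `u_zero`: the order zero of the steep place, from a later record.
-/

set_option autoImplicit false

namespace Pool.VA48

open Finset Real MvPolynomial
open Pool.Agent.H49.Ent Pool.Agent.H32.Dense
open Pool.STK hiding pr2
open Pool.KA Pool.KSAT Pool.K2S Pool.PB Pool.S6C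
open Pool.GEN Pool.CHT Pool.CHX Pool.ISO Pool.LA91 Pool.AVG71 Pool.AVG5 Pool.D2F2 Pool.AVG57
open Pool.RCD Pool.AVG96 Pool.OWN68 Pool.V0F Pool.V0Q Pool.V0T Pool.XR71 Pool.T4C72
open Pool.AJW (CfB)
open Pool.D2R (WinB)
open Pool.VA83
open Pool.NVT16
open Pool.TW44 (ChW ChE)

/-- **The orders below the slope** of the last place over its slab label of the window `ow (f t₁)`,
natural at the later window `ow (f n)`. `γ`: the missing digits. -/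
theorem n_lo (m D k i : ℕ) : ∃ C : ℕ, 1 ≤ C ∧ ∀ {S : PCl m} {c : ℕ → Fin m}
    {sn : ℕ → ℝ → ℝ} {G : Set ℝ} {b o φ al : ℝ} {sl : ℕ → ℝ} {Dr N M : ℕ} {C₀ a Eb ηm : ℝ}
    {ow η σ : ℕ → ℝ} {lv bb : ℕ → ℕ → ℝ} {f : ℕ → ℕ} {n : ℕ}, LadV S c k 1 sn G b o φ →
    Lnv k sn G b o φ al sl → ChW k sn G b o φ N C₀ ηm ow lv f n →
    C * ((al + 3) * φ) ≤ sn (k + 1) b → ∀ {t₁ : ℕ} {w' ox d γ R ε : ℝ}, t₁ ≤ n →
    ow (f n) ≤ ox → ox ≤ 1 → (i : ℝ) ≤ sl (k + 1) → 0 ≤ γ →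
    d ≤ (sl (k + 1) - i) * (ow (f n) - ow (f t₁)) + γ →
    max 1 (sl (k + 1) - i) * (ow (f n) - ow (f t₁)) + C * ((al + 3) * φ) ≤ R →
    R ≤ ow (f t₁) - b → R ≤ 1 - ow (f n) → 0 < ε →
    Bas S (fun J F A => ∀ {κ : ℝ} {z : ℕ → ℕ → ℕ} {g₀ : ℕ → ℕ → ℕ}
      {Gc : ℕ → PtT F → ℕ → MvPolynomial (Option (Fin m)) ℝ}
      {H : ℕ → LnT F → ℕ → MvPolynomial (Option (Fin m)) ℝ},
      ChE F c k D Dr N M C₀ a Eb ηm ow η σ lv bb f n κ z A g₀ Gc H →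
      ∀ Hj : LnT F → ℕ → MvPolynomial (Option (Fin m)) ℝ,
      (∀ ω, ∀ l < k, Hj (slam F ⌊w' * J⌋₊ ω) l = H (f 0) (slam F ⌊b * J⌋₊ ω) l) →
      CH (Pool.Agent.H49.Ent.cond F.p A True)
        (fun ω => ⌊(2 : ℝ) ^ ((sn (k + 1) (ow (f t₁)) + d - i * ow (f t₁)) * J) *
          ojet F (c (k + 1)) i (slG c Gc k (f 0) (f t₁) (ptr F J ω)) ω⌋)
        (fun ω => (jet2 F c ⌊w' * J⌋₊ Hj 0 k (nF sn (ow (f t₁)) R) ω, (cR F A ox ω, F.W ω))) ≤
        (γ + C * ((al + 3) * φ) + ε) * J) := by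
  obtain ⟨Cn, hCn, hnat⟩ := nat_ch D k i
  obtain ⟨Ce, hCe, hnj⟩ := nj_E m D k i
  refine ⟨Cn + Ce + 20 * k + 200, by omega, ?_⟩
  intro S c sn G b o φ al sl Dr N M C₀ a Eb ηm ow η σ lv bb f n L hl hw hlev t₁ w' ox d γ R ε ht₁
    hox hox1 hi hγ hd hR hRb hR1 hε
  have hal := hl.s0
  have hφ := L.φ0
  obtain ⟨y, hy⟩ : ∃ y : ℝ, y = (al + 3) * φ := ⟨_, rfl⟩
  have hsφ : 0 ≤ al * φ := mul_nonneg hal hφ.le
  have hy3 : y = al * φ + 3 * φ := by rw [hy]; ring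
  have hy0 : 0 < y := by linarith
  have hk0 : (0 : ℝ) ≤ k := Nat.cast_nonneg k
  obtain ⟨Cy, hCy⟩ : ∃ Cy : ℝ, Cy = ((Cn + Ce + 20 * k + 200 : ℕ) : ℝ) * y := ⟨_, rfl⟩
  have hCy1 : Cy = Cn * y + Ce * y + (20 * k + 200) * y := by
    rw [hCy]
    push_cast
    ring
  have hCn0 : 0 ≤ (Cn : ℝ) * y := by positivity
  have hCe0 : 0 ≤ (Ce : ℝ) * y := by positivity
  have hky0 : 0 ≤ 20 * (k : ℝ) * y := by positivity
  rw [← hy, ← hCy] at hR hlev ⊢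
  obtain ⟨w, hwd⟩ : ∃ w, w = ow (f t₁) := ⟨_, rfl⟩
  obtain ⟨x, hxd⟩ : ∃ x, x = ow (f n) := ⟨_, rfl⟩
  rw [← hwd, ← hxd] at hd hR
  rw [← hwd] at hRb ⊢
  rw [← hxd] at hR1 hox
  have hwG : w ∈ G := by rw [hwd]; exact hw.oG t₁ ht₁
  have hxG : x ∈ G := by rw [hxd]; exact hw.oG n le_rfl
  have hbw : b ≤ w := by rw [hwd]; exact hw.bo ht₁
  have hwx : w ≤ x := by rw [hwd, hxd]; exact hw.mo n le_rfl t₁ ht₁
  have hxo : x ≤ o := by rw [hxd]; exact hw.oo n le_rfl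
  obtain ⟨μ, hμ⟩ : ∃ μ : ℝ, μ = max 1 (sl (k + 1) - i) := ⟨_, rfl⟩
  have hμ1 : 1 ≤ μ := by rw [hμ]; exact le_max_left _ _
  have hμs : sl (k + 1) - i ≤ μ := by rw [hμ]; exact le_max_right _ _
  rw [← hμ] at hR
  have hlb := fun v (hv : v ∈ G) v'' (hv'' : v'' ∈ G) (a1 : b ≤ v) (a2 : v ≤ o) (a3 : b ≤ v'')
    (a4 : v'' ≤ o) =>
    abs_le.1 (hl.li (k + 1) (Nat.le_succ k) le_rfl v hv v'' hv'' a1 a2 a3 a4)
  obtain ⟨ν, hν⟩ : ∃ ν, ν = sn (k + 1) w + d - i * w := ⟨_, rfl⟩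
  obtain ⟨ν', hν'⟩ : ∃ ν', ν' = min ν (sn (k + 1) w + (sl (k + 1) - i) * (x - w) - i * w -
    (Cn * y + 2 * y)) := ⟨_, rfl⟩
  have hν1 : ν' ≤ ν := by rw [hν']; exact min_le_left _ _
  have hν2 : ν' ≤ sn (k + 1) w + (sl (k + 1) - i) * (x - w) - i * w - (Cn * y + 2 * y) := by
    rw [hν']
    exact min_le_right _ _
  have hν3 : ν - ν' ≤ γ + (Cn * y + 2 * y) := by
    rw [hν', hν]
    rcases min_choice (sn (k + 1) w + d - i * w) (sn (k + 1) w + (sl (k + 1) - i) * (x - w) -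
      i * w - (Cn * y + 2 * y)) with h | h
    · rw [h]
      linarith
    · rw [h]
      linarith
  have g1 := hnat (Dr := Dr) (M := M) (a := a) (Eb := Eb) (η := η) (σ := σ) (bb := bb) L hl hw
    (by
      rw [← hy]
      linarith) (t := n) (ν := ν') (ε := ε / 4) le_rfl (by
      rw [← hy, ← hxd]
      have h3 := (hlb w hwG x hxG hbw (hwx.trans hxo) (hbw.trans hwx) hxo).1
      have e1 : (sl (k + 1) - i) * (x - w) = sl (k + 1) * (x - w) - i * x + i * w := by ring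
      linarith) (by positivity)
  have hνv : ∀ v ∈ G, w ≤ v → v ≤ x → ν' + i * v ≤
      sn (k + 1) v + ((sl (k + 1) - i) * (x - v) + 2 * φ) := fun v hv a1 a2 => by
    have h3 := (hlb w hwG v hv hbw (hwx.trans hxo) (hbw.trans a1) (a2.trans hxo)).1
    have e1 : (sl (k + 1) - i) * (x - w) =
      sl (k + 1) * (v - w) + (sl (k + 1) - i) * (x - v) - i * v + i * w := by ring
    linarith
  have g2 := hnj (Dr := Dr) (M := M) (a := a) (Eb := Eb) (η := η) (σ := σ) (bb := bb)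
    (w' := w') (ox := ox) (ν := ν') (Nf := nF sn w R) (ε := ε / 4)
    (X := fun t => (sl (k + 1) - i) * (x - ow (f t)) + 2 * φ) L hl hw
    (t₁ := t₁) ht₁ (by rw [← hxd]; exact hox) hox1 (fun t a1 a2 => by
      have b1 : w ≤ ow (f t) := by rw [hwd]; exact hw.mo t a2 t₁ a1
      have b2 : ow (f t) ≤ x := by rw [hxd]; exact hw.mo n le_rfl t a2
      have b3 : 0 ≤ (sl (k + 1) - i) * (x - ow (f t)) := mul_nonneg (by linarith) (by linarith)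
      have b4 : (sl (k + 1) - i) * (x - ow (f t)) ≤ μ * (x - ow (f t)) :=
        mul_le_mul_of_nonneg_right hμs (by linarith)
      have b5 : 1 * (ow (f t) - w) ≤ μ * (ow (f t) - w) :=
        mul_le_mul_of_nonneg_right hμ1 (by linarith)
      have b6 : μ * (x - w) = μ * (x - ow (f t)) + μ * (ow (f t) - w) := by ring
      have b7 : 0 ≤ μ * (x - ow (f t)) := mul_nonneg (by linarith) (by linarith)
      rw [← hy]
      refine ⟨by linarith, hνv _ (hw.oG t a2) b1 b2, by linarith, by linarith,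
        fun l hl' j hj => ?_⟩
      have h4 := abs_le.1 (flat_of L.toLadR hl' hwG (hw.oG t a2) hbw (hwx.trans hxo) (hw.bo a2)
        (hw.oo t a2))
      have h5 : (j : ℝ) * w ≤ j * ow (f t) := mul_le_mul_of_nonneg_left b1 (Nat.cast_nonneg j)
      unfold nF
      linarith [h4.2]) (by positivity)
  obtain ⟨J₁, hJ₁⟩ := exists_nat_ge (Real.log 5 / (ε / 2))
  refine Bas.mono J₁ ((g1.and g2).and (pos_bas L.pos)) ?_
  rintro J hJ F A ⟨⟨h1, h2⟩, hA⟩ κ z g₀ Gc H hE Hj hHj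
  have hJ0 : (0 : ℝ) ≤ J := Nat.cast_nonneg J
  have hJl : Real.log 5 ≤ ε / 2 * J := by
    have h3 : (J₁ : ℝ) ≤ J := by exact_mod_cast hJ
    have h4 := hJ₁.trans h3
    rw [div_le_iff₀ (by positivity)] at h4
    linarith
  have h3 := (h2 hE Hj hHj _).1 (h1 hE _)
  have h4 := Pool.TW44.ch_more (isLaw_cond F.isLaw hA)
    (fun ω => ojet F (c (k + 1)) i (slG c Gc k (f 0) (f t₁) (ptr F J ω)) ω)
    (fun ω => (jet2 F c ⌊w' * J⌋₊ Hj 0 k (nF sn w R) ω, (cR F A ox ω, F.W ω)))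
    (mul_le_mul_of_nonneg_right hν1 hJ0)
  rw [← hν]
  have h5 : (ν * J - ν' * J) * Real.log 2 ≤ (γ + (Cn * y + 2 * y)) * J := by
    have h6 : (ν * J - ν' * J) * Real.log 2 ≤ (ν * J - ν' * J) * 1 := by
      refine mul_le_mul_of_nonneg_left ?_ ?_
      · have := Real.log_two_lt_d9
        linarith
      · rw [← sub_mul]
        exact mul_nonneg (by linarith) hJ0
    have h7 : (ν - ν') * J ≤ (γ + (Cn * y + 2 * y)) * J := mul_le_mul_of_nonneg_right hν3 hJ0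
    linarith
  have h8 : (Cn * y + 2 * y) * J ≤ Cy * J := mul_le_mul_of_nonneg_right (by linarith) hJ0
  refine h4.trans ?_
  linarith

/-- **The orders above the slope** of the last place over its slab label of the window `ow (f n)`,
natural at an early window. -/
theorem n_hi (m D k i : ℕ) : ∃ C : ℕ, 1 ≤ C ∧ ∀ {S : PCl m} {c : ℕ → Fin m}
    {sn : ℕ → ℝ → ℝ} {G : Set ℝ} {b o φ al : ℝ} {sl : ℕ → ℝ} {Dr N M : ℕ} {C₀ a Eb ηm : ℝ}
    {ow η σ : ℕ → ℝ} {lv bb : ℕ → ℕ → ℝ} {f : ℕ → ℕ} {n : ℕ}, LadV S c k 1 sn G b o φ →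
    Lnv k sn G b o φ al sl → ChW k sn G b o φ N C₀ ηm ow lv f n →
    C * ((al + 3) * φ) ≤ sn (k + 1) b → ∀ {w' ox d R R₀ ε : ℝ},
    ow (f n) ≤ ox → ox ≤ 1 → sl (k + 1) ≤ i → 0 ≤ d → 0 ≤ R₀ →
    d + C * ((al + 3) * φ) ≤ (i - sl (k + 1)) * R₀ →
    d + C * ((al + 3) * φ) ≤ R → R + R₀ + φ ≤ ow (f n) - b → R ≤ 1 - ow (f n) → 0 < ε →
    Bas S (fun J F A => ∀ {κ : ℝ} {z : ℕ → ℕ → ℕ} {g₀ : ℕ → ℕ → ℕ}
      {Gc : ℕ → PtT F → ℕ → MvPolynomial (Option (Fin m)) ℝ}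
      {H : ℕ → LnT F → ℕ → MvPolynomial (Option (Fin m)) ℝ},
      ChE F c k D Dr N M C₀ a Eb ηm ow η σ lv bb f n κ z A g₀ Gc H →
      ∀ Hj : LnT F → ℕ → MvPolynomial (Option (Fin m)) ℝ,
      (∀ ω, ∀ l < k, Hj (slam F ⌊w' * J⌋₊ ω) l = H (f 0) (slam F ⌊b * J⌋₊ ω) l) →
      CH (Pool.Agent.H49.Ent.cond F.p A True)
        (fun ω => ⌊(2 : ℝ) ^ ((sn (k + 1) (ow (f n)) + d - i * ow (f n)) * J) *
          ojet F (c (k + 1)) i (slG c Gc k (f 0) (f n) (ptr F J ω)) ω⌋)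
        (fun ω => (jet2 F c ⌊w' * J⌋₊ Hj 0 k (nF sn (ow (f n)) R) ω, (cR F A ox ω, F.W ω))) ≤
        ε * J) := by
  obtain ⟨Cn, hCn, hnat⟩ := nat_ch D k i
  obtain ⟨Ce, hCe, hnj⟩ := nj_E m D k i
  refine ⟨Cn + Ce + 20 * k + 200, by omega, ?_⟩
  intro S c sn G b o φ al sl Dr N M C₀ a Eb ηm ow η σ lv bb f n L hl hw hlev w' ox d R R₀ ε
    hox hox1 hi hd hR₀ hdR hR hRb hR1 hε
  have hal := hl.s0
  have hφ := L.φ0
  obtain ⟨y, hy⟩ : ∃ y : ℝ, y = (al + 3) * φ := ⟨_, rfl⟩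
  have hsφ : 0 ≤ al * φ := mul_nonneg hal hφ.le
  have hy3 : y = al * φ + 3 * φ := by rw [hy]; ring
  have hy0 : 0 < y := by linarith
  have hk0 : (0 : ℝ) ≤ k := Nat.cast_nonneg k
  obtain ⟨Cy, hCy⟩ : ∃ Cy : ℝ, Cy = ((Cn + Ce + 20 * k + 200 : ℕ) : ℝ) * y := ⟨_, rfl⟩
  have hCy1 : Cy = Cn * y + Ce * y + (20 * k + 200) * y := by
    rw [hCy]
    push_cast
    ring
  have hCn0 : 0 ≤ (Cn : ℝ) * y := by positivity
  have hCe0 : 0 ≤ (Ce : ℝ) * y := by positivity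
  have hky0 : 0 ≤ 20 * (k : ℝ) * y := by positivity
  rw [← hy, ← hCy] at hR hlev hdR
  obtain ⟨w, hwd⟩ : ∃ w, w = ow (f n) := ⟨_, rfl⟩
  rw [← hwd] at hRb hR1 hox
  rw [← hwd]
  have hwG : w ∈ G := by rw [hwd]; exact hw.oG n le_rfl
  have hbw : b ≤ w := by rw [hwd]; exact hw.bo le_rfl
  have hwo : w ≤ o := by rw [hwd]; exact hw.oo n le_rfl
  have hR0 : 0 ≤ R := by linarith
  obtain ⟨t₁, ht₁, e1, e2⟩ := hw.near hφ.le (x := w - R₀) (by linarith) n le_rfl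
    (by rw [← hwd]; linarith)
  have hlb := fun v (hv : v ∈ G) (a1 : b ≤ v) (a2 : v ≤ w) =>
    abs_le.1 (hl.li (k + 1) (Nat.le_succ k) le_rfl v hv w hwG a1 (a2.trans hwo) hbw hwo)
  obtain ⟨ν, hν⟩ : ∃ ν, ν = sn (k + 1) w + d - i * w := ⟨_, rfl⟩
  have hνv : ∀ v ∈ G, b ≤ v → v ≤ w → ν + i * v + (i - sl (k + 1)) * (w - v) ≤
      sn (k + 1) v + d + 2 * φ := fun v hv a1 a2 => by
    have g2 := (hlb v hv a1 a2).2
    rw [hν]
    have e1 : (i - sl (k + 1)) * (w - v) = i * (w - v) - sl (k + 1) * (w - v) := by ring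
    linarith
  have g1 := hnat (Dr := Dr) (M := M) (a := a) (Eb := Eb) (η := η) (σ := σ) (bb := bb) L hl hw
    (by
      rw [← hy]
      linarith) (t := t₁) (ν := ν) (ε := ε / 2) ht₁ (by
      rw [← hy]
      have h3 := hνv _ (hw.oG t₁ ht₁) (hw.bo ht₁) (by linarith)
      have h4 : (i - sl (k + 1)) * R₀ ≤ (i - sl (k + 1)) * (w - ow (f t₁)) :=
        mul_le_mul_of_nonneg_left (by linarith) (by linarith)
      linarith) (by positivity)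
  have g2 := hnj (Dr := Dr) (M := M) (a := a) (Eb := Eb) (η := η) (σ := σ) (bb := bb)
    (w' := w') (ox := ox) (ν := ν) (Nf := nF sn w R) (ε := ε / 2)
    (X := fun _ => d + 2 * φ) L hl hw
    (t₁ := t₁) ht₁ (by rw [← hwd]; exact hox) hox1 (fun t a1 a2 => by
      have b1 : ow (f t₁) ≤ ow (f t) := hw.mo t a2 t₁ a1
      have b2 : ow (f t) ≤ w := by rw [hwd]; exact hw.mo n le_rfl t a2
      have b3 : 0 ≤ (i - sl (k + 1)) * (w - ow (f t)) := mul_nonneg (by linarith) (by linarith)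
      have b4 := hνv _ (hw.oG t a2) (hw.bo a2) b2
      rw [← hy]
      refine ⟨by linarith, by linarith, by linarith, by linarith, fun l hl' j hj => ?_⟩
      have h4 := abs_le.1 (flat_of L.toLadR hl' hwG (hw.oG t a2) hbw hwo (hw.bo a2)
        (hw.oo t a2))
      have h5 : (1 - (j : ℝ)) * ow (f t) ≤ (1 - (j : ℝ)) * w := by
        refine mul_le_mul_of_nonneg_left b2 ?_
        have : (j : ℝ) ≤ 1 := by exact_mod_cast hj
        linarith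
      unfold nF
      linarith [h4.2]) (by positivity)
  refine Bas.mono 0 (g1.and g2) ?_
  rintro J - F A ⟨h1, h2⟩ κ z g₀ Gc H hE Hj hHj
  have h3 := (h2 hE Hj hHj _).2 (h1 hE _)
  rw [hν] at h3
  refine h3.trans (le_of_eq ?_)
  ring

/-- **The order zero of the steep place** over its chart, natural at the later window `x₀`. -/
theorem u_zero {m : ℕ} {S : PCl m} {c : ℕ → Fin m} {k : ℕ} {sn : ℕ → ℝ → ℝ} {G : Set ℝ}
    {b o φ al : ℝ} {sl : ℕ → ℝ} (L : LadV S c k 1 sn G b o φ) (hl : Lnv k sn G b o φ al sl)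
    (hslk : sl k = al) (hal1 : 1 ≤ al) (D : ℕ) {N M Dr : ℕ} {C₀ a Eb ηm : ℝ}
    {ow η σ : ℕ → ℝ} {lv bb : ℕ → ℕ → ℝ} {f : ℕ → ℕ} {n : ℕ}
    (hw : ChW k sn G b o φ N C₀ ηm ow lv f n) {t : ℕ} (ht : t ≤ n)
    {w' x₀ ox Cd R ε : ℝ} (hx₀ : x₀ ∈ G) (hwx : ow (f t) ≤ x₀) (hxo : x₀ ≤ o) (hox : x₀ ≤ ox)
    (hox1 : ox ≤ 1) (hCd : 0 ≤ Cd) (hd : Cd + 3 * φ ≤ al * (x₀ - ow (f t)))
    (hR : Cd + (20 * k + 120) * φ ≤ R) (hR' : x₀ - ow (f t) + (20 * k + 120) * φ ≤ R)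
    (h1 : R ≤ ow (f t) - b) (h2 : R ≤ 1 - x₀) (hε : 0 < ε) :
    Bas S (fun J F A => ∀ {κ : ℝ} {z : ℕ → ℕ → ℕ} {g₀ : ℕ → ℕ → ℕ}
      {Gc : ℕ → PtT F → ℕ → MvPolynomial (Option (Fin m)) ℝ}
      {H : ℕ → LnT F → ℕ → MvPolynomial (Option (Fin m)) ℝ},
      ChE F c k D Dr N M C₀ a Eb ηm ow η σ lv bb f n κ z A g₀ Gc H →
      ∀ Hj : LnT F → ℕ → MvPolynomial (Option (Fin m)) ℝ,
      (∀ ω, ∀ l < k, Hj (slam F ⌊w' * J⌋₊ ω) l = H (f 0) (slam F ⌊b * J⌋₊ ω) l) →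
      CH (Pool.Agent.H49.Ent.cond F.p A True)
        (fun ω => ⌊(2 : ℝ) ^ ((sn k (ow (f t)) + Cd - ((0 : ℕ) : ℝ) * ow (f t)) * J) *
          ojet F (c k) 0 (H (f t) (slam F ⌊ow (f t) * J⌋₊ ω) k) ω⌋)
        (fun ω => (jet2 F c ⌊w' * J⌋₊ Hj 0 k (nF sn (ow (f t)) R) ω, (cR F A ox ω, F.W ω))) ≤
        ε * J) := by
  have hφ := L.φ0
  have hkφ : 0 ≤ 20 * (k : ℝ) * φ := by positivity
  obtain ⟨w, hwd⟩ : ∃ w, w = ow (f t) := ⟨_, rfl⟩
  rw [← hwd] at hwx hd hR' h1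
  have hwG : w ∈ G := by rw [hwd]; exact hw.oG t ht
  have hbw : b ≤ w := by rw [hwd]; exact hw.bo ht
  have hwo : w ≤ o := hwx.trans hxo
  have hlb := fun v (hv : v ∈ G) (a1 : w ≤ v) (a2 : v ≤ x₀) =>
    abs_le.1 (hl.li k le_rfl (Nat.le_succ k) w hwG v hv hbw hwo (hbw.trans a1) (a2.trans hxo))
  obtain ⟨ν, hν⟩ : ∃ ν, ν = sn k w + Cd - ((0 : ℕ) : ℝ) * w := ⟨_, rfl⟩
  have hν0 : ν = sn k w + Cd := by
    rw [hν]
    push_cast
    ring
  have g1 := u_nat (η := ε / 4) (Q := jetQ m c 0 k b (fun l => sn l b - φ) (nF sn w R))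
    (f := fun J F => ptr F J) (y := fun _ F => F.W) (ox := ox)
    (I := (range k).image c) (κ := c k) (j := 0) (pl := sn k x₀) (ν := ν) L.toLadR hx₀ (by
      have h3 := (hlb x₀ hx₀ hwx le_rfl).1
      rw [hslk] at h3
      rw [hν0]
      push_cast
      linarith) (by positivity)
  have hR0 : ∀ v ∈ G, w ≤ v → v ≤ x₀ → ∃ X, Rm k sn b φ v X (nF sn w R) ∧
      ν + ((0 : ℕ) : ℝ) * v ≤ sn k v + X := fun v hv a1 a2 => by
    have h3 := (hlb v hv a1 a2).1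
    rw [hslk] at h3
    have h4 : 1 * (v - w) ≤ al * (v - w) := mul_le_mul_of_nonneg_right hal1 (by linarith)
    have h5 : max 0 (Cd - al * (v - w)) + (v - w) ≤ max Cd (x₀ - w) := by
      rcases le_total 0 (Cd - al * (v - w)) with h | h
      · rw [max_eq_right h]
        exact le_trans (by linarith) (le_max_left _ _)
      · rw [max_eq_left h]
        exact le_trans (by linarith) (le_max_right _ _)
    have h6 : max Cd (x₀ - w) + (20 * k + 120) * φ ≤ R := by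
      rcases max_choice Cd (x₀ - w) with h | h
      · rw [h]
        exact hR
      · rw [h]
        exact hR'
    have h7 : 0 ≤ max 0 (Cd - al * (v - w)) := le_max_left _ _
    refine ⟨max 0 (Cd - al * (v - w)) + 2 * φ, ⟨by linarith, by linarith, by linarith,
      fun l hl' j hj => ?_⟩, ?_⟩
    · have h8 := abs_le.1 (flat_of L.toLadR hl' hwG hv hbw hwo (hbw.trans a1) (a2.trans hxo))
      have h9 : (j : ℝ) * w ≤ j * v := mul_le_mul_of_nonneg_left a1 (Nat.cast_nonneg j)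
      unfold nF
      linarith [h8.2]
    · rw [hν0]
      push_cast
      have h8 : Cd - al * (v - w) ≤ max 0 (Cd - al * (v - w)) := le_max_right _ _
      linarith
  have g2 := (u_chain (h := ε / 4) L.toLadR (fun J F => ⟨fun x => x, fun _ => rfl⟩) kn_W hwG hx₀
    hbw hwx hxo hox hox1 (p := fun i => sn i b - φ) (fun i _ => le_rfl) hR0 (by positivity)).1 g1
  obtain ⟨X, hX, hνX⟩ := hR0 w hwG le_rfl hwx
  have g3 := u_chg (h := ε / 4) (X := X) L.toLadR (f := fun J F => ptr F J)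
    (y := fun _ F => F.W) (v := w) (w₁ := w) (w₂ := w) (ox := ox)
    (p₂ := sn k w - φ) (fun J F => ⟨fun x => x, fun _ => rfl⟩) kn_W hwG
    hwG hbw hwo le_rfl le_rfl (hwx.trans hox) hox1 (fun i _ => le_rfl) (j := 0)
    (by linarith) (by linarith) hX hνX g2 (by positivity)
  rw [hν, hwd] at g3
  have g4 := ev_u L D 0 (Dr := Dr) (M := M) (a := a) (Eb := Eb) (η := η) (σ := σ) (bb := bb) hw ht
    (w' := w') g3
  refine Bas.mono 0 g4 ?_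
  rintro J - F A h3 κ z g₀ Gc H hE Hj hHj
  refine (h3 hE Hj hHj).trans (mul_le_mul_of_nonneg_right (by linarith) (Nat.cast_nonneg J))

end Pool.VA48
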