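import Pool.Agent.H48.VA.Near

/-!
# The steep place: the orders known near

`u_lo`: the orders up to the slope, natural at a later window. `u_hi`: the orders above the slope,
natural at an early window.
-/

set_option autoImplicit false

namespace Pool.VA48

open Finset Real MvPolynomial
open Pool.Agent.H49.Ent Pool.Agent.H32.Dense
open Pool.STK hiding pr2
open Pool.KA Pool.KSAT Pool.K2S Pool.PB Pool.S6C
open Pool.GEN Pool.CHT Pool.CHX Pool.ISO Pool.LA91 Pool.AVG71 Pool.AVG5 Pool.D2F2 Pool.AVG57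
open Pool.RCD Pool.AVG96 Pool.OWN68 Pool.V0F Pool.V0Q Pool.V0T Pool.XR71 Pool.T4C72
open Pool.AJW (CfB)
open Pool.D2R (WinB)
open Pool.VA83
open Pool.NVT16
open Pool.TW44 (ChW ChE)

/-- **The orders up to the slope of the steep place** over its chart, natural at the later window
`x₀`. `γ`: the missing digits. -/
theorem u_lo {m : ℕ} {S : PCl m} {c : ℕ → Fin m} {k : ℕ} {sn : ℕ → ℝ → ℝ} {G : Set ℝ}
    {b o φ al : ℝ} {sl : ℕ → ℝ} (L : LadV S c k 1 sn G b o φ) (hl : Lnv k sn G b o φ al sl)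
    (hslk : sl k = al) (D i : ℕ) {N M Dr : ℕ} {C₀ a Eb ηm : ℝ}
    {ow η σ : ℕ → ℝ} {lv bb : ℕ → ℕ → ℝ} {f : ℕ → ℕ} {n : ℕ}
    (hw : ChW k sn G b o φ N C₀ ηm ow lv f n) {t : ℕ} (ht : t ≤ n)
    {w' x₀ ox Cd γ R ε : ℝ} (hx₀ : x₀ ∈ G) (hwx : ow (f t) ≤ x₀) (hxo : x₀ ≤ o) (hox : x₀ ≤ ox)
    (hox1 : ox ≤ 1) (hγ : 0 ≤ γ)
    (hd : Cd ≤ (al - i) * (x₀ - ow (f t)) + γ)
    (hR : ∀ v : ℝ, ow (f t) ≤ v → v ≤ x₀ →
      Cd - (al - i) * (v - ow (f t)) + (v - ow (f t)) + (20 * k + 120) * φ ≤ R)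
    (hR' : x₀ - ow (f t) + (20 * k + 120) * φ ≤ R)
    (h1 : R ≤ ow (f t) - b) (h2 : R ≤ 1 - x₀) (hε : 0 < ε) :
    Bas S (fun J F A => ∀ {κ : ℝ} {z : ℕ → ℕ → ℕ} {g₀ : ℕ → ℕ → ℕ}
      {Gc : ℕ → PtT F → ℕ → MvPolynomial (Option (Fin m)) ℝ}
      {H : ℕ → LnT F → ℕ → MvPolynomial (Option (Fin m)) ℝ},
      ChE F c k D Dr N M C₀ a Eb ηm ow η σ lv bb f n κ z A g₀ Gc H →
      ∀ Hj : LnT F → ℕ → MvPolynomial (Option (Fin m)) ℝ,
      (∀ ω, ∀ l < k, Hj (slam F ⌊w' * J⌋₊ ω) l = H (f 0) (slam F ⌊b * J⌋₊ ω) l) →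
      CH (Pool.Agent.H49.Ent.cond F.p A True)
        (fun ω => ⌊(2 : ℝ) ^ ((sn k (ow (f t)) + Cd - i * ow (f t)) * J) *
          ojet F (c k) i (H (f t) (slam F ⌊ow (f t) * J⌋₊ ω) k) ω⌋)
        (fun ω => (jet2 F c ⌊w' * J⌋₊ Hj 0 k (nF sn (ow (f t)) R) ω, (cR F A ox ω, F.W ω))) ≤
        (γ + 3 * φ + ε) * J) := by
  have hφ := L.φ0
  have hkφ : 0 ≤ 20 * (k : ℝ) * φ := by positivity
  obtain ⟨w, hwd⟩ : ∃ w, w = ow (f t) := ⟨_, rfl⟩
  rw [← hwd] at hwx hd hR hR' h1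
  have hwG : w ∈ G := by rw [hwd]; exact hw.oG t ht
  have hbw : b ≤ w := by rw [hwd]; exact hw.bo ht
  have hwo : w ≤ o := hwx.trans hxo
  have hlb := fun v (hv : v ∈ G) (a1 : w ≤ v) (a2 : v ≤ x₀) =>
    abs_le.1 (hl.li k le_rfl (Nat.le_succ k) w hwG v hv hbw hwo (hbw.trans a1) (a2.trans hxo))
  obtain ⟨ν, hν⟩ : ∃ ν, ν = sn k w + Cd - i * w := ⟨_, rfl⟩
  obtain ⟨ν', hν'⟩ : ∃ ν', ν' = min ν (sn k w + (al - i) * (x₀ - w) - i * w - 3 * φ) := ⟨_, rfl⟩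
  have hν1 : ν' ≤ ν := by rw [hν']; exact min_le_left _ _
  have hν2 : ν' ≤ sn k w + (al - i) * (x₀ - w) - i * w - 3 * φ := by
    rw [hν']
    exact min_le_right _ _
  have hν3 : ν - ν' ≤ γ + 3 * φ := by
    rw [hν', hν]
    rcases min_choice (sn k w + Cd - i * w) (sn k w + (al - i) * (x₀ - w) - i * w - 3 * φ)
      with h | h
    · rw [h]
      linarith
    · rw [h]
      linarith
  have g1 := u_nat (η := ε / 8) (Q := jetQ m c 0 k b (fun l => sn l b - φ) (nF sn w R))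
    (f := fun J F => ptr F J) (y := fun _ F => F.W) (ox := ox)
    (I := (range k).image c) (κ := c k) (j := i) (pl := sn k x₀) (ν := ν') L.toLadR hx₀ (by
      have h3 := (hlb x₀ hx₀ hwx le_rfl).1
      rw [hslk] at h3
      have e1 : (al - i) * (x₀ - w) = al * (x₀ - w) - i * x₀ + i * w := by ring
      linarith) (by positivity)
  have hR0 : ∀ v ∈ G, w ≤ v → v ≤ x₀ → ∃ X, Rm k sn b φ v X (nF sn w R) ∧
      ν' + (i : ℝ) * v ≤ sn k v + X := fun v hv a1 a2 => by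
    have h3 := (hlb v hv a1 a2).1
    rw [hslk] at h3
    have h5 : max 0 (Cd - (al - i) * (v - w)) + (v - w) + (20 * k + 120) * φ ≤ R := by
      rcases le_total 0 (Cd - (al - i) * (v - w)) with h | h
      · rw [max_eq_right h]
        exact hR v a1 a2
      · rw [max_eq_left h]
        linarith
    have h7 : 0 ≤ max 0 (Cd - (al - i) * (v - w)) := le_max_left _ _
    refine ⟨max 0 (Cd - (al - i) * (v - w)) + 2 * φ, ⟨by linarith, by linarith, by linarith,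
      fun l hl' j hj => ?_⟩, ?_⟩
    · have h8 := abs_le.1 (flat_of L.toLadR hl' hwG hv hbw hwo (hbw.trans a1) (a2.trans hxo))
      have h9 : (j : ℝ) * w ≤ j * v := mul_le_mul_of_nonneg_left a1 (Nat.cast_nonneg j)
      unfold nF
      linarith [h8.2]
    · have h8 : Cd - (al - i) * (v - w) ≤ max 0 (Cd - (al - i) * (v - w)) := le_max_right _ _
      have e1 : (al - i) * (v - w) = al * (v - w) - i * v + i * w := by ring
      rw [hν] at hν1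
      linarith
  have g2 := (u_chain (h := ε / 8) L.toLadR (fun J F => ⟨fun x => x, fun _ => rfl⟩) kn_W hwG hx₀
    hbw hwx hxo hox hox1 (p := fun i => sn i b - φ) (fun i _ => le_rfl) hR0 (by positivity)).1 g1
  obtain ⟨X, hX, hνX⟩ := hR0 w hwG le_rfl hwx
  have g3 := u_chg (h := ε / 8) (X := X) L.toLadR (f := fun J F => ptr F J)
    (y := fun _ F => F.W) (v := w) (w₁ := w) (w₂ := w) (ox := ox)
    (p₂ := sn k w - φ) (fun J F => ⟨fun x => x, fun _ => rfl⟩) kn_W hwG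
    hwG hbw hwo le_rfl le_rfl (hwx.trans hox) hox1 (fun i _ => le_rfl) (j := i)
    (by linarith) (by linarith) hX hνX g2 (by positivity)
  rw [hwd] at g3
  have g4 := ev_u L D i (Dr := Dr) (M := M) (a := a) (Eb := Eb) (η := η) (σ := σ) (bb := bb) hw ht
    (w' := w') g3
  obtain ⟨J₁, hJ₁⟩ := exists_nat_ge (Real.log 5 / (ε / 2))
  refine Bas.mono J₁ (g4.and (pos_bas L.pos)) ?_
  rintro J hJ F A ⟨h3, hA⟩ κ z g₀ Gc H hE Hj hHj
  have hJ0 : (0 : ℝ) ≤ J := Nat.cast_nonneg J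
  have hJl : Real.log 5 ≤ ε / 2 * J := by
    have h3 : (J₁ : ℝ) ≤ J := by exact_mod_cast hJ
    have h4 := hJ₁.trans h3
    rw [div_le_iff₀ (by positivity)] at h4
    linarith
  have h3' := h3 hE Hj hHj
  have h4 := Pool.TW44.ch_more (isLaw_cond F.isLaw hA)
    (fun ω => ojet F (c k) i (H (f t) (slam F ⌊ow (f t) * J⌋₊ ω) k) ω)
    (fun ω => (jet2 F c ⌊w' * J⌋₊ Hj 0 k (nF sn (ow (f t)) R) ω, (cR F A ox ω, F.W ω)))
    (mul_le_mul_of_nonneg_right hν1 hJ0)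
  rw [← hwd, ← hν]
  rw [← hwd] at h3' h4
  have h5 : (ν * J - ν' * J) * Real.log 2 ≤ (γ + 3 * φ) * J := by
    have h6 : (ν * J - ν' * J) * Real.log 2 ≤ (ν * J - ν' * J) * 1 := by
      refine mul_le_mul_of_nonneg_left ?_ ?_
      · have := Real.log_two_lt_d9
        linarith
      · rw [← sub_mul]
        exact mul_nonneg (by linarith) hJ0
    have h7 : (ν - ν') * J ≤ (γ + 3 * φ) * J := mul_le_mul_of_nonneg_right hν3 hJ0
    linarith
  refine h4.trans ?_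
  have h8 : (ε / 8 + ε / 8 + ε / 8) * J ≤ ε / 2 * J :=
    mul_le_mul_of_nonneg_right (by linarith) hJ0
  linarith

/-- **The orders above the slope of the steep place** over its chart, natural at an early window. -/
theorem u_hi {m : ℕ} {S : PCl m} {c : ℕ → Fin m} {k : ℕ} {sn : ℕ → ℝ → ℝ} {G : Set ℝ}
    {b o φ al : ℝ} {sl : ℕ → ℝ} (L : LadV S c k 1 sn G b o φ) (hl : Lnv k sn G b o φ al sl)
    (hslk : sl k = al) (D i : ℕ) {N M Dr : ℕ} {C₀ a Eb ηm : ℝ}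
    {ow η σ : ℕ → ℝ} {lv bb : ℕ → ℕ → ℝ} {f : ℕ → ℕ} {n : ℕ}
    (hw : ChW k sn G b o φ N C₀ ηm ow lv f n) {t : ℕ} (ht : t ≤ n)
    {w' ox Cd R R₀ ε : ℝ} (hox : ow (f t) ≤ ox)
    (hox1 : ox ≤ 1) (hi : al < i) (hCd : 0 ≤ Cd)
    (hd : Cd + 30 * φ ≤ (i - al) * (R₀ - φ)) (hR₀ : φ ≤ R₀) (hR : Cd + (20 * k + 130) * φ ≤ R)
    (h1 : R + R₀ + φ ≤ ow (f t) - b) (h2 : R ≤ 1 - ow (f t)) (hε : 0 < ε) :
    Bas S (fun J F A => ∀ {κ : ℝ} {z : ℕ → ℕ → ℕ} {g₀ : ℕ → ℕ → ℕ}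
      {Gc : ℕ → PtT F → ℕ → MvPolynomial (Option (Fin m)) ℝ}
      {H : ℕ → LnT F → ℕ → MvPolynomial (Option (Fin m)) ℝ},
      ChE F c k D Dr N M C₀ a Eb ηm ow η σ lv bb f n κ z A g₀ Gc H →
      ∀ Hj : LnT F → ℕ → MvPolynomial (Option (Fin m)) ℝ,
      (∀ ω, ∀ l < k, Hj (slam F ⌊w' * J⌋₊ ω) l = H (f 0) (slam F ⌊b * J⌋₊ ω) l) →
      CH (Pool.Agent.H49.Ent.cond F.p A True)
        (fun ω => ⌊(2 : ℝ) ^ ((sn k (ow (f t)) + Cd - i * ow (f t)) * J) *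
          ojet F (c k) i (H (f t) (slam F ⌊ow (f t) * J⌋₊ ω) k) ω⌋)
        (fun ω => (jet2 F c ⌊w' * J⌋₊ Hj 0 k (nF sn (ow (f t)) R) ω, (cR F A ox ω, F.W ω))) ≤
        ε * J) := by
  obtain ⟨C₀', htm⟩ := L.tm
  have hφ := L.φ0
  have hkφ : 0 ≤ 20 * (k : ℝ) * φ := by positivity
  obtain ⟨w, hwd⟩ : ∃ w, w = ow (f t) := ⟨_, rfl⟩
  rw [← hwd] at hox h1 h2
  have hwG : w ∈ G := by rw [hwd]; exact hw.oG t ht
  have hbw : b ≤ w := by rw [hwd]; exact hw.bo ht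
  have hwo : w ≤ o := by rw [hwd]; exact hw.oo t ht
  have hli := fun v hv v'' hv'' (a1 : b ≤ v) (a2 : v ≤ o) (a3 : b ≤ v'') (a4 : v'' ≤ o) =>
    hl.li k le_rfl (Nat.le_succ k) v hv v'' hv'' a1 a2 a3 a4
  rw [hslk] at hli
  have hR0 : 0 ≤ R := by linarith
  have g1 := u_early (h := ε / 4) (η := 0) (X := Cd) (X' := R) (Cd := 0) L.toLadR
    (f := fun J F => ptr F J) (y := fun _ F => F.W) hli (fun J F => ⟨fun x => x, fun _ => rfl⟩)
    kn_W hwG hwG hbw le_rfl hwo hox hox1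
    (p := fun i => sn i b - φ) (Nf := nF sn w R) (fun i _ => le_rfl) hCd hR (by linarith) h2
    (fun l hl j hj => le_rfl) (j := i) (fun h => by
      exfalso
      rw [h, Nat.cast_zero] at hi
      linarith [hl.s0]) (fun _ h => absurd h (not_le.2 hi))
    (fun _ => win_lo L hwo (by linarith) hR0 hR₀ (by linarith) hd) le_rfl (by positivity)
  have g2 := Fw.low htm (N := sn k w + Cd - i * w) (by linarith) (by positivity : 0 < ε / 4) g1
  have g3 := u_chg (h := ε / 4) (X := Cd) L.toLadR (f := fun J F => ptr F J)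
    (y := fun _ F => F.W) (v := w) (w₁ := w) (w₂ := w) (ox := ox)
    (p₂ := sn k w - φ) (fun J F => ⟨fun x => x, fun _ => rfl⟩) kn_W hwG
    hwG hbw hwo le_rfl le_rfl hox hox1 (fun i _ => le_rfl) (j := i)
    (by linarith) (by linarith) ⟨hCd, by linarith, by linarith, fun l hl' j hj => by
      unfold nF
      linarith⟩ (by linarith) g2 (by positivity)
  rw [hwd] at g3
  have g4 := ev_u L D i (Dr := Dr) (M := M) (a := a) (Eb := Eb) (η := η) (σ := σ) (bb := bb) hw ht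
    (w' := w') g3
  refine Bas.mono 0 g4 ?_
  rintro J - F A h3 κ z g₀ Gc H hE Hj hHj
  refine (h3 hE Hj hHj).trans (mul_le_mul_of_nonneg_right (by linarith) (Nat.cast_nonneg J))

end Pool.VA48
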