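import Pool.Agent.H48.VA.Lab
import Pool.Agent.H48.VA.Nu
import Pool.Agent.H98.NA.S

/-!
# The labels of one event

`nev_of`: the labels of `lbt_che` and of the windows are the labels `NEv`.
-/

set_option autoImplicit false

namespace Pool.VA48

open Finset Real MvPolynomial
open Pool.Agent.H49.Ent Pool.Agent.H32.Dense
open Pool.STK hiding pr2
open Pool.KA Pool.KSAT Pool.K2S Pool.PB Pool.S6C
open Pool.GEN Pool.CHT Pool.CHX Pool.ISO Pool.LA91 Pool.AVG71 Pool.AVG5 Pool.D2F2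
open Pool.RCD Pool.AVG96 Pool.OWN68 Pool.V0F Pool.V0Q Pool.V0T Pool.XR71 Pool.T4C72
open Pool.AVG57 (upw upw_slam jet2)
open Pool.AJW (CfB)
open Pool.D2R (WinB)
open Pool.GRD (LbP)
open Pool.VA83
open Pool.NVT16
open Pool.TW44 (ChW ChE LV lv_of)
open Pool.NA98 (NEv FdE NdE nrJ tj dgA)

/-- Labels of a larger degree. -/
theorem lv_deg {m J : ℕ} {F : Fam m J} {c : ℕ → Fin m} {k D D' : ℕ} (hD : D ≤ D') {v φ E : ℝ}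
    {sn : ℕ → ℝ → ℝ} {A : F.Ω → Prop} {H : LnT F → ℕ → MvPolynomial (Option (Fin m)) ℝ}
    (h : LV F c k D v φ E sn A H) : LV F c k D' v φ E sn A H :=
  ⟨fun l hl => by
    obtain ⟨V, z, z', G, h1, h2⟩ := h.lb l hl
    exact ⟨V, z, z', G, ⟨fun x => (h1.deg x).trans hD, h1.dep, h1.cls, h1.pos⟩, h2⟩, h.cf⟩

/-- **The labels of the targets** as closed labels. -/
theorem lbp_of {m J : ℕ} {F : Fam m J} {c : ℕ → Fin m} {k D' : ℕ} {w u φ E : ℝ}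
    {sn : ℕ → ℝ → ℝ} {A : F.Ω → Prop} {g₀ : ℕ → ℕ}
    {Gw GN : PtT F → ℕ → MvPolynomial (Option (Fin m)) ℝ}
    {HN : LnT F → ℕ → MvPolynomial (Option (Fin m)) ℝ}
    (hT : LbT F c k 1 D' w u φ E sn A g₀ Gw GN HN) {l : ℕ} (h1 : k ≤ l) (h2 : l ≤ k + 1) :
    ∃ (V : Type) (z : PtT F → V) (z' : LnT F → V) (G : V → MvPolynomial (Option (Fin m)) ℝ),
    LbP F ((range l).image c) (c l) D' J ⌊w * J⌋₊ ⌊(sn l w - φ) * J⌋₊ A z z' G ∧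
      ∀ s, G (z' s) = HN s l := by
  refine ⟨{p : MvPolynomial (Option (Fin m)) ℝ // p.totalDegree ≤ D' ∧ DepC c l p},
    fun y => ⟨GN y l, (hT.deg l h1 h2).1 y, (hT.dep l h1 h2).1 y⟩,
    fun s' => ⟨HN s' l, (hT.deg l h1 h2).2 s', (hT.dep l h1 h2).2 s'⟩, fun p => p.1,
    ⟨fun v => v.2.1, fun v b b' e1 e2 => v.2.2 b b' e1 fun i hi => e2 (c i)
      (mem_image_of_mem c (mem_range.2 hi)),
      fun ω hω => Subtype.ext (hT.cls l h1 h2 ω hω), fun ω hω => ?_⟩, fun s => rfl⟩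
  have e1 := hT.pos l h1 h2 ω hω
  rw [hT.cls l h1 h2 ω hω] at e1
  exact e1

/-- **The labels of one event.** -/
theorem nev_of {m : ℕ} {S : PCl m} {c : ℕ → Fin m} {k D D' : ℕ} {sn : ℕ → ℝ → ℝ} {G : Set ℝ}
    {b o φ' : ℝ} {N M Dr : ℕ} {C₀ a Eb ηm : ℝ} {ow η σ : ℕ → ℝ} {lv bb : ℕ → ℕ → ℝ}
    {f : ℕ → ℕ} {n : ℕ} (L : LadV S c k 1 sn G b o φ') (hw : ChW k sn G b o φ' N C₀ ηm ow lv f n)
    (hD : D ≤ D') {J : ℕ} {F : Fam m J} {A : F.Ω → Prop} {κ : ℝ} {z : ℕ → ℕ → ℕ}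
    {g₀ : ℕ → ℕ → ℕ} {Gc : ℕ → PtT F → ℕ → MvPolynomial (Option (Fin m)) ℝ}
    {H : ℕ → LnT F → ℕ → MvPolynomial (Option (Fin m)) ℝ}
    (hE : ChE F c k D Dr N M C₀ a Eb ηm ow η σ lv bb f n κ z A g₀ Gc H) {u φ : ℝ} {K₀ : ℕ}
    {e₀ ρ₀ : ℝ} {g' : ℕ → ℕ} {Gw GN : PtT F → ℕ → MvPolynomial (Option (Fin m)) ℝ}
    {HN : LnT F → ℕ → MvPolynomial (Option (Fin m)) ℝ}
    (hT : LbT F c k 1 D' (ow (f n)) u φ 1 sn A g' Gw GN HN)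
    (hO : LnO F c k sn (ow (f n)) φ K₀ e₀ ρ₀ HN A) :
    NEv F c k D' sn b (ow (f n)) φ' φ 1 K₀ e₀ ρ₀ A (H (f 0)) (H (f n))
      (fhT H HN (f 0) k ⌊b * J⌋₊ ⌊ow (f n) * J⌋₊) := by
  have hJ : (0 : ℝ) ≤ J := Nat.cast_nonneg J
  have h1 := (lv_of hE hw (Nat.zero_le n)).take (Nat.le_succ k)
  rw [hw.ob] at h1
  have hfw : ⌊ow (f n) * (J : ℝ)⌋₊ ≤ J := floor_le ((hw.oo n le_rfl).trans L.o1.le) J
  have hfb : ⌊b * (J : ℝ)⌋₊ ≤ ⌊ow (f n) * J⌋₊ :=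
    Nat.floor_le_floor (mul_le_mul_of_nonneg_right (hw.bo le_rfl) hJ)
  have e1 : ∀ l, k ≤ l → ∀ s, fhT H HN (f 0) k ⌊b * J⌋₊ ⌊ow (f n) * J⌋₊ s l = HN s l :=
    fun l hl s => if_neg (by omega)
  refine ⟨lv_deg hD h1, lv_deg hD (lv_of hE hw le_rfl), fun ω l hl => ?_, fun l a1 a2 => ?_,
    fun l a1 a2 => ?_, ?_⟩
  · unfold fhT
    rw [if_pos hl, upw_slam F hfb hfw]
  · obtain ⟨V, z₁, z₁', G', h3, h4⟩ := lbp_of hT a1 a2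
    exact ⟨V, z₁, z₁', G', h3, fun s => (h4 s).trans (e1 l a1 s).symm⟩
  · have e3 : (fun s => fhT H HN (f 0) k ⌊b * J⌋₊ ⌊ow (f n) * J⌋₊ s l) = fun s => HN s l :=
      funext (e1 l a1)
    rw [e3]
    exact hT.cfb l a1 a2
  · obtain ⟨V, z₁, z₁', g, h3, h4⟩ := hO
    exact ⟨V, z₁, z₁', g, h3, fun s => (h4 s).trans (e1 (k + 1) (Nat.le_succ k) s).symm⟩

end Pool.VA48
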