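import Pool.Agent.H48.VA.Lv

/-!
# A chain of windows over a ladder of two slopes: the inputs of the chain theorems

`own_ev`: the own jets of the slope-one places are natural. `nat_ev`, `nat_ch`: a natural jet over a
slab label.
-/

set_option autoImplicit false

namespace Pool.VA48

open Finset Real MvPolynomial
open Pool.Agent.H49.Ent Pool.Agent.H32.Dense Pool.STK Pool.KA Pool.KSAT Pool.K2S Pool.PB Pool.GEN
open Pool.S6C Pool.RCD Pool.LA91 Pool.AVG96 Pool.V0F Pool.V0T Pool.D2R Pool.NVT16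
open Pool.BFL (Pb)
open Pool.AVG57 (jet2 upw upw_slam)
open Pool.GRD (LbP)
open Pool.AJW (CfB)
open Pool.V0R (LadR)
open Pool.VA83 (LadV)
open Pool.TW44 (ChW ChE SlN slab_lb winB_sub sl_cls cnt_ev ch_nat Own)

/-- **The own jets are natural.** -/
theorem own_ev (D k i : ℕ) {m : ℕ} {S : PCl m} {c : ℕ → Fin m} {sn : ℕ → ℝ → ℝ}
    {G : Set ℝ} {b o φ : ℝ} {Dr N M : ℕ} {C₀ a Eb ηm : ℝ} {ow η σ : ℕ → ℝ}
    {lv bb : ℕ → ℕ → ℝ} {f : ℕ → ℕ} {n : ℕ} (L : LadV S c k 1 sn G b o φ)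
    (hw : ChW k sn G b o φ N C₀ ηm ow lv f n) {y η' : ℝ} (hy : 0 < y) (hη : 0 < η') :
    Bas S (fun J F A => ∀ {κ : ℝ} {z : ℕ → ℕ → ℕ} {g₀ : ℕ → ℕ → ℕ}
      {Gc : ℕ → PtT F → ℕ → MvPolynomial (Option (Fin m)) ℝ}
      {H : ℕ → LnT F → ℕ → MvPolynomial (Option (Fin m)) ℝ},
      WinB F c (k + 1) D Dr N M C₀ a Eb ηm ow η σ lv bb κ z A g₀ Gc H →
      ∀ t ≤ n, Pb (Pool.Agent.H49.Ent.cond F.p A True) (fun ω =>
        ¬ Own F c k i (ow (f t)) y (g₀ (f t)) (H (f t)) ω) ≤ η') := by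
  classical
  obtain ⟨Ct, htm⟩ := L.tm
  have hv0 : ∀ t ≤ n, 0 ≤ ow (f t) ∧ ow (f t) < 1 := fun t ht =>
    ⟨L.b0.trans (hw.bo ht), lt_of_le_of_lt (hw.oo t ht) L.o1⟩
  obtain ⟨η₁, hη₁⟩ : ∃ η₁ : ℝ, η₁ = η' / ((k * (i + 1) : ℕ) + 1) := ⟨_, rfl⟩
  have hη₁0 : 0 < η₁ := by rw [hη₁]; positivity
  have hbas : Bas S (fun J F A => ∀ t < n + 1, ∀ l < k, ∀ j' < i + 1, ∀ (P : ℕ) (V : Type)
      (z : PtT F → V) (z' : LnT F → V) (G : V → MvPolynomial (Option (Fin m)) ℝ),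
      LbP F ((range l).image c) (c l) D J ⌊ow (f t) * J⌋₊ P A z z' G →
      Pb (Pool.Agent.H49.Ent.cond F.p A True) (fun ω =>
        ¬ |ojet F (c l) j' (G (z' (slam F ⌊ow (f t) * J⌋₊ ω))) ω| ≤
          2 ^ ((y + j' * ow (f t)) * J) * (1 / 2 ^ P)) ≤ η₁) :=
    Bas.all (n + 1) fun t ht => Bas.all k fun l _ => Bas.all (i + 1) fun j' _ =>
      own_cls htm _ (c l) j' D (hv0 t (by omega)).1 (hv0 t (by omega)).2 hη₁0 hy
  refine Bas.mono 0 (hbas.and (pos_bas L.pos)) ?_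
  rintro J - F A ⟨hb, hA⟩ κ z g₀ Gc H W t ht
  have hlaw := isLaw_cond F.isLaw hA
  have h0 := hlaw.nonneg
  have hft := hw.fN t ht
  have h1 := Pool.V0C62.Pb_un hlaw (Finset.range k ×ˢ Finset.range (i + 1))
    (fun (x : ℕ × ℕ) ω => ¬ |ojet F (c x.1) x.2 (H (f t) (slam F ⌊ow (f t) * J⌋₊ ω) x.1) ω| ≤
          2 ^ ((y + x.2 * ow (f t)) * J) * (1 / 2 ^ g₀ (f t) x.1)) (e := η₁) (by
      rintro ⟨l, j'⟩ hi
      rw [Finset.mem_product, Finset.mem_range, Finset.mem_range] at hi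
      have h2 := hb t (by omega) l hi.1 j' hi.2 _ _ _ _ _ (lb_of (W.ev _ hft).ball
        (fun ω hω l hl => (W.ev _ hft).cls ω hω l hl) (show l < k + 1 + 1 by omega) le_rfl)
      exact h2)
  refine le_trans (Pool.GRD.Pb_mono_pos h0 (fun ω _ hω => ?_)) (h1.trans ?_)
  · by_contra hcon
    refine hω fun l hl j' h2 h3 => ?_
    by_contra h4
    exact hcon ⟨(l, j'), Finset.mem_product.2 ⟨Finset.mem_range.2 hl, Finset.mem_range.2 (by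
      show j' < i + 1
      omega)⟩, h4⟩
  · rw [Finset.card_product, Finset.card_range, Finset.card_range, hη₁, mul_div_assoc',
      div_le_iff₀ (by positivity)]
    have : (0 : ℝ) ≤ ((k * (i + 1) : ℕ) : ℝ) := Nat.cast_nonneg _
    nlinarith

/-- **A natural jet** over a slab label. -/
theorem nat_ev (D k i : ℕ) : ∃ C : ℕ, 1 ≤ C ∧ ∀ {m : ℕ} {S : PCl m} {c : ℕ → Fin m}
    {sn : ℕ → ℝ → ℝ} {G : Set ℝ} {b o φ s : ℝ} {sl : ℕ → ℝ} {Dr N M : ℕ} {C₀ a Eb ηm : ℝ}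
    {ow η σ : ℕ → ℝ} {lv bb : ℕ → ℕ → ℝ} {f : ℕ → ℕ} {n : ℕ}, LadV S c k 1 sn G b o φ →
    Lnv k sn G b o φ s sl → ChW k sn G b o φ N C₀ ηm ow lv f n →
    C * ((s + 3) * φ) ≤ sn (k + 1) b → ∀ {t : ℕ} {ν η' : ℝ}, t ≤ n →
    ν + i * ow (f t) + C * ((s + 3) * φ) ≤ sn (k + 1) (ow (f t)) → 0 < η' →
    Bas S (fun J F A => ∀ {κ : ℝ} {z : ℕ → ℕ → ℕ} {g₀ : ℕ → ℕ → ℕ}
      {Gc : ℕ → PtT F → ℕ → MvPolynomial (Option (Fin m)) ℝ}
      {H : ℕ → LnT F → ℕ → MvPolynomial (Option (Fin m)) ℝ},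
      ChE F c k D Dr N M C₀ a Eb ηm ow η σ lv bb f n κ z A g₀ Gc H →
      Pb (Pool.Agent.H49.Ent.cond F.p A True) (fun ω =>
        ¬ |ojet F (c (k + 1)) i (slG c Gc k (f 0) (f t) (ptr F J ω)) ω| ≤ 1 / 2 ^ (ν * J)) ≤
        η') := by
  classical
  obtain ⟨Cl, hCl, hslab⟩ := slab_lb D k
  refine ⟨Cl + 5, by omega, ?_⟩
  intro m S c sn G b o φ s sl Dr N M C₀ a Eb ηm ow η σ lv bb f n L hl hw hlev t ν η' ht hν hη
  have hs := hl.s0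
  have hφ := L.φ0
  obtain ⟨Ct, htm⟩ := L.tm
  obtain ⟨y, hy⟩ : ∃ y : ℝ, y = (s + 3) * φ := ⟨_, rfl⟩
  have hsφ : 0 ≤ s * φ := mul_nonneg hs hφ.le
  have hy3 : y = s * φ + 3 * φ := by rw [hy]; ring
  have hy0 : 0 < y := by linarith
  rw [← hy] at hlev hν
  have hv0 : 0 ≤ ow (f t) := L.b0.trans (hw.bo ht)
  have hv1 : ow (f t) < 1 := lt_of_le_of_lt (hw.oo t ht) L.o1
  have hown := own_cls htm ((range (k + 1)).image c) (c (k + 1)) i (D * D + D) hv0 hv1 hη hy0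
  obtain ⟨J₂, hJ₂⟩ := exists_nat_ge ((n : ℝ) / φ)
  obtain ⟨J₃, hJ₃⟩ := exists_nat_ge (((Cl : ℝ) + 1) / φ)
  refine Bas.mono (max J₂ J₃) (hown.and (pos_bas L.pos)) ?_
  rintro J hJ F A ⟨h2, hA⟩ κ z g₀ Gc H hE
  have hJ0 : (0 : ℝ) ≤ J := Nat.cast_nonneg J
  have hJn : (n : ℝ) ≤ φ * J := by
    have h3 : (J₂ : ℝ) ≤ J := by exact_mod_cast (le_max_left _ _).trans hJ
    have h4 := hJ₂.trans h3
    rw [div_le_iff₀ hφ] at h4
    linarith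
  have hJy : (Cl : ℝ) + 1 ≤ φ * J := by
    have h3 : (J₃ : ℝ) ≤ J := by exact_mod_cast (le_max_right _ _).trans hJ
    have h4 := hJ₃.trans h3
    rw [div_le_iff₀ hφ] at h4
    linarith
  have hlaw := isLaw_cond F.isLaw hA
  have h0 := hlaw.nonneg
  have hSl := sln_of L hl hw hJn hE.zz
  rw [← hy] at hSl
  obtain ⟨v, hv⟩ : ∃ v, v = ow (f t) := ⟨_, rfl⟩
  obtain ⟨P, hP⟩ : ∃ P : ℕ, P = ⌊(sn (k + 1) v - (Cl + 2) * y) * J⌋₊ := ⟨_, rfl⟩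
  have hst := L.st (k + 1) (Nat.le_succ k) le_rfl _ L.bG _ (hw.oG t ht) le_rfl (hw.bo ht)
    (hw.oo t ht)
  rw [← hv] at hst hν
  have hbv : b ≤ v := by rw [hv]; exact hw.bo ht
  have hlev' : (Cl + 5) * y ≤ sn (k + 1) v + φ := by
    push_cast at hlev
    linarith
  have hpos : 0 ≤ (sn (k + 1) v - (Cl + 2) * y) * J := mul_nonneg (by linarith) hJ0
  have hP1 : (P : ℝ) ≤ (sn (k + 1) v - (Cl + 2) * y) * J := by
    rw [hP]
    exact Nat.floor_le hpos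
  have hP2 : (sn (k + 1) v - (Cl + 2) * y) * J ≤ P + 1 := by
    rw [hP]
    exact (Nat.lt_floor_add_one _).le
  have hfl : ⌊ow (f t) * (J : ℝ)⌋₊ ≤ J := floor_le hv1.le J
  have hφy : 3 * (φ * J) ≤ y * J := by
    rw [← mul_assoc]
    exact mul_le_mul_of_nonneg_right (by linarith) hJ0
  obtain ⟨z₁, z₂, h3, -, h4⟩ := hslab hE.W L.inj hSl t ht hfl P (by
    obtain ⟨-, -, h5, -⟩ := hE.W.g_num (hw.fN t ht) (le_refl (k + 1))
    rw [hw.lv t ht (k + 1) le_rfl, ← hv] at h5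
    have hηm0 : 0 ≤ ηm := (hE.W.hη _ (hw.fN t ht)).1.trans (hE.W.hη _ (hw.fN t ht)).2
    have hηφ : ηm ≤ φ := (le_mul_of_one_le_left hηm0 hE.W.C1).trans hw.C0
    have h8 : ηm * J ≤ φ * J := mul_le_mul_of_nonneg_right hηφ hJ0
    have h9 : 0 ≤ y * J := by positivity
    nlinarith)
  have h5 := h2 P _ z₁ z₂ _ h3
  refine le_trans (Pool.GRD.Pb_mono_pos h0 (fun ω hp hω => ?_)) h5
  intro h6
  apply hω
  have hωA : A ω := of_cond_pos hp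
  rw [h4, ← sl_cls hE.W (hw.fN 0 (Nat.zero_le _)) (hw.fN t ht) (hw.mo t ht 0 (Nat.zero_le _))
    hv1.le hωA] at h6
  refine h6.trans ?_
  rw [← Real.rpow_natCast, one_div, one_div, ← Real.rpow_neg (by norm_num),
    ← Real.rpow_neg (by norm_num), ← Real.rpow_add (by norm_num), ← hv]
  refine Real.rpow_le_rpow_of_exponent_le (by norm_num) ?_
  have h7 : (ν + i * v + ((Cl + 5 : ℕ) : ℝ) * y) * J ≤ sn (k + 1) v * J :=
    mul_le_mul_of_nonneg_right hν hJ0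
  have h9 : 0 ≤ y * J := by positivity
  push_cast at h7
  linarith

/-- **A natural jet** over a slab label has few bits. -/
theorem nat_ch (D k i : ℕ) : ∃ C : ℕ, 1 ≤ C ∧ ∀ {m : ℕ} {S : PCl m} {c : ℕ → Fin m}
    {sn : ℕ → ℝ → ℝ} {G : Set ℝ} {b o φ s : ℝ} {sl : ℕ → ℝ} {Dr N M : ℕ} {C₀ a Eb ηm : ℝ}
    {ow η σ : ℕ → ℝ} {lv bb : ℕ → ℕ → ℝ} {f : ℕ → ℕ} {n : ℕ}, LadV S c k 1 sn G b o φ →
    Lnv k sn G b o φ s sl → ChW k sn G b o φ N C₀ ηm ow lv f n →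
    C * ((s + 3) * φ) ≤ sn (k + 1) b → ∀ {t : ℕ} {ν ε : ℝ}, t ≤ n →
    ν + i * ow (f t) + C * ((s + 3) * φ) ≤ sn (k + 1) (ow (f t)) → 0 < ε →
    Bas S (fun J F A => ∀ {κ : ℝ} {z : ℕ → ℕ → ℕ} {g₀ : ℕ → ℕ → ℕ}
      {Gc : ℕ → PtT F → ℕ → MvPolynomial (Option (Fin m)) ℝ}
      {H : ℕ → LnT F → ℕ → MvPolynomial (Option (Fin m)) ℝ},
      ChE F c k D Dr N M C₀ a Eb ηm ow η σ lv bb f n κ z A g₀ Gc H → ∀ {γ : Type} (Y : F.Ω → γ),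
      CH (Pool.Agent.H49.Ent.cond F.p A True) (fun ω => ⌊(2 : ℝ) ^ (ν * J) *
        ojet F (c (k + 1)) i (slG c Gc k (f 0) (f t) (ptr F J ω)) ω⌋) Y ≤ ε * J) := by
  classical
  obtain ⟨C, hC, H0⟩ := nat_ev D k i
  refine ⟨C, hC, ?_⟩
  intro m S c sn G b o φ s sl Dr N M C₀ a Eb ηm ow η σ lv bb f n L hl hw hlev t ν ε ht hν hε
  obtain ⟨M₀, J₁, hM⟩ := cnt_ev D k i ν (c := c) (Dr := Dr) (M := M) (a := a) (Eb := Eb)
    (η := η) (σ := σ) (bb := bb) L.b0 L.o1 hw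
  have h1 := H0 (Dr := Dr) (M := M) (a := a) (Eb := Eb) (η := η) (σ := σ) (bb := bb) L hl hw
    hlev ht hν (η' := ε / (2 * (M₀ + 1))) (by positivity)
  obtain ⟨J₂, hJ₂⟩ := exists_nat_ge ((Real.log 2 + Real.log 7) / (ε / 2))
  refine Bas.mono (max J₁ J₂) (h1.and (pos_bas L.pos)) ?_
  rintro J hJ F A ⟨h2, hA⟩ κ z g₀ Gc H hE γ Y
  have hJ0 : (0 : ℝ) ≤ J := Nat.cast_nonneg J
  have hJ3 : Real.log 2 + Real.log 7 ≤ ε / 2 * J := by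
    have h3 : (J₂ : ℝ) ≤ J := by exact_mod_cast (le_max_right _ _).trans hJ
    have h4 := hJ₂.trans h3
    rw [div_le_iff₀ (by positivity)] at h4
    linarith
  have hlaw := isLaw_cond F.isLaw hA
  have h3 := hM J ((le_max_left _ _).trans hJ) hE t ht
  have h3' := cnt_cond_le F.isLaw (fun ω => ⌊(2 : ℝ) ^ (ν * J) *
    ojet F (c (k + 1)) i (slG c Gc k (f 0) (f t) (ptr F J ω)) ω⌋) A
  have h4 := ch_nat hlaw Y (fun ω => ojet F (c (k + 1)) i (slG c Gc k (f 0) (f t) (ptr F J ω)) ω)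
    (N := ν * J) _ (h2 hE) (M := M₀ * J) (by positivity) (by
      exact le_trans (by exact_mod_cast h3') h3) (fun ω _ hω => not_not.1 hω)
  refine h4.trans ?_
  have h5 : ε / (2 * ((M₀ : ℝ) + 1)) * (M₀ * J) ≤ ε / 2 * J := by
    rw [← mul_assoc]
    refine mul_le_mul_of_nonneg_right ?_ hJ0
    rw [div_mul_eq_mul_div, div_le_iff₀ (by positivity)]
    have : (0 : ℝ) ≤ M₀ := Nat.cast_nonneg _
    nlinarith
  linarith

end Pool.VA48
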