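import Pool.Agent.H48.VA.Pa

/-!
# The own jets of the last place over its slab labels along a chain of windows

`DgN`: the digits. `nj_E`: between the windows `f t₁` and `f n`, in both directions.
-/

set_option autoImplicit false

namespace Pool.VA48

open Finset Real MvPolynomial
open Pool.Agent.H49.Ent Pool.Agent.H32.Dense Pool.STK Pool.KA Pool.KSAT Pool.K2S Pool.PB Pool.GEN
open Pool.S6C Pool.RCD Pool.LA91 Pool.AVG96 Pool.V0F Pool.V0T Pool.D2R Pool.NVT16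
open Pool.BFL (Pb)
open Pool.AVG57 (jet2 upw upw_slam)
open Pool.GRD (LbP)
open Pool.AJW (CfB)
open Pool.V0R (LadR)
open Pool.VA83 (LadV)
open Pool.TW44 (ChW ChE SlN slab_lb winB_sub sl_cls cnt_ev ch_nat Own nj_up nj_dn nst_of nst_le
  sum_err LV vd_ev lv_of det_ev)

/-- **The digits** `X t` behind the natural ones at the windows between `f t₁` and `f n`, for the
order `i` and the digits `ν`; `Nf`: the digits of the slope-one places. -/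
def DgN (k i : ℕ) (sn : ℕ → ℝ → ℝ) (ow : ℕ → ℝ) (f : ℕ → ℕ) (t₁ n : ℕ) (b ν Y : ℝ) (X : ℕ → ℝ)
    (Nf : ℕ → ℕ → ℝ) : Prop :=
  ∀ t, t₁ ≤ t → t ≤ n → 0 ≤ X t ∧ ν + i * ow (f t) ≤ sn (k + 1) (ow (f t)) + X t ∧
    X t + Y ≤ ow (f t) - b ∧ X t + Y ≤ 1 - ow (f t) ∧
    ∀ l < k, ∀ j : ℕ, j ≤ 1 → sn l (ow (f t)) + (X t + Y) - j * ow (f t) ≤ Nf l j

/-- **The own jets along a chain**, in both directions. -/
theorem nj_E (m D k i : ℕ) : ∃ C : ℕ, 1 ≤ C ∧ ∀ {S : PCl m} {c : ℕ → Fin m}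
    {sn : ℕ → ℝ → ℝ} {G : Set ℝ} {b o φ s : ℝ} {sl : ℕ → ℝ} {Dr N M : ℕ} {C₀ a Eb ηm : ℝ}
    {ow η σ : ℕ → ℝ} {lv bb : ℕ → ℕ → ℝ} {f : ℕ → ℕ} {n : ℕ}, LadV S c k 1 sn G b o φ →
    Lnv k sn G b o φ s sl → ChW k sn G b o φ N C₀ ηm ow lv f n →
    ∀ {t₁ : ℕ} {ν ox w' ε : ℝ} {X : ℕ → ℝ} {Nf : ℕ → ℕ → ℝ}, t₁ ≤ n →
    ow (f n) ≤ ox → ox ≤ 1 → DgN k i sn ow f t₁ n b ν (C * ((s + 3) * φ)) X Nf → 0 < ε →
    Bas S (fun J F A => ∀ {κ : ℝ} {z : ℕ → ℕ → ℕ} {g₀ : ℕ → ℕ → ℕ}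
      {Gc : ℕ → PtT F → ℕ → MvPolynomial (Option (Fin m)) ℝ}
      {H : ℕ → LnT F → ℕ → MvPolynomial (Option (Fin m)) ℝ},
      ChE F c k D Dr N M C₀ a Eb ηm ow η σ lv bb f n κ z A g₀ Gc H →
      ∀ Hj : LnT F → ℕ → MvPolynomial (Option (Fin m)) ℝ,
      (∀ ω, ∀ l < k, Hj (slam F ⌊w' * J⌋₊ ω) l = H (f 0) (slam F ⌊b * J⌋₊ ω) l) → ∀ a' : ℝ,
      (CH (Pool.Agent.H49.Ent.cond F.p A True) (fun ω => ⌊(2 : ℝ) ^ (ν * J) *
        ojet F (c (k + 1)) i (slG c Gc k (f 0) (f n) (ptr F J ω)) ω⌋)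
        (fun ω => (jet2 F c ⌊w' * J⌋₊ Hj 0 k Nf ω, (cR F A ox ω, F.W ω))) ≤ a' →
      CH (Pool.Agent.H49.Ent.cond F.p A True) (fun ω => ⌊(2 : ℝ) ^ (ν * J) *
        ojet F (c (k + 1)) i (slG c Gc k (f 0) (f t₁) (ptr F J ω)) ω⌋)
        (fun ω => (jet2 F c ⌊w' * J⌋₊ Hj 0 k Nf ω, (cR F A ox ω, F.W ω))) ≤ a' + ε * J) ∧
      (CH (Pool.Agent.H49.Ent.cond F.p A True) (fun ω => ⌊(2 : ℝ) ^ (ν * J) *
        ojet F (c (k + 1)) i (slG c Gc k (f 0) (f t₁) (ptr F J ω)) ω⌋)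
        (fun ω => (jet2 F c ⌊w' * J⌋₊ Hj 0 k Nf ω, (cR F A ox ω, F.W ω))) ≤ a' →
      CH (Pool.Agent.H49.Ent.cond F.p A True) (fun ω => ⌊(2 : ℝ) ^ (ν * J) *
        ojet F (c (k + 1)) i (slG c Gc k (f 0) (f n) (ptr F J ω)) ω⌋)
        (fun ω => (jet2 F c ⌊w' * J⌋₊ Hj 0 k Nf ω, (cR F A ox ω, F.W ω))) ≤ a' + ε * J)) := by
  classical
  obtain ⟨Cq, hCq, hdn⟩ := nj_dn m k D i
  obtain ⟨Cp, hCp, hup⟩ := nj_up m k D i
  refine ⟨Cq + Cp + 20 * k + 64, by omega, ?_⟩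
  intro S c sn G b o φ s sl Dr N M C₀ a Eb ηm ow η σ lv bb f n L hl hw t₁ ν ox w' ε X Nf
    ht₁ hox hox1 hD hε
  have hs := hl.s0
  have hφ := L.φ0
  obtain ⟨y, hy⟩ : ∃ y : ℝ, y = (s + 3) * φ := ⟨_, rfl⟩
  have hsφ : 0 ≤ s * φ := mul_nonneg hs hφ.le
  have hy3 : y = s * φ + 3 * φ := by rw [hy]; ring
  have hy0 : 0 < y := by linarith
  have hk0 : (0 : ℝ) ≤ k := Nat.cast_nonneg k
  have hi0 : (0 : ℝ) ≤ i := Nat.cast_nonneg i
  obtain ⟨Cy, hCy⟩ : ∃ Cy : ℝ, Cy = ((Cq + Cp + 20 * k + 64 : ℕ) : ℝ) * y := ⟨_, rfl⟩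
  have hCy1 : Cy = Cq * y + Cp * y + (20 * k + 64) * y := by
    rw [hCy]
    push_cast
    ring
  have hCq0 : 0 ≤ (Cq : ℝ) * y := by positivity
  have hCp0 : 0 ≤ (Cp : ℝ) * y := by positivity
  have hky : (20 * k + 64) * φ ≤ (20 * (k : ℝ) + 64) * y - (20 * (k : ℝ) + 64) * (2 * φ) := by
    have h1 : (20 * (k : ℝ) + 64) * (3 * φ) ≤ (20 * (k : ℝ) + 64) * y :=
      mul_le_mul_of_nonneg_left (by linarith) (by positivity)
    linarith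
  have hkφ : 0 ≤ 20 * (k : ℝ) * φ := by positivity
  rw [← hy, ← hCy] at hD
  obtain ⟨v, hv⟩ : ∃ v : ℕ → ℝ, v = fun t => ow (f t) := ⟨_, rfl⟩
  have hvt : ∀ t, ow (f t) = v t := fun t => by rw [hv]
  have hv01 : ∀ t ≤ n, 0 ≤ ow (f t) ∧ ow (f t) < 1 := fun t ht =>
    ⟨L.b0.trans (hw.bo ht), lt_of_le_of_lt (hw.oo t ht) L.o1⟩
  have hvmo : ∀ t ≤ n, ∀ t' ≤ t, v t' ≤ v t := fun t ht t' ht' => by
    rw [← hvt, ← hvt]
    exact hw.mo t ht t' ht'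
  obtain ⟨ρ, hρ⟩ : ∃ ρ : ℕ → ℝ, ρ = fun t => |X t| + (Cq * y + Cp * y) := ⟨_, rfl⟩
  have hρt : ∀ t, ρ t = |X t| + (Cq * y + Cp * y) := fun t => by rw [hρ]
  have hCq1 : y ≤ Cq * y := le_mul_of_one_le_left hy0.le (by exact_mod_cast hCq)
  have hρy : ∀ t, y ≤ ρ t := fun t => by
    rw [hρt]
    linarith [abs_nonneg (X t)]
  have hρX : ∀ t, t₁ ≤ t → t ≤ n → ρ t = X t + (Cq * y + Cp * y) := fun t h1 h2 => by
    rw [hρt, abs_of_nonneg (hD t h1 h2).1]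
  obtain ⟨n', hn'⟩ : ∃ n' : ℕ → ℕ → ℝ, n' = fun t l =>
    sn l (v t) + ρ t + 20 * ((k : ℝ) - l) * φ + 20 * φ := ⟨_, rfl⟩
  have hn't : ∀ t, n' t = fun l : ℕ => sn l (v t) + ρ t + 20 * ((k : ℝ) - l) * φ + 20 * φ :=
    fun t => by rw [hn']
  have Ld := L.toLadR.lad
  -- the data
  obtain ⟨ε₁, hε₁⟩ : ∃ ε₁ : ℝ, ε₁ = ε / (4 * (n + 1)) := ⟨_, rfl⟩
  have hε₁0 : 0 < ε₁ := by rw [hε₁]; positivity
  have hdat : Bas S (fun J F A => ∀ t < n + 1, t₁ < t →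
      ∀ Hb Hv H : LnT F → ℕ → MvPolynomial (Option (Fin m)) ℝ,
      LV F c k D b φ 1 sn A Hb → LV F c k D (v t) φ 1 sn A Hv →
      (∀ ω, ∀ l < k, H (slam F ⌊w' * J⌋₊ ω) l = Hb (slam F ⌊b * J⌋₊ ω) l) →
      CH (Pool.Agent.H49.Ent.cond F.p A True) (fun ω (x : Fin k × Fin (i + 1)) =>
          ⌊(2 : ℝ) ^ ((n' t x.1 - ((x.2 : ℕ) : ℝ) * v t) * J) *
            ojet F (c x.1) x.2 (Hv (slam F ⌊v t * J⌋₊ ω) x.1) ω⌋)
        (fun ω => (jet2 F c ⌊w' * J⌋₊ H 0 k Nf ω, (cR F A ox ω, F.W ω))) ≤ ε₁ * J) := by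
    refine Bas.all (n + 1) fun t ht => ?_
    by_cases h1 : t₁ < t
    swap
    · exact ⟨1, one_pos, 0, fun _ _ _ _ _ h2 => absurd h2 h1⟩
    have htn : t ≤ n := by omega
    have hvb : b ≤ v t := by rw [← hvt]; exact hw.bo htn
    obtain ⟨d1, d2, d3, d4, d5⟩ := hD t h1.le htn
    rw [hvt] at d2 d3 d4
    have h5 := hvmo n le_rfl t htn
    have h6 := vd_ev Ld D i (w := w') (v := v t) (ow := ox) (E := 1) (n := n' t)
      (by rw [← hvt]; exact hw.oG t htn) hvb (by rw [← hvt]; exact hw.oo t htn)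
      (h5.trans (by rw [← hvt]; exact hox)) hox1 (by
        rw [hn't]
        refine nst_of hφ (hy0.le.trans (hρy t)) ?_
        rw [hρX t h1.le htn]
        linarith) (by
        intro l hl
        rw [hn't]
        have h7 := nst_le hl hφ
        show sn l (v t) + ρ t + 20 * ((k : ℝ) - l) * φ + 20 * φ - sn l (v t) + 3 * φ ≤ v t - b
        rw [hρX t h1.le htn]
        linarith) (Nf := Nf) (by
        intro l hl j hj
        refine le_trans ?_ (d5 l hl j hj)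
        rw [hn't, hvt]
        have h7 := nst_le hl hφ
        show sn l (v t) + ρ t + 20 * ((k : ℝ) - l) * φ + 20 * φ - (j : ℝ) * v t ≤
          sn l (v t) + (X t + Cy) - j * v t
        rw [hρX t h1.le htn]
        linarith) (ε := ε₁) hε₁0
    exact Bas.mono 0 h6 fun J _ F A h7 _ => h7
  -- the other inputs
  obtain ⟨M₀, J₁, hM⟩ := cnt_ev D k i ν (c := c) (Dr := Dr) (M := M) (a := a) (Eb := Eb)
    (η := η) (σ := σ) (bb := bb) L.b0 L.o1 hw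
  obtain ⟨η', hη'⟩ : ∃ η' : ℝ, η' = ε / (4 * (n + 1) * (M₀ + 1)) := ⟨_, rfl⟩
  have hη'0 : 0 < η' := by rw [hη']; positivity
  have hown := own_ev D k i (Dr := Dr) (M := M) (a := a) (Eb := Eb) (η := η) (σ := σ) (bb := bb)
    L hw hy0 hη'0
  obtain ⟨J₀, hJ₀⟩ := hdn hy0
  obtain ⟨J₀', hJ₀'⟩ := hup hy0
  obtain ⟨J₂, hJ₂⟩ := exists_nat_ge ((n : ℝ) / φ)
  obtain ⟨J₃, hJ₃⟩ := exists_nat_ge ((n : ℝ) * (Real.log 2 + Real.log 7) / (ε / 4))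
  refine Bas.mono (max (max (max J₀ J₀') J₁) (max J₂ J₃)) ((hdat.and hown).and (pos_bas L.pos)) ?_
  rintro J hJ F A ⟨⟨hdat, hown⟩, hA⟩ κ z g₀ Gc H hE Hj hHj a'
  have hJ0 : (0 : ℝ) ≤ J := Nat.cast_nonneg J
  have hJn : (n : ℝ) ≤ φ * J := by
    have h3 : (J₂ : ℝ) ≤ J := by
      exact_mod_cast (le_max_left _ _).trans ((le_max_right _ _).trans hJ)
    have h4 := hJ₂.trans h3
    rw [div_le_iff₀ hφ] at h4
    linarith
  have hJl : (n : ℝ) * (Real.log 2 + Real.log 7) ≤ ε / 4 * J := by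
    have h3 : (J₃ : ℝ) ≤ J := by
      exact_mod_cast (le_max_right _ _).trans ((le_max_right _ _).trans hJ)
    have h4 := hJ₃.trans h3
    rw [div_le_iff₀ (by positivity)] at h4
    linarith
  have hSl := sln_of L hl hw hJn hE.zz
  rw [← hy] at hSl
  have herr : (n : ℝ) * (ε₁ * J + Real.log 2 + Real.log 7 + η' * (M₀ * J)) ≤ ε * J := by
    have := sum_err (n := n) (ε := ε) (M₀ := M₀) (J := J) (a := 0) hε (Nat.cast_nonneg _) hJ0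
      (by positivity) hJl
    rw [zero_add, ← hε₁, ← hη'] at this
    exact this
  have hn'l : ∀ t ≤ n, ∀ l < k, lv (f t) l + ρ t ≤ n' t l := fun t ht l hl => by
    rw [hw.lv t ht l (by omega), hvt, hn't]
    have h7 : 0 ≤ 20 * ((k : ℝ) - l) * φ := by
      have : (l : ℝ) ≤ k := by exact_mod_cast hl.le
      have := sub_nonneg.2 this
      positivity
    show sn l (v t) + ρ t ≤ sn l (v t) + ρ t + 20 * ((k : ℝ) - l) * φ + 20 * φ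
    linarith
  have hdet : ∀ ω ν', A ω → A ν' → (jet2 F c ⌊w' * J⌋₊ Hj 0 k Nf ω, (cR F A ox ω, F.W ω)) =
      (jet2 F c ⌊w' * J⌋₊ Hj 0 k Nf ν', (cR F A ox ν', F.W ν')) → F.T ω = F.T ν' ∧
      ∀ t, t₁ ≤ t → t ≤ n →
      (∀ l < k, H (f t) (slam F ⌊ow (f t) * J⌋₊ ω) l = H (f t) (slam F ⌊ow (f t) * J⌋₊ ν') l) ∧
      slG c Gc k (f 0) (f t) (ptr F J ω) = slG c Gc k (f 0) (f t) (ptr F J ν') :=
    fun ω ν' hω hν' e => by
      obtain ⟨e1, e2⟩ := det_ev hE.W hw hox hox1 ω ν' hω hν' e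
      exact ⟨e1, fun t _ ht => ⟨fun l hl => (e2 t ht).1 l (by omega), (e2 t ht).2⟩⟩
  have hda : ∀ t, t₁ < t → t ≤ n → CH (Pool.Agent.H49.Ent.cond F.p A True)
      (fun ω (x : Fin k × Fin (i + 1)) =>
        ⌊(2 : ℝ) ^ ((n' t x.1 - ((x.2 : ℕ) : ℝ) * ow (f t)) * J) *
          ojet F (c x.1) x.2 (H (f t) (slam F ⌊ow (f t) * J⌋₊ ω) x.1) ω⌋)
        (fun ω => (jet2 F c ⌊w' * J⌋₊ Hj 0 k Nf ω, (cR F A ox ω, F.W ω))) ≤ ε₁ * J :=
    fun t h1 ht => by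
      have h2 := (lv_of hE hw (Nat.zero_le n)).take (Nat.le_succ k)
      rw [hw.ob] at h2
      have h3 := (lv_of hE hw ht).take (Nat.le_succ k)
      rw [hvt] at h3
      rw [hvt]
      exact hdat t (by omega) h1 (H (f 0)) (H (f t)) Hj h2 h3 hHj
  have hcn : ∀ t ≤ n, (cnt F.p (fun ω => ⌊(2 : ℝ) ^ (ν * J) *
      ojet F (c (k + 1)) i (slG c Gc k (f 0) (f t) (ptr F J ω)) ω⌋) A : ℝ) ≤ Real.exp (M₀ * J) :=
    fun t ht => hM J ((le_max_right _ _).trans ((le_max_left _ _).trans hJ)) hE t ht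
  constructor
  · intro hst
    have key := hJ₀ ((le_max_left _ _).trans ((le_max_left _ _).trans ((le_max_left _ _).trans hJ)))
      hA hE.W L.inj hSl hv01
      (fun ω => (jet2 F c ⌊w' * J⌋₊ Hj 0 k Nf ω, (cR F A ox ω, F.W ω))) (t₁ := t₁) (ρ := ρ)
      (ν := ν) (n' := n') (e := ε₁ * J) (η' := η') (Mc := M₀ * J) (a' := a') ht₁
      (fun t _ _ => hρy t) (fun t _ ht l hl => hn'l t ht l hl) (fun t h1 ht => by
        rw [hw.lv t ht (k + 1) le_rfl, hρX t h1.le ht]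
        linarith [(hD t h1.le ht).2.1]) hdet (fun t ht => hown hE.W t ht) (by positivity) hcn hda
      (by positivity) hst
    refine key.trans ?_
    linarith
  · intro hst
    have key := hJ₀' ((le_max_right _ _).trans ((le_max_left _ _).trans ((le_max_left _ _).trans hJ)))
      hA hE.W L.inj hSl hv01
      (fun ω => (jet2 F c ⌊w' * J⌋₊ Hj 0 k Nf ω, (cR F A ox ω, F.W ω))) (t₁ := t₁) (ρ := ρ)
      (ν := fun _ => ν) (n' := n') (e := ε₁ * J) (η' := η') (Mc := M₀ * J) (a' := a') ht₁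
      (fun t _ => hρy t) hn'l (fun t _ _ => le_rfl) (fun t h1 ht => by
        rw [hw.lv t ht (k + 1) le_rfl, hρX t h1 ht]
        linarith [(hD t h1 ht).2.1]) hdet (fun t ht => hown hE.W t ht) (by positivity) hcn hda
      (by positivity) hst
    refine key.trans ?_
    linarith

end Pool.VA48
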