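import Pool.Agent.H48.VA.Ne
import Pool.Agent.H48.VA.Lno

/-!
# The tie of a steep place and of a flatter last place

`twa_of`: `TwaStmt` from `NdaStmt`.
-/

set_option autoImplicit false

namespace Pool.VA48

open Finset Real MvPolynomial
open Pool.Agent.H49.Ent Pool.Agent.H32.Dense
open Pool.STK hiding pr2
open Pool.KA Pool.KSAT Pool.K2S Pool.PB Pool.S6C
open Pool.GEN Pool.CHT Pool.CHX Pool.ISO Pool.LA91 Pool.AVG71 Pool.AVG5 Pool.D2F2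
open Pool.RCD Pool.AVG96 Pool.OWN68 Pool.V0F Pool.V0Q Pool.V0T Pool.XR71 Pool.T4C72
open Pool.AVG57 (upw upw_slam jet2)
open Pool.AJW (CfB)
open Pool.D2R (WinB)
open Pool.GRD (LbP)
open Pool.VA83
open Pool.NVT16
open Pool.TW44 (ChW ChE LV lv_of)
open Pool.T462 (GNs HNs)
open Pool.NA98 (NEv FdE NdE nrJ tj dgA NdaStmt)

/-- The number of coordinates. -/
theorem m_of {m : ℕ} {S : PCl m} {c : ℕ → Fin m} {k : ℕ} {sn sp : ℕ → ℝ → ℝ} {G : Set ℝ}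
    {al be h b o w u Λ φ e : ℝ} {lam : ℝ → ℝ} (Bx : XBox S c k sn sp G al be h b o w u Λ φ e lam) :
    m = k + 2 := by
  have h1 := congrArg Finset.card Bx.img
  rw [Finset.card_erase_of_mem (Finset.mem_univ _), Finset.card_univ, Fintype.card_fin,
    Finset.card_image_of_injOn, Finset.card_range] at h1
  · have h2 : 0 < m := lt_of_le_of_lt (Nat.zero_le _) (c 0).2
    omega
  · intro x hx y hy hxy
    refine Bx.lad.inj ?_ ?_ hxy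
    · have := Finset.mem_range.1 (Finset.mem_coe.1 hx)
      rw [Set.mem_Iio]
      omega
    · have := Finset.mem_range.1 (Finset.mem_coe.1 hy)
      rw [Set.mem_Iio]
      omega

/-- The distance to the next integer. -/
theorem dist_nat {x : ℝ} (hx : 0 ≤ x) : ∃ μ : ℝ, 0 < μ ∧ ∀ j : ℕ, x < j → μ ≤ j - x := by
  refine ⟨((⌊x⌋₊ + 1 : ℕ) : ℝ) - x, ?_, fun j hj => ?_⟩
  · have := Nat.lt_floor_add_one x
    push_cast
    linarith
  · have h1 : ⌊x⌋₊ + 1 ≤ j := (Nat.floor_lt hx).2 hj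
    have h2 : ((⌊x⌋₊ + 1 : ℕ) : ℝ) ≤ j := by exact_mod_cast h1
    linarith

/-- **The jets known near** of both targets on one event, all orders. -/
theorem nde_ev (m D K k : ℕ) : ∃ C : ℕ, 1 ≤ C ∧ ∀ {S : PCl m} {c : ℕ → Fin m}
    {sn : ℕ → ℝ → ℝ} {G : Set ℝ} {b o φ al be : ℝ} {Dr N M : ℕ} {C₀ a Eb ηm : ℝ}
    {ow η σ : ℕ → ℝ} {lv bb : ℕ → ℕ → ℝ} {f : ℕ → ℕ} {n nb : ℕ}, LadV S c k 1 sn G b o φ →
    Lnv k sn G b o φ al (two k al be) → ChW k sn G b o φ N C₀ ηm ow lv f n →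
    nb ≤ n → ∀ {w u R μ r₀ ε : ℝ}, w = ow (f nb) → |ow (f n) - (w + u)| ≤ φ →
    0 < u → 1 ≤ be → be < al → 0 < ε → C * ((al + 3) * φ) ≤ sn (k + 1) b →
    C * ((al + 3) * φ) ≤ u → u + C * ((al + 3) * φ) ≤ R → C * ((al + 3) * φ) ≤ ε →
    0 < μ → (∀ j : ℕ, al < j → μ ≤ j - al) → (∀ j : ℕ, be < j → μ ≤ j - be) →
    2 ≤ μ * (r₀ - 1) → 1 ≤ r₀ → R + r₀ * u + u ≤ w - b → R ≤ 1 - w - 2 * u →
    Bas S (fun J F A => ∀ {κ : ℝ} {z : ℕ → ℕ → ℕ} {g₀ : ℕ → ℕ → ℕ}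
      {Gc : ℕ → PtT F → ℕ → MvPolynomial (Option (Fin m)) ℝ}
      {H : ℕ → LnT F → ℕ → MvPolynomial (Option (Fin m)) ℝ},
      ChE F c k D Dr N M C₀ a Eb ηm ow η σ lv bb f n κ z A g₀ Gc H →
      ∀ Hj : LnT F → ℕ → MvPolynomial (Option (Fin m)) ℝ,
      (∀ ω, ∀ l < k, Hj (slam F ⌊w * J⌋₊ ω) l = H (f 0) (slam F ⌊b * J⌋₊ ω) l) →
      ∀ i < K,
      CH (Pool.Agent.H49.Ent.cond F.p A True)
        (fun ω => ⌊(2 : ℝ) ^ ((sn k w + dgA k al be k i * u - i * w) * J) *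
          ojet F (c k) i (H (f nb) (slam F ⌊w * J⌋₊ ω) k) ω⌋)
        (fun ω => (jet2 F c ⌊w * J⌋₊ Hj 0 k (nF sn w R) ω, (cR F A (ow (f n)) ω, F.W ω))) ≤
        2 * ε * J ∧
      CH (Pool.Agent.H49.Ent.cond F.p A True)
        (fun ω => ⌊(2 : ℝ) ^ ((sn (k + 1) w + dgA k al be (k + 1) i * u - i * w) * J) *
          ojet F (c (k + 1)) i (slG c Gc k (f 0) (f nb) (ptr F J ω)) ω⌋)
        (fun ω => (jet2 F c ⌊w * J⌋₊ Hj 0 k (nF sn w R) ω, (cR F A (ow (f n)) ω, F.W ω))) ≤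
        2 * ε * J) := by
  classical
  choose C hC hnd using fun i : ℕ => nde_n m D k i
  obtain ⟨Cs, hCs⟩ : ∃ Cs : ℕ, ∀ i < K, C i ≤ Cs :=
    ⟨(range K).sup C, fun i hi => Finset.le_sup (f := C) (Finset.mem_range.2 hi)⟩
  refine ⟨Cs + 20 * k + 200, by omega, ?_⟩
  intro S c sn G b o φ al be Dr N M C₀ a Eb ηm ow η σ lv bb f n nb L hl hw hnb w u R μ r₀ ε hwd hx
    hu hbe hba hε hlev hyu hR hyε hμ0 hμ1 hμ2 hr hr1 hRb hR1
  have hφ := L.φ0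
  have hal0 : 0 < al := by linarith
  obtain ⟨y, hy⟩ : ∃ y : ℝ, y = (al + 3) * φ := ⟨_, rfl⟩
  have halφ : 0 ≤ al * φ := by positivity
  have hy3 : y = al * φ + 3 * φ := by rw [hy]; ring
  have hy0 : 0 < y := by linarith
  have hCy : ((Cs + 20 * k + 200 : ℕ) : ℝ) * y = Cs * y + 20 * k * y + 200 * y := by
    push_cast
    ring
  rw [← hy, hCy] at hlev hyu hR hyε
  have hCy0 : 0 ≤ (Cs : ℝ) * y := by positivity
  have hky0 : 0 ≤ 20 * (k : ℝ) * y := by positivity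
  have hkφ : 20 * (k : ℝ) * φ ≤ 20 * k * y := mul_le_mul_of_nonneg_left (by linarith) (by positivity)
  have hr2 : 2 ≤ μ * r₀ := by
    have : μ * (r₀ - 1) = μ * r₀ - μ := by ring
    linarith
  refine Bas.mono 0 (Bas.all K (Φ := fun i J F A => ∀ {κ : ℝ} {z : ℕ → ℕ → ℕ} {g₀ : ℕ → ℕ → ℕ}
      {Gc : ℕ → PtT F → ℕ → MvPolynomial (Option (Fin m)) ℝ}
      {H : ℕ → LnT F → ℕ → MvPolynomial (Option (Fin m)) ℝ},
      ChE F c k D Dr N M C₀ a Eb ηm ow η σ lv bb f n κ z A g₀ Gc H →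
      ∀ Hj : LnT F → ℕ → MvPolynomial (Option (Fin m)) ℝ,
      (∀ ω, ∀ l < k, Hj (slam F ⌊w * J⌋₊ ω) l = H (f 0) (slam F ⌊b * J⌋₊ ω) l) →
      CH (Pool.Agent.H49.Ent.cond F.p A True)
        (fun ω => ⌊(2 : ℝ) ^ ((sn k w + dgA k al be k i * u - i * w) * J) *
          ojet F (c k) i (H (f nb) (slam F ⌊w * J⌋₊ ω) k) ω⌋)
        (fun ω => (jet2 F c ⌊w * J⌋₊ Hj 0 k (nF sn w R) ω, (cR F A (ow (f n)) ω, F.W ω))) ≤
        2 * ε * J ∧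
      CH (Pool.Agent.H49.Ent.cond F.p A True)
        (fun ω => ⌊(2 : ℝ) ^ ((sn (k + 1) w + dgA k al be (k + 1) i * u - i * w) * J) *
          ojet F (c (k + 1)) i (slG c Gc k (f 0) (f nb) (ptr F J ω)) ω⌋)
        (fun ω => (jet2 F c ⌊w * J⌋₊ Hj 0 k (nF sn w R) ω, (cR F A (ow (f n)) ω, F.W ω))) ≤
        2 * ε * J) fun i hi => ?_) fun J _ F A h κ z g₀ Gc H hE Hj hHj i hi => h i hi hE Hj hHj
  have hCi : (C i : ℝ) * y ≤ Cs * y :=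
    mul_le_mul_of_nonneg_right (by exact_mod_cast hCs i hi) hy0.le
  have g1 := nde_u m D k i (Dr := Dr) (M := M) (a := a) (Eb := Eb) (η := η) (σ := σ) (bb := bb)
    L hl hw hnb hwd hx hu (by linarith : 1 < al) hε (by linarith) (R := R) (by linarith) hμ0 hμ1
    hr hr1 hRb hR1
  have g2 := hnd i (Dr := Dr) (M := M) (a := a) (Eb := Eb) (η := η) (σ := σ) (bb := bb)
    L hl hw hnb hwd hx hu hbe hba hε (R := R) (by rw [← hy]; linarith) (by rw [← hy]; linarith)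
    (by rw [← hy]; linarith) hμ0 hμ2 hr2 hr1 hRb hR1
  refine Bas.mono 0 (g1.and g2) ?_
  rintro J - F A ⟨h1, h2⟩ κ z g₀ Gc H hE Hj hHj
  have hJ : (0 : ℝ) ≤ J := Nat.cast_nonneg J
  refine ⟨(h1 hE Hj hHj).trans (mul_le_mul_of_nonneg_right ?_ hJ),
    (h2 hE Hj hHj).trans (mul_le_mul_of_nonneg_right ?_ hJ)⟩
  · rw [← hy]
    linarith
  · rw [← hy]
    linarith

end Pool.VA48
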