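import Pool.Agent.H48.VA.Twa

/-!
# The tie of a steep place and of a flatter last place

`twa_of`: `TwaStmt` from `NdaStmt`.
-/

set_option autoImplicit false

namespace Pool.VA48

open Finset Real MvPolynomial
open Pool.Agent.H49.Ent Pool.Agent.H32.Dense
open Pool.STK hiding pr2
open Pool.KA Pool.KSAT Pool.K2S Pool.PB Pool.S6C
open Pool.GEN Pool.CHT Pool.CHX Pool.ISO Pool.LA91 Pool.AVG71 Pool.AVG5 Pool.D2F2
open Pool.RCD Pool.AVG96 Pool.OWN68 Pool.V0F Pool.V0Q Pool.V0T Pool.XR71 Pool.T4C72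
open Pool.AVG57 (upw upw_slam jet2)
open Pool.AJW (CfB)
open Pool.D2R (WinB)
open Pool.GRD (LbP)
open Pool.VA83
open Pool.NVT16
open Pool.TW44 (ChW ChE LV lv_of)
open Pool.T462 (GNs HNs)
open Pool.NA98 (NEv FdE NdE nrJ tj dgA NdaStmt)

/-- **(TWA)** from (NDA). -/
theorem twa_of (hN : NdaStmt) : TwaStmt := by
  classical
  intro k al be h lam0 hk hbe hba hh0 hh1 hl0 hl1 hl2 D hD
  obtain ⟨D', hD'⟩ : ∃ D', D' = D * D + D := ⟨_, rfl⟩
  have hDD : D ≤ D' := by rw [hD']; exact Nat.le_add_left _ _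
  have hDs : D * D ≤ D' := by rw [hD']; exact Nat.le_add_right _ _
  have hD1 : 1 ≤ D' := hD.trans hDD
  have hal0 : 0 < al := by linarith
  have hba0 : 0 < be / al := by positivity
  have hba1 : be / al ≤ 1 := by
    rw [div_le_one hal0]
    exact hba.le
  refine ⟨D', D' + 1, hDD, ?_⟩
  intro ξ hξ0 hξ1 hbx δ hδ
  obtain ⟨δ₂, hδ₂, hNd⟩ := hN k D' al be h (δ / 2) hk hD1 hbe hba hh0 hh1 (half_pos hδ)
  -- the errors
  obtain ⟨δf, hδf⟩ : ∃ δf, δf = min δ δ₂ := ⟨_, rfl⟩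
  have hδf0 : 0 < δf := by rw [hδf]; exact lt_min hδ hδ₂
  have hδf1 : δf ≤ δ := by rw [hδf]; exact min_le_left _ _
  have hδf2 : δf ≤ δ₂ := by rw [hδf]; exact min_le_right _ _
  obtain ⟨ηf, hηf⟩ : ∃ ηf, ηf = δf / (2 * ((D' + 2 : ℕ) : ℝ)) := ⟨_, rfl⟩
  have hηf0 : 0 < ηf := by rw [hηf]; positivity
  have hηf1 : ((D' + 2 : ℕ) : ℝ) * ηf = δf / 2 := by
    rw [hηf]
    have : ((D' + 2 : ℕ) : ℝ) ≠ 0 := by positivity
    field_simp
  obtain ⟨δ₁, hδ₁⟩ : ∃ δ₁ : ℝ, δ₁ = ηf / (2 * (1 + 2 * (((k + 1) * (D' + 1 + 1) : ℕ) : ℝ))) :=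
    ⟨_, rfl⟩
  have hδ₁0 : 0 < δ₁ := by rw [hδ₁]; positivity
  have hδ₁1 : δ₁ * (1 + 2 * (((k + 1) * (D' + 1 + 1) : ℕ) : ℝ)) = ηf / 2 := by
    rw [hδ₁]
    have : 1 + 2 * (((k + 1) * (D' + 1 + 1) : ℕ) : ℝ) ≠ 0 := by positivity
    field_simp
  refine ⟨3, δ₁, hδ₁0, ?_⟩
  intro τ hτ
  have hτ1 : (1 : ℝ) ≤ τ := by exact_mod_cast hτ
  refine ⟨be * τ + 10, ?_⟩
  intro T hT
  have hbτ : 0 < be * τ := by positivity
  obtain ⟨φ₂, Λ₀, hφ₂, hNd⟩ := hNd T (by linarith)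
  obtain ⟨μ₁, hμ₁, hμ₁'⟩ := dist_nat hal0.le
  obtain ⟨μ₂, hμ₂, hμ₂'⟩ := dist_nat (show 0 ≤ be by linarith)
  obtain ⟨μ, hμ⟩ : ∃ μ, μ = min μ₁ μ₂ := ⟨_, rfl⟩
  have hμ0 : 0 < μ := by rw [hμ]; exact lt_min hμ₁ hμ₂
  have hμa : ∀ j : ℕ, al < j → μ ≤ j - al := fun j hj => by
    rw [hμ]
    exact (min_le_left _ _).trans (hμ₁' j hj)
  have hμb : ∀ j : ℕ, be < j → μ ≤ j - be := fun j hj => by
    rw [hμ]
    exact (min_le_right _ _).trans (hμ₂' j hj)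
  obtain ⟨r₀, hr₀⟩ : ∃ r₀ : ℝ, r₀ = 1 + (be * τ + 2) / μ := ⟨_, rfl⟩
  have hr1 : 1 ≤ r₀ := by
    rw [hr₀]
    have : 0 ≤ (be * τ + 2) / μ := by positivity
    linarith
  have hrm : μ * (r₀ - 1) = be * τ + 2 := by
    rw [hr₀]
    field_simp
    ring
  obtain ⟨Λ, hΛ⟩ : ∃ Λ, Λ = max Λ₀ (T + r₀ + τ + 20) := ⟨_, rfl⟩
  have hΛ0 : Λ₀ ≤ Λ := by rw [hΛ]; exact le_max_left _ _
  have hΛ1 : T + r₀ + τ + 20 ≤ Λ := by rw [hΛ]; exact le_max_right _ _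
  refine ⟨Λ, by linarith, ?_⟩
  intro φ hφ
  -- the closeness
  obtain ⟨ψ, hψ⟩ : ∃ ψ : ℝ, ψ = min (min φ φ₂) (1 / (400 * ((k : ℝ) + 2))) := ⟨_, rfl⟩
  have hψ0 : 0 < ψ := by rw [hψ]; exact lt_min (lt_min hφ hφ₂) (by positivity)
  have hψ1 : ψ ≤ φ := by rw [hψ]; exact (min_le_left _ _).trans (min_le_left _ _)
  have hψ2 : ψ ≤ φ₂ := by rw [hψ]; exact (min_le_left _ _).trans (min_le_right _ _)
  have hψ3 : 400 * ((k : ℝ) + 2) * ψ ≤ 1 := by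
    have h1 : ψ ≤ 1 / (400 * ((k : ℝ) + 2)) := by rw [hψ]; exact min_le_right _ _
    rw [le_div_iff₀ (by positivity)] at h1
    linarith
  have hψ4 : ψ ≤ 400 * ((k : ℝ) + 2) * ψ := by
    refine le_mul_of_one_le_left hψ0.le ?_
    have : (0 : ℝ) ≤ k := Nat.cast_nonneg k
    linarith
  have hψ5 : ψ ≤ 1 := hψ4.trans hψ3
  -- the constants of the pieces
  obtain ⟨Cf, hCf, hfar⟩ := far_ev (k + 2) D (D' + 1) k
  obtain ⟨Cn, hCn, hnear⟩ := nde_ev (k + 2) D (D' + 2) k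
  obtain ⟨Cp, hCp, hpart⟩ := che_part D k
  obtain ⟨Cl, hCl, hlab⟩ := lno_ev D D' k hD hDs
  obtain ⟨Ct, hCt⟩ : ∃ Ct : ℝ, Ct = (Cf + Cn + Cp + Cl : ℕ) := ⟨_, rfl⟩
  have hCt1 : Ct = (Cf : ℝ) + Cn + Cp + Cl := by rw [hCt]; push_cast; ring
  have hCt0 : 1 ≤ Ct := by
    rw [hCt]
    exact_mod_cast (by omega : 1 ≤ Cf + Cn + Cp + Cl)
  obtain ⟨κ₀, hκ₀⟩ : ∃ κ₀ : ℝ, κ₀ = min (min ψ (al - be)) (δ₂ / 2) := ⟨_, rfl⟩
  have hκ0 : 0 < κ₀ := by rw [hκ₀]; exact lt_min (lt_min hψ0 (by linarith)) (half_pos hδ₂)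
  have hκ1 : κ₀ ≤ ψ := by rw [hκ₀]; exact (min_le_left _ _).trans (min_le_left _ _)
  have hκ2 : κ₀ ≤ al - be := by rw [hκ₀]; exact (min_le_left _ _).trans (min_le_right _ _)
  have hκ3 : κ₀ ≤ δ₂ / 2 := by rw [hκ₀]; exact min_le_right _ _
  refine ⟨min φ₂ (κ₀ / (Ct * (al + 3))), lt_min hφ₂ (by positivity), ?_⟩
  intro m S c sn sp Gs b o w u Λ' φ' e' lam hΛ' hφe he0 hee Bx hF hwk hful e₀ ρ₀ he₀
    ⟨rk, E, hrk, hrk2, hE0, hEe, hatt⟩ h1 h2 h3 h4 hFB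
  obtain rfl : m = k + 2 := m_of Bx
  intro Dr N' M' C₀ a Eb' ηm ow η σ lv bb fb fn nb n ks hDr Wn ⟨t₀, ht₀, hot⟩
  have L := Bx.lad
  have hu := Bx.u0
  have hφ' := L.φ0
  -- the smallness
  have hφe1 : φ' ≤ φ₂ * u := hφe.trans (mul_le_mul_of_nonneg_right (min_le_left _ _) hu.le)
  have hy : Ct * ((al + 3) * φ') ≤ κ₀ * u := by
    have h5 : φ' ≤ κ₀ / (Ct * (al + 3)) * u :=
      hφe.trans (mul_le_mul_of_nonneg_right (min_le_right _ _) hu.le)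
    have h6 : Ct * (al + 3) * φ' ≤ Ct * (al + 3) * (κ₀ / (Ct * (al + 3)) * u) :=
      mul_le_mul_of_nonneg_left h5 (by positivity)
    have h7 : Ct * (al + 3) * (κ₀ / (Ct * (al + 3)) * u) = κ₀ * u := by
      have : Ct * (al + 3) ≠ 0 := by positivity
      field_simp
    linarith
  obtain ⟨y, hyd⟩ : ∃ y : ℝ, y = (al + 3) * φ' := ⟨_, rfl⟩
  have halφ : 0 ≤ al * φ' := by positivity
  have hy3 : y = al * φ' + 3 * φ' := by rw [hyd]; ring
  have hy0 : 0 < y := by linarith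
  rw [← hyd, hCt1] at hy
  have hCfy : 0 ≤ (Cf : ℝ) * y := by positivity
  have hCny : 0 ≤ (Cn : ℝ) * y := by positivity
  have hCpy : 0 ≤ (Cp : ℝ) * y := by positivity
  have hCly : 0 ≤ (Cl : ℝ) * y := by positivity
  have hyy : y ≤ ((Cf : ℝ) + Cn + Cp + Cl) * y := by
    refine le_mul_of_one_le_left hy0.le ?_
    rw [← hCt1]
    exact hCt0
  have hyC : ((Cf : ℝ) + Cn + Cp + Cl) * y = Cf * y + Cn * y + Cp * y + Cl * y := by ring
  have hκψ : κ₀ * u ≤ ψ * u := mul_le_mul_of_nonneg_right hκ1 hu.le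
  have hκab : κ₀ * u ≤ (al - be) * u := mul_le_mul_of_nonneg_right hκ2 hu.le
  have hκδ : κ₀ * u ≤ δ₂ / 2 * u := mul_le_mul_of_nonneg_right hκ3 hu.le
  have hψu : ψ * u ≤ u := mul_le_of_le_one_left hu.le hψ5
  have hψφ : ψ * u ≤ φ * u := mul_le_mul_of_nonneg_right hψ1 hu.le
  have hψφ₂ : ψ * u ≤ φ₂ * u := mul_le_mul_of_nonneg_right hψ2 hu.le
  have hφψ : φ' ≤ ψ * u := by linarith
  have hψu0 : 0 < ψ * u := by positivity
  have hψR : 400 * ((k : ℝ) + 2) * (ψ * u) ≤ u := by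
    have := mul_le_mul_of_nonneg_right hψ3 hu.le
    linarith
  have hψR0 : ψ * u ≤ 400 * ((k : ℝ) + 2) * (ψ * u) := by
    have := mul_le_mul_of_nonneg_right hψ4 hu.le
    linarith
  -- the room
  have hΛu : (T + r₀ + τ + 20) * u ≤ Λ' * u := mul_le_mul_of_nonneg_right (hΛ1.trans hΛ') hu.le
  have hΛe : (T + r₀ + τ + 20) * u = T * u + r₀ * u + τ * u + 20 * u := by ring
  rw [hΛe] at hΛu
  have hTu : 0 ≤ T * u := mul_nonneg (by linarith) hu.le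
  have hru : u ≤ r₀ * u := le_mul_of_one_le_left hu.le hr1
  have hτu : u ≤ τ * u := le_mul_of_one_le_left hu.le hτ1
  have hbw := Bx.bw
  have hwo := Bx.wo
  have ho1 := Bx.o1
  have hb0 := Bx.b0
  -- the chain
  obtain ⟨f, hf⟩ : ∃ f, f = fcn fb fn nb := ⟨_, rfl⟩
  have hw : ChW k sn Gs b o φ' N' C₀ ηm ow lv f (nb + n) := by
    rw [hf]
    exact chw_of Wn (by linarith)
  have hl := lnv_of Bx
  have hf0 : f 0 = fb 0 := by rw [hf]; exact fcn_zero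
  have hfn : f nb = fn 0 := by rw [hf, Wn.eq]; exact fcn_nb
  have hfe : f (nb + n) = fn n := by rw [hf]; exact fcn_hi Wn.eq n
  have hwn : w = ow (f nb) := by rw [hfn, Wn.ow0]
  have hob : ow (f 0) = b := hw.ob
  have hx : |ow (f (nb + n)) - (w + u)| ≤ φ' := by rw [hfe]; exact Wn.on
  have hwnb := hw.take (Nat.le_add_right nb n)
  have hwG : w ∈ Gs := Bx.wG
  have hlev : ∀ l, k ≤ l → l ≤ k + 1 → ψ * u ≤ sn l w := fun l a1 a2 => by
    have h5 := L.st l a1 a2 _ L.bG _ hwG le_rfl (by linarith) (by linarith)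
    have h6 := (Bx.room l a2).1
    linarith
  have hsb := (Bx.room (k + 1) le_rfl).1
  -- the statements on the class
  have p1 := hpart (Dr := Dr) (M := M') (a := a) (Eb := Eb') (η := η) (σ := σ) (bb := bb) L hl hw
    (by rw [← hyd]; linarith)
  have p2 := bas_ev (hlab (Dr := Dr) (M := M') (a := a) (Eb := Eb') (η := η) (σ := σ) (bb := bb)
    (w := w) (u := u) (φ := ψ * u) (e₀ := e₀) (ρ₀ := ρ₀) (rk := rk) (E := E) L hl hwnb hwn hu hψu0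
    hψu (by rw [← hyd]; linarith) hlev
    (fun l hl => by
      have := Wn.Eb l hl
      linarith) hwk hful hE0 hEe hatt h1 h2) (κ := 1 / 2) (by norm_num)
  have p3 := bas_ev (Bas.all (D' + 1) (Φ := fun i J F A => ∀ {κ : ℝ} {z : ℕ → ℕ → ℕ}
      {g₀ : ℕ → ℕ → ℕ} {Gc : ℕ → PtT F → ℕ → MvPolynomial (Option (Fin (k + 2))) ℝ}
      {H : ℕ → LnT F → ℕ → MvPolynomial (Option (Fin (k + 2))) ℝ},
      ChE F c k D Dr N' M' C₀ a Eb' ηm ow η σ lv bb f nb κ z A g₀ Gc H →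
      ∀ Hj : LnT F → ℕ → MvPolynomial (Option (Fin (k + 2))) ℝ,
      (∀ ω, ∀ l < k, Hj (slam F ⌊w * J⌋₊ ω) l = H (f 0) (slam F ⌊b * J⌋₊ ω) l) →
      CH (Pool.Agent.H49.Ent.cond F.p A True)
        (fun ω => ⌊(2 : ℝ) ^ ((sn k w + (1 + ξ) * u - ((i + 1 : ℕ) : ℝ) * w) * J) *
          ojet F (c k) (i + 1) (H (f nb) (slam F ⌊w * J⌋₊ ω) k) ω⌋)
        (fun ω => (jet2 F c ⌊w * J⌋₊ Hj 0 k (nF sn w (T * u)) ω, (cR F A w ω, F.W ω))) ≤
        (δ₁ * u + ηf * u / 2) * J ∧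
      CH (Pool.Agent.H49.Ent.cond F.p A True)
        (fun ω => ⌊(2 : ℝ) ^ ((sn (k + 1) w + be / al * (1 + ξ) * u - ((i + 1 : ℕ) : ℝ) * w) * J) *
          ojet F (c (k + 1)) (i + 1) (slG c Gc k (f 0) (f nb) (ptr F J ω)) ω⌋)
        (fun ω => (jet2 F c ⌊w * J⌋₊ Hj 0 k (nF sn w (T * u)) ω, (cR F A w ω, F.W ω))) ≤
        (δ₁ * u + ((k + 1) * (D' + 1 + 1) : ℕ) * (2 * (δ₁ * u)) + ηf * u / 2) * J)
      fun i hi => hfar (Dr := Dr) (M := M') (a := a) (Eb := Eb') (η := η) (σ := σ) (bb := bb)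
        (t₀ := t₀) (τ := τ) (Cf := 3) (dk := 1 + ξ) (dn := be / al * (1 + ξ)) (r₀ := r₀) L hl hwnb
        hwn ht₀ (by
          have e1 : f t₀ = fb t₀ := by rw [hf]; exact fcn_lo ht₀
          rw [e1]
          exact hot) hu hbe hba hδ₁0 (by positivity) hτ (by linarith) (by linarith) (by positivity)
        hbx (by linarith) (by rw [← hyd]; linarith) (by rw [← hyd]; linarith)
        (by rw [← hyd]; linarith) hμ0 hμa (by linarith) hr1 (by linarith) (by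
          have e1 : (T + r₀ + τ + 1) * u = T * u + r₀ * u + τ * u + u := by ring
          linarith) (by linarith) hF (i + 1) (Nat.succ_le_succ (Nat.zero_le i)) (by omega))
      (κ := 1 / 32) (by norm_num)
  have p4 := bas_ev (hnear (Dr := Dr) (M := M') (a := a) (Eb := Eb') (η := η) (σ := σ) (bb := bb)
    (nb := nb) (w := w) (u := u) (R := u + 400 * ((k : ℝ) + 2) * (ψ * u)) (μ := μ) (r₀ := r₀)
    (ε := δ₂ / 2 * u) L hl hw (Nat.le_add_right nb n) hwn hx hu hbe hba (by positivity)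
    (by rw [← hyd]; linarith) (by rw [← hyd]; linarith) (by rw [← hyd]; linarith)
    (by rw [← hyd]; linarith) hμ0 hμa hμb (by linarith) hr1 (by linarith) (by linarith))
    (κ := 1 / 32) (by norm_num)
  have p5 := bas_ev (hNd Bx (by linarith) he0 (hee.trans (min_le_left _ _)) (x := ow (f (nb + n)))
    (φ := ψ * u) hFB hφψ hψφ₂ (by linarith) (hx.trans hφe1) 1) (κ := 1 / 32) (by norm_num)
  obtain ⟨J₁, hJ₁⟩ := exists_nat_ge (eCd (D' + 1) / (δf / 2 * u))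
  obtain ⟨J₂, hJ₂⟩ := exists_nat_ge ((k : ℝ) * (2 * Real.log 5) / (δ / 2 * u))
  refine ⟨1 / 32, 1, by norm_num, one_pos, ?_⟩
  refine Bas.mono (max J₁ J₂) ((p1.and p2).and ((p3.and p4).and (p5.and (pos_bas L.pos)))) ?_
  rintro J hJ F A ⟨⟨q1, q2⟩, ⟨q3, q4⟩, q5, hA⟩ κ z g₀ Gc H hκ W hR hcb
  have hJ0 : (0 : ℝ) ≤ J := Nat.cast_nonneg J
  have hJ1 : eCd (D' + 1) ≤ δf / 2 * u * J := by
    have h5 : (J₁ : ℝ) ≤ J := by exact_mod_cast (le_max_left _ _).trans hJ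
    have h6 := hJ₁.trans h5
    rw [div_le_iff₀ (by positivity)] at h6
    linarith
  have hJ2 : (k : ℝ) * (2 * Real.log 5) ≤ δ / 2 * u * J := by
    have h5 : (J₂ : ℝ) ≤ J := by exact_mod_cast (le_max_right _ _).trans hJ
    have h6 := hJ₂.trans h5
    rw [div_le_iff₀ (by positivity)] at h6
    linarith
  -- the part
  obtain ⟨B₁, hB₁, hP₁, hE₁⟩ := q1 W (by
    rw [hf]
    exact zz_of Wn.eq hR)
  have hE₁ := hE₁ (2 * |κ|) (by positivity) (by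
    have := le_abs_self κ
    linarith)
  obtain ⟨B, hB, hP, hT, hO⟩ := q2 B₁ hB₁ hP₁ (hE₁.take (Nat.le_add_right nb n))
  have hE := che_sub hE₁ hB hP (κ₂ := 16 * (2 * |κ|)) (by positivity) (by linarith)
  have hBA : Sub B A := fun ω hω => hB₁ ω (hB ω hω)
  have hPB : 1 / 32 * Pe F.p A ≤ Pe F.p B := by linarith
  have hB0 : 0 < Pe F.p B := lt_of_lt_of_le (by positivity) hPB
  have hEn := hE.take (Nat.le_add_right nb n)
  have hlw := isLaw_cond F.isLaw hB0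
  rw [hob] at hT hO
  have hNe : NEv F c k D' sn b w φ' (ψ * u) 1 D' e₀ ρ₀ B (H (f 0)) (H (f nb))
      (fhT H (HNs c H k (f 0) (f nb) ⌊b * J⌋₊ ⌊w * J⌋₊) (f 0) k ⌊b * J⌋₊ ⌊w * J⌋₊) := by
    have hT' := hT
    have hO' := hO
    rw [hwn] at hT' hO'
    have := nev_of L hwnb hDD hEn hT' hO'
    rw [← hwn] at this
    exact this
  have hw0 : 0 ≤ w := by linarith
  have hw1 : w ≤ 1 := by linarith
  obtain ⟨Hf, hHf⟩ : ∃ Hf, Hf = fhT H (HNs c H k (f 0) (f nb) ⌊b * J⌋₊ ⌊w * J⌋₊) (f 0) k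
    ⌊b * J⌋₊ ⌊w * J⌋₊ := ⟨_, rfl⟩
  rw [← hHf] at hNe
  -- the far codes
  have hDj : DjA F c k D' sn b w u T δf (two k (1 + ξ) (be / al * (1 + ξ))) (f 0) H
      (HNs c H k (f 0) (f nb) ⌊b * J⌋₊ ⌊w * J⌋₊) B := by
    refine dja_of hB0 hT hw0 hw1 (x := ηf * u * J) (by positivity) (fun l a1 a2 i b1 b2 => ?_) ?_
    · obtain ⟨i, rfl⟩ : ∃ i', i = i' + 1 := ⟨i - 1, by omega⟩
      obtain ⟨c1, c2⟩ := q3 B hBA hPB i (by omega) hEn Hf hNe.hb
      rcases (show l = k ∨ l = k + 1 by omega) with rfl | rfl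
      · have e1 : two l (1 + ξ) (be / al * (1 + ξ)) l = 1 + ξ := if_pos rfl
        rw [e1]
        refine (tj_le hB0 hT _ _ _ _).1 ?_
        rw [← hHf]
        refine c1.trans (mul_le_mul_of_nonneg_right ?_ hJ0)
        have e2 : δ₁ * (1 + 2 * (((l + 1) * (D' + 1 + 1) : ℕ) : ℝ)) * u = ηf / 2 * u := by
          rw [hδ₁1]
        have e3 : 0 ≤ δ₁ * (2 * (((l + 1) * (D' + 1 + 1) : ℕ) : ℝ)) * u := by positivity
        linarith
      · have e1 : two k (1 + ξ) (be / al * (1 + ξ)) (k + 1) = be / al * (1 + ξ) :=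
          if_neg (by omega)
        rw [e1]
        refine (tj_le hB0 hT _ _ _ _).2 ?_
        rw [← hHf]
        refine c2.trans (mul_le_mul_of_nonneg_right ?_ hJ0)
        have e2 : δ₁ * (1 + 2 * (((k + 1) * (D' + 1 + 1) : ℕ) : ℝ)) * u = ηf / 2 * u := by
          rw [hδ₁1]
        linarith
    · have e1 : ((D' + 2 : ℕ) : ℝ) * (ηf * u * J) = ((D' + 2 : ℕ) : ℝ) * ηf * (u * J) := by ring
      rw [e1, hηf1]
      linarith
  have hFd := fde_of (d' := two k 1 (be / al)) hu.le hDj (fun l a1 a2 => by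
    rcases (show l = k ∨ l = k + 1 by omega) with rfl | rfl
    · unfold two
      rw [if_pos rfl, if_pos rfl]
      linarith
    · unfold two
      rw [if_neg (by omega), if_neg (by omega)]
      exact le_mul_of_one_le_right hba0.le (by linarith)) hδf2
  rw [← hHf] at hFd
  -- the near jets
  have hnF : nF sn w (u + 400 * ((k : ℝ) + 2) * (ψ * u)) = fun (l' j' : ℕ) =>
      sn l' w + u + 400 * ((k : ℝ) + 2) * (ψ * u) - (j' : ℝ) * w := by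
    funext l' j'
    unfold nF
    ring
  have hNde : NdE F c k D' sn al be w u (ψ * u) δ₂ (ow (f (nb + n))) Hf B := by
    intro l a1 a2 i hi
    obtain ⟨c1, c2⟩ := q4 B hBA hPB hE Hf hNe.hb i (by omega)
    rw [hnF] at c1 c2
    have e2 : 2 * (δ₂ / 2 * u) * (J : ℝ) = δ₂ * u * J := by ring
    rw [e2] at c1 c2
    rcases (show l = k ∨ l = k + 1 by omega) with rfl | rfl
    · have c3 := (tj_le (V₀ := ⌊b * J⌋₊) (V₁ := ⌊w * J⌋₊) hB0 hT _ _ _ _).1 c1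
      rw [← hHf] at c3
      exact c3
    · have c3 := (tj_le (V₀ := ⌊b * J⌋₊) (V₁ := ⌊w * J⌋₊) hB0 hT _ _ _ _).2 c2
      rw [← hHf] at c3
      exact c3
  have hJt := q5 B hBA hPB _ _ _ hNe hFd hNde
  refine ⟨B, GNs c Gc k (f 0) (f nb), HNs c H k (f 0) (f nb) ⌊b * J⌋₊ ⌊w * J⌋₊, hBA, hPB, ?_,
    lno_mono hO hψφ fun _ h => h, ?_, ?_⟩
  · have := lbt_mono hT hψφ
    rw [hfn] at this ⊢
    exact this
  · intro l a1 a2 M hM
    have := hDj l a1 a2 M hM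
    rw [hf0] at this ⊢
    exact this.trans (mul_le_mul_of_nonneg_right (mul_le_mul_of_nonneg_right hδf1 hu.le) hJ0)
  · intro l a1 a2 M hM
    have hM' : (M : ℝ) ≤ (sn l w + two k 1 (be / al) l * u) * J := by
      refine hM.trans (mul_le_mul_of_nonneg_right ?_ hJ0)
      have : two k 1 lam0 l ≤ two k 1 (be / al) l := by
        unfold two
        split_ifs
        · exact le_rfl
        · exact hl1
      have := mul_le_mul_of_nonneg_right this hu.le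
      linarith
    have c1 := hJt l a1 a2 M hM'
    have e1 : (fun s' => Hf s' l) = fun s' => HNs c H k (f 0) (f nb) ⌊b * J⌋₊ ⌊w * J⌋₊ s' l := by
      funext s'
      rw [hHf]
      exact if_neg (by omega)
    rw [e1] at c1
    have c2 := ch_jt (x' := ow (f (nb + n))) hB0 (c := c) (k := k) (W := ⌊w * J⌋₊) (H := Hf)
      (N := fun (l' j' : ℕ) => sn l' w + u + 400 * ((k : ℝ) + 2) * (ψ * u) - (j' : ℝ) * w)
      (N' := fun (l' j' : ℕ) => sn l' w + u + 400 * ((k : ℝ) + 2) * (φ * u) - (j' : ℝ) * w)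
      (fun l' _ j' _ => by
        have : 400 * ((k : ℝ) + 2) * (ψ * u) ≤ 400 * ((k : ℝ) + 2) * (φ * u) :=
          mul_le_mul_of_nonneg_left hψφ (by positivity)
        linarith) (le_refl (ow (f (nb + n)))) ((hw.oo _ le_rfl).trans (by linarith))
      (Pool.AVG57.cod F ⌊w * J⌋₊ (fun s' => HNs c H k (f 0) (f nb) ⌊b * J⌋₊ ⌊w * J⌋₊ s' l) (c l) M 0
        (D' + 1))
    have c3 : CH (Pool.Agent.H49.Ent.cond F.p B True)
        (Pool.AVG57.cod F ⌊w * J⌋₊ (fun s' => HNs c H k (f 0) (f nb) ⌊b * J⌋₊ ⌊w * J⌋₊ s' l) (c l) M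
          0 (D' + 1))
        (fun ω => (jet2 F c ⌊w * J⌋₊ Hf 0 k
          (fun l' j' => sn l' w + u + 400 * ((k : ℝ) + 2) * (φ * u) - (j' : ℝ) * w) ω,
          (cR F B (ow (f (nb + n))) ω, F.W ω))) ≤ δ * u * J := by
      refine c2.trans ?_
      have c4 : CH (Pool.Agent.H49.Ent.cond F.p B True)
        (Pool.AVG57.cod F ⌊w * J⌋₊ (fun s' => HNs c H k (f 0) (f nb) ⌊b * J⌋₊ ⌊w * J⌋₊ s' l) (c l) M
          0 (D' + 1))
        (fun ω => (jet2 F c ⌊w * J⌋₊ Hf 0 k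
          (fun l' j' => sn l' w + u + 400 * ((k : ℝ) + 2) * (ψ * u) - (j' : ℝ) * w) ω,
          (cR F B (ow (f (nb + n))) ω, F.W ω))) ≤ δ / 2 * u * J := c1
      linarith
    rw [hHf, hfe, hf0] at c3
    rw [hf0]
    exact c3

end Pool.VA48
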