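import Pool.Agent.H48.VA.Fw

/-!
# The own jets of the steep place over labels of the windows, class level

`sl_jets`: the jets of the slope-one places. `u_chg`: a change of the label at one window. `u_chain`:
along windows, in both directions. `u_nat`: a natural jet. `u_low`, `u_hi`: from a later record, and
the orders above the slope from an early window.
-/

set_option autoImplicit false

namespace Pool.VA48

open Finset Real MvPolynomial
open Pool.Agent.H49.Ent Pool.Agent.H32.Dense Pool.STK Pool.KA Pool.KSAT Pool.K2S Pool.PB Pool.GEN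
open Pool.S6C Pool.RCD Pool.LA91 Pool.AVG96 Pool.V0F Pool.V0T
open Pool.OWN68 (F1 F0 few0_iff few_iff few0_room)
open Pool.V0R (LadR)
open Pool.TW44 (nst_of nst_le)

section

variable {m : ℕ} {S : PCl m} {c : ℕ → Fin m} {k r : ℕ} {sn : ℕ → ℝ → ℝ} {G : Set ℝ} {b o φ : ℝ}
  {α γ : ∀ J : ℕ, Fam m J → Type}
  {f : ∀ (J : ℕ) (F : Fam m J), F.Ω → α J F} {y : ∀ (J : ℕ) (F : Fam m J), F.Ω → γ J F}

/-- The digits of the slope-one places, `X` behind the natural ones of the window `v`. -/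
noncomputable def nX (k : ℕ) (sn : ℕ → ℝ → ℝ) (φ v X : ℝ) (l j : ℕ) : ℝ :=
  sn l v + X + 20 * ((k : ℝ) - l) * φ + 20 * φ - (j : ℝ) * v

/-- **The room** for `X` digits at the window `v`; `Nf`: the known digits. -/
def Rm (k : ℕ) (sn : ℕ → ℝ → ℝ) (b φ v X : ℝ) (Nf : ℕ → ℕ → ℝ) : Prop :=
  0 ≤ X ∧ X + (20 * k + 100) * φ ≤ v - b ∧ X + (20 * k + 100) * φ ≤ 1 - v ∧
    ∀ l < k, ∀ j : ℕ, j ≤ 1 → sn l v + (X + (20 * k + 100) * φ) - j * v ≤ Nf l j

/-- **A jet of a slope-one place.** -/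
theorem sl_jet (L : LadR S c k r sn G b o φ)
    (hf : ∀ (J : ℕ) (F : Fam m J), ∃ χ : α J F → PtT F, ∀ ω, ptr F J ω = χ (f J F ω))
    (hy : Kn ((range 0).image c) 1 1 y) {v ox X : ℝ} {p : ℕ → ℝ} {Nf : ℕ → ℕ → ℝ} (hv : v ∈ G)
    (hbv : b ≤ v) (hvo : v ≤ o) (hox : v ≤ ox) (hox1 : ox ≤ 1) (hp : ∀ i < k, sn i b - φ ≤ p i)
    (hR : Rm k sn b φ v X Nf) {l : ℕ} (hl : l < k) (j' : ℕ) :
    Few S f (vg ox) y (jetQ m c 0 k b p Nf)
      (qJet m ((range l).image c) (c l) j' v (sn l v) (nX k sn φ v X l j')) := by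
  have hφ := L.φ0
  obtain ⟨h0, h1, h2, h3⟩ := hR
  have e : ∀ l j' : ℕ, nX k sn φ v X l j' =
      (fun l : ℕ => sn l v + X + 20 * ((k : ℝ) - l) * φ + 20 * φ) l - (j' : ℝ) * v :=
    fun l j' => rfl
  rw [e]
  refine vuj_jet L.lad hf hy hv hbv hvo hox hox1 (nst_of hφ h0 (by linarith)) hp
    (fun l hl => ?_) (fun l hl j hj => ?_) hl j'
  · have h7 := nst_le hl hφ
    show sn l v + X + 20 * ((k : ℝ) - l) * φ + 20 * φ - sn l v + 3 * φ ≤ v - b
    linarith
  · have h7 := nst_le hl hφ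
    refine le_trans ?_ (h3 l hl j hj)
    show sn l v + X + 20 * ((k : ℝ) - l) * φ + 20 * φ - (j : ℝ) * v ≤ _
    linarith

/-- **The jets of the slope-one places.** -/
theorem sl_jets (L : LadR S c k r sn G b o φ)
    (hf : ∀ (J : ℕ) (F : Fam m J), ∃ χ : α J F → PtT F, ∀ ω, ptr F J ω = χ (f J F ω))
    (hy : Kn ((range 0).image c) 1 1 y) {v ox X : ℝ} {p : ℕ → ℝ} {Nf : ℕ → ℕ → ℝ} (hv : v ∈ G)
    (hbv : b ≤ v) (hvo : v ≤ o) (hox : v ≤ ox) (hox1 : ox ≤ 1) (hp : ∀ i < k, sn i b - φ ≤ p i)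
    (hR : Rm k sn b φ v X Nf) (i j : ℕ) (hi : i ≤ k) :
    Few S f (vg ox) y (jetQ m c 0 k b p Nf)
      (qJets m c 0 i j (fun _ _ => v) (fun l _ => sn l v) (nX k sn φ v X)) :=
  few_qjets L.pos fun _ _ hl j' _ => sl_jet L hf hy hv hbv hvo hox hox1 hp hR (by omega) j'

/-- **A change of the label** of the place `c k` at the window `v`. -/
theorem u_chg (L : LadR S c k r sn G b o φ)
    (hf : ∀ (J : ℕ) (F : Fam m J), ∃ χ : α J F → PtT F, ∀ ω, ptr F J ω = χ (f J F ω))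
    (hy : Kn ((range 0).image c) 1 1 y) {v w₁ w₂ ox p₂ ν X η h : ℝ} {p : ℕ → ℝ} {Nf : ℕ → ℕ → ℝ}
    (hv : v ∈ G) (hw₁ : w₁ ∈ G) (hbv : b ≤ v) (hvo : v ≤ o) (hwv : w₁ ≤ v) (hw₂ : w₂ ≤ v)
    (hox : v ≤ ox) (hox1 : ox ≤ 1) (hp : ∀ i < k, sn i b - φ ≤ p i) {j : ℕ}
    (hp₁ : sn k v - 30 * φ ≤ sn k w₁) (hp₂ : sn k v - 30 * φ ≤ p₂) (hR : Rm k sn b φ v X Nf)
    (hν : ν + j * v ≤ sn k v + X)
    (H : Fw S f (vg ox) y (jetQ m c 0 k b p Nf)
      (qJet m ((range k).image c) (c k) j w₁ (sn k w₁) ν) η) (hh : 0 < h) :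
    Fw S f (vg ox) y (jetQ m c 0 k b p Nf)
      (qJet m ((range k).image c) (c k) j w₂ p₂ ν) (η + h) := by
  have hφ := L.φ0
  have hkφ : 0 ≤ 20 * (k : ℝ) * φ := by positivity
  have hj := sl_jets L hf hy hv hbv hvo hox hox1 hp hR k j le_rfl
  obtain ⟨h0, h1, h2, h3⟩ := hR
  have hmin : sn k v - 30 * φ ≤ min (sn k w₁) p₂ := le_min hp₁ hp₂
  have hik : ∀ i < k, 20 * φ ≤ 20 * ((k : ℝ) - i) * φ ∧ 20 * ((k : ℝ) - i) * φ ≤ 20 * k * φ :=
    fun i hi => by
      have a1 : ((i + 1 : ℕ) : ℝ) ≤ k := by exact_mod_cast hi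
      have a2 : (0 : ℝ) ≤ i := Nat.cast_nonneg i
      push_cast at a1
      constructor <;> nlinarith
  have key := fw_chg (h := h / 2) (η₀ := h / 2) L hf hy (v := v) (w₁ := w₁) (w₂ := w₂) (ox := ox)
    (p₂ := p₂)
    (ν := ν) hv hw₁ hwv hw₂ hox hox1 (Nat.le_add_right k r) (j := j)
    (x := fun i => X + 20 * ((k : ℝ) - i) * φ + 19 * φ) (Nx := nX k sn φ v X)
    (fun i hi => by linarith [(hik i hi).1]) (fun i hi => by linarith [(hik i hi).2])
    (fun i hi i' hi' => by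
      have a1 : ((i' + 1 : ℕ) : ℝ) ≤ i := by exact_mod_cast hi'
      push_cast at a1
      nlinarith) (fun i hi j' hj' => by
      unfold nX
      linarith) (by linarith) (fun i hi => by linarith [(hik i hi).1])
    (Fw.of_few hj (half_pos hh)) H (half_pos hh)
  exact key.mono (by linarith)

/-- **Along the windows** between `w` and `x`, in both directions. -/
theorem u_chain (L : LadR S c k r sn G b o φ)
    (hf : ∀ (J : ℕ) (F : Fam m J), ∃ χ : α J F → PtT F, ∀ ω, ptr F J ω = χ (f J F ω))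
    (hy : Kn ((range 0).image c) 1 1 y) {w x ox ν η h : ℝ} {p : ℕ → ℝ} {Nf : ℕ → ℕ → ℝ}
    (hw : w ∈ G) (hx : x ∈ G) (hbw : b ≤ w) (hwx : w ≤ x) (hxo : x ≤ o) (hox : x ≤ ox)
    (hox1 : ox ≤ 1) (hp : ∀ i < k, sn i b - φ ≤ p i) {j : ℕ}
    (hR : ∀ v ∈ G, w ≤ v → v ≤ x → ∃ X, Rm k sn b φ v X Nf ∧ ν + j * v ≤ sn k v + X)
    (hh : 0 < h) :
    (Fw S f (vg ox) y (jetQ m c 0 k b p Nf)
      (qJet m ((range k).image c) (c k) j x (sn k x) ν) η →
    Fw S f (vg ox) y (jetQ m c 0 k b p Nf)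
      (qJet m ((range k).image c) (c k) j w (sn k w) ν) (η + h)) ∧
    (Fw S f (vg ox) y (jetQ m c 0 k b p Nf)
      (qJet m ((range k).image c) (c k) j w (sn k w) ν) η →
    Fw S f (vg ox) y (jetQ m c 0 k b p Nf)
      (qJet m ((range k).image c) (c k) j x (sn k x) ν) (η + h)) := by
  have hφ := L.φ0
  obtain ⟨M, B, hB0, hBM, hBG, hBs⟩ := lad_mesh L hw hx hbw hwx hxo
  have hM : (0 : ℝ) < (M : ℝ) + 1 := by positivity
  have hst : ∀ t < M, ∀ η : ℝ, (Fw S f (vg ox) y (jetQ m c 0 k b p Nf)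
      (qJet m ((range k).image c) (c k) j (B (t + 1)) (sn k (B (t + 1))) ν) η →
      Fw S f (vg ox) y (jetQ m c 0 k b p Nf)
      (qJet m ((range k).image c) (c k) j (B t) (sn k (B t)) ν) (η + h / (M + 1))) ∧
      (Fw S f (vg ox) y (jetQ m c 0 k b p Nf)
      (qJet m ((range k).image c) (c k) j (B t) (sn k (B t)) ν) η →
      Fw S f (vg ox) y (jetQ m c 0 k b p Nf)
      (qJet m ((range k).image c) (c k) j (B (t + 1)) (sn k (B (t + 1))) ν)
        (η + h / (M + 1))) := by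
    intro t ht η
    obtain ⟨g1, g2, g3⟩ := hBG t ht.le
    obtain ⟨g4, g5, g6⟩ := hBG (t + 1) ht
    obtain ⟨g7, g8, g9⟩ := hBs t ht
    have g10 := g9 k le_rfl (by omega)
    obtain ⟨X, hX, hν⟩ := hR (B (t + 1)) g4 g5 g6
    constructor
    · intro H
      exact u_chg L hf hy (v := B (t + 1)) g4 g4 (hbw.trans g5) (g6.trans hxo) le_rfl g7
        (g6.trans hox) hox1 hp (by linarith) (by linarith) hX hν H (div_pos hh hM)
    · intro H
      exact u_chg L hf hy (v := B (t + 1)) g4 g1 (hbw.trans g5) (g6.trans hxo) g7 le_rfl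
        (g6.trans hox) hox1 hp (by linarith) (by linarith) hX hν H (div_pos hh hM)
  have hMh : (M : ℝ) * (h / (M + 1)) ≤ h := by
    rw [mul_div_assoc', div_le_iff₀ hM]
    nlinarith
  constructor
  · intro H
    have key : ∀ d ≤ M, Fw S f (vg ox) y (jetQ m c 0 k b p Nf)
        (qJet m ((range k).image c) (c k) j (B (M - d)) (sn k (B (M - d))) ν)
        (η + d * (h / (M + 1))) := by
      intro d
      induction d with
      | zero =>
        intro _
        rw [Nat.sub_zero, hBM, Nat.cast_zero, zero_mul, add_zero]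
        exact H
      | succ d ih =>
        intro hd
        have e : M - d = M - (d + 1) + 1 := by omega
        have h1 := ih (by omega)
        rw [e] at h1
        have h2 := (hst (M - (d + 1)) (by omega) _).1 h1
        refine h2.mono (le_of_eq ?_)
        push_cast
        ring
    have h1 := key M le_rfl
    rw [Nat.sub_self, hB0] at h1
    exact h1.mono (by linarith)
  · intro H
    have key : ∀ d ≤ M, Fw S f (vg ox) y (jetQ m c 0 k b p Nf)
        (qJet m ((range k).image c) (c k) j (B d) (sn k (B d)) ν) (η + d * (h / (M + 1))) := by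
      intro d
      induction d with
      | zero =>
        intro _
        rw [hB0, Nat.cast_zero, zero_mul, add_zero]
        exact H
      | succ d ih =>
        intro hd
        have h2 := (hst d (by omega) _).2 (ih (by omega))
        refine h2.mono (le_of_eq ?_)
        push_cast
        ring
    have h1 := key M le_rfl
    rw [hBM] at h1
    exact h1.mono (by linarith)

/-- **A natural jet** of the place `l`. -/
theorem u_nat {U : Type} {Q : Qt m U} (L : LadR S c k r sn G b o φ) {x ox ν η : ℝ} (hx : x ∈ G)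
    {I : Finset (Fin m)} {κ : Fin m} {j : ℕ} {pl : ℝ} (hν : ν + j * x + φ ≤ pl) (hη : 0 < η) :
    Fw S f (vg ox) y Q (qJet m I κ j x pl ν) η := by
  obtain ⟨C₀, htm⟩ := L.tm
  have hφ := L.φ0
  obtain ⟨u₁, rd, hrd, hch⟩ := L.ch.ch x hx
  exact Fw.of_few0 htm (few0_iff.2 fun h' hh => ⟨φ / 4, by linarith,
    few0_room htm hch.w0 hch.u0 hφ (by linarith) _ _ _ hh⟩) hη

/-- **A lower precision of the labels of the last place** `c (k + 1)` at the window `v`, given the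
jets of the place `c k`. -/
theorem n_chg (L : LadR S c k 1 sn G b o φ)
    (hf : ∀ (J : ℕ) (F : Fam m J), ∃ χ : α J F → PtT F, ∀ ω, ptr F J ω = χ (f J F ω))
    (hy : Kn ((range 0).image c) 1 1 y) {v ox p₂ P ν X η η' h : ℝ} {p : ℕ → ℝ} {Nf : ℕ → ℕ → ℝ}
    (hv : v ∈ G) (hbv : b ≤ v) (hvo : v ≤ o)
    (hox : v ≤ ox) (hox1 : ox ≤ 1) (hp : ∀ i < k, sn i b - φ ≤ p i) {j : ℕ} (hP0 : 0 ≤ P)
    (hp₂ : sn (k + 1) v - P ≤ p₂) (hR : Rm k sn b φ v X Nf)
    (hν : ν + j * v + P ≤ sn (k + 1) v + X) (hη' : 0 < η')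
    (hu : ∀ j' ≤ j, Fw S f (vg ox) y (jetQ m c 0 k b p Nf)
      (qJet m ((range k).image c) (c k) j' v (sn k v) (sn k v + X + 20 * φ - j' * v)) η')
    (H : Fw S f (vg ox) y (jetQ m c 0 k b p Nf)
      (qJet m ((range (k + 1)).image c) (c (k + 1)) j v (sn (k + 1) v) ν) η) (hh : 0 < h) :
    Fw S f (vg ox) y (jetQ m c 0 k b p Nf)
      (qJet m ((range (k + 1)).image c) (c (k + 1)) j v p₂ ν)
      (η + ((k + 1) * (j + 1) : ℕ) * η' + h) := by
  have hφ := L.φ0
  obtain ⟨C₀, htm⟩ := L.tm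
  have hkφ : 0 ≤ 20 * (k : ℝ) * φ := by positivity
  have hj := fun (l : ℕ) (hl : l < k) (j' : ℕ) => sl_jet L hf hy hv hbv hvo hox hox1 hp hR hl j'
  obtain ⟨h0, h1, h2, h3⟩ := hR
  have hmin : sn (k + 1) v - P ≤ min (sn (k + 1) v) p₂ := le_min (by linarith) hp₂
  have hik : ∀ i < k + 1, 0 ≤ 20 * ((k : ℝ) - i) * φ ∧ 20 * ((k : ℝ) - i) * φ ≤ 20 * k * φ :=
    fun i hi => by
      have a1 : (i : ℝ) ≤ k := by exact_mod_cast (by omega : i ≤ k)
      have a2 : (0 : ℝ) ≤ i := Nat.cast_nonneg i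
      constructor <;> nlinarith
  have H0 : Fw S f (vg ox) y (jetQ m c 0 k b p Nf)
      (qJets m c 0 (k + 1) j (fun _ _ => v) (fun l _ => sn l v) (nX k sn φ v X))
      (((k + 1) * (j + 1) : ℕ) * η') := by
    refine Fw.qjets htm hη'.le fun i _ hi j' hj' => ?_
    rcases (show i < k ∨ i = k by omega) with h4 | rfl
    · exact Fw.of_few (hj i h4 j') hη'
    · have h4 := hu j' hj'
      have e : nX i sn φ v X i j' = sn i v + X + 20 * φ - j' * v := by
        unfold nX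
        ring
      rw [e]
      exact h4
  have key := fw_chg (h := h) L hf hy (v := v) (w₁ := v) (w₂ := v) (ox := ox) (p₂ := p₂)
    (ν := ν) hv hv le_rfl le_rfl hox hox1 (le_refl (k + 1)) (j := j)
    (x := fun i => X + 20 * ((k : ℝ) - i) * φ + 19 * φ) (Nx := nX k sn φ v X)
    (fun i hi => by linarith [(hik i hi).1]) (fun i hi => by linarith [(hik i hi).2])
    (fun i hi i' hi' => by
      have a1 : ((i' + 1 : ℕ) : ℝ) ≤ i := by exact_mod_cast hi'
      push_cast at a1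
      nlinarith) (fun i hi j' hj' => by
      unfold nX
      linarith) (by linarith) (fun i hi => by linarith [(hik i hi).1]) H0 H hh
  exact key.mono (by linarith)

end

end Pool.VA48
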