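import Pool.Agent.H48.VA.Cls
import Pool.Agent.H83.VA.T2

/-!
# The chain of the windows of a box

`fcn`: the windows `fb`, then `fn`. `chw_of`: they are a chain. `zz_of`: the radii of the balls.
`lnv_of`: the slopes. `ch_jt`: more digits of the jets of the slope-one places and a later record.
-/

set_option autoImplicit false

namespace Pool.VA48

open Finset Real MvPolynomial
open Pool.Agent.H49.Ent Pool.Agent.H32.Dense
open Pool.STK hiding pr2
open Pool.KA Pool.KSAT Pool.K2S Pool.PB Pool.S6C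
open Pool.GEN Pool.CHT Pool.CHX Pool.ISO Pool.LA91 Pool.AVG71 Pool.AVG5 Pool.D2F2 Pool.AVG57
open Pool.RCD Pool.AVG96 Pool.OWN68 Pool.V0F Pool.V0Q Pool.V0T Pool.XR71 Pool.T4C72
open Pool.AJW (CfB)
open Pool.D2R (WinB)
open Pool.VA83
open Pool.TW44 (ChW ChE)

/-- The windows `fb`, then `fn`. -/
def fcn (fb fn : ℕ → ℕ) (nb t : ℕ) : ℕ := if t ≤ nb then fb t else fn (t - nb)

theorem fcn_lo {fb fn : ℕ → ℕ} {nb t : ℕ} (h : t ≤ nb) : fcn fb fn nb t = fb t := if_pos h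

theorem fcn_hi {fb fn : ℕ → ℕ} {nb : ℕ} (he : fn 0 = fb nb) (t : ℕ) :
    fcn fb fn nb (nb + t) = fn t := by
  unfold fcn
  rcases Nat.eq_zero_or_pos t with rfl | h
  · rw [Nat.add_zero, if_pos le_rfl, he]
  · rw [if_neg (by omega), Nat.add_sub_cancel_left]

theorem fcn_nb {fb fn : ℕ → ℕ} {nb : ℕ} : fcn fb fn nb nb = fb nb := if_pos le_rfl

theorem fcn_zero {fb fn : ℕ → ℕ} {nb : ℕ} : fcn fb fn nb 0 = fb 0 := if_pos (Nat.zero_le _)

section

variable {k : ℕ} {sn : ℕ → ℝ → ℝ} {Gs : Set ℝ} {s b w u Λ φ : ℝ} {N : ℕ} {C₀ Eb ηm : ℝ}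
  {ow : ℕ → ℝ} {lv : ℕ → ℕ → ℝ} {fb fn : ℕ → ℕ} {nb n ks : ℕ}

/-- The chain of the windows of a box. -/
theorem chw_of {o : ℝ} (Wn : WnT k 1 sn Gs s b w u Λ φ N C₀ Eb ηm ow lv fb fn nb n ks)
    (hwo : w + u + φ ≤ o) : ChW k sn Gs b o φ N C₀ ηm ow lv (fcn fb fn nb) (nb + n) := by
  have hn := abs_le.1 Wn.on
  have mo1 : ∀ d t, t + d = nb → ow (fb t) ≤ ow (fb nb) := by
    intro d
    induction d with
    | zero => intro t ht; rw [← ht, Nat.add_zero]
    | succ d ih =>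
      intro t ht
      exact ((Wn.bs t (by omega)).1).trans (ih (t + 1) (by omega))
  have mo2 : ∀ d t, t + d = n → ow (fn t) ≤ ow (fn n) := by
    intro d
    induction d with
    | zero => intro t ht; rw [← ht, Nat.add_zero]
    | succ d ih =>
      intro t ht
      exact ((Wn.ns t (by omega)).1).trans (ih (t + 1) (by omega))
  have hcase : ∀ t ≤ nb + n, (t ≤ nb ∧ fcn fb fn nb t = fb t) ∨
      (∃ t', t' ≤ n ∧ t = nb + t' ∧ fcn fb fn nb t = fn t') := by
    intro t ht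
    rcases le_or_gt t nb with h | h
    · exact Or.inl ⟨h, fcn_lo h⟩
    · exact Or.inr ⟨t - nb, by omega, by omega, by
        have e : t = nb + (t - nb) := by omega
        rw [e, fcn_hi Wn.eq]
        congr 1
        omega⟩
  have hlast : ∀ t ≤ nb + n, ow (fcn fb fn nb t) ≤ ow (fn n) := by
    intro t ht
    rcases hcase t ht with ⟨h1, h2⟩ | ⟨t', h1, h2, h3⟩
    · rw [h2]
      refine (mo1 (nb - t) t (by omega)).trans ?_
      rw [← Wn.eq]
      exact mo2 n 0 (by omega)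
    · rw [h3]
      exact mo2 (n - t') t' (by omega)
  have hN : ∀ t ≤ nb + n, fcn fb fn nb t ≤ N := by
    intro t ht
    rcases hcase t ht with ⟨h1, h2⟩ | ⟨t', h1, h2, h3⟩
    · rw [h2]
      exact Wn.fbN t h1
    · rw [h3]
      exact Wn.fnN t' h1
  refine ⟨hN, ?_, fun t ht => ?_, fun t ht => (hlast t ht).trans (by linarith [hn.2]),
    fun t ht => ?_, fun t ht l hl => Wn.lv _ (hN t ht) l hl, Wn.C0⟩
  · rw [fcn_zero]
    exact Wn.ob
  · rcases hcase t ht with ⟨h1, h2⟩ | ⟨t', h1, h2, h3⟩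
    · rw [h2]
      exact Wn.bG t h1
    · rw [h3]
      exact Wn.nG t' h1
  · rcases Nat.lt_or_ge t nb with h | h
    · rw [fcn_lo h.le, fcn_lo (Nat.succ_le_of_lt h)]
      exact Wn.bs t h
    · obtain ⟨t', rfl⟩ := Nat.exists_eq_add_of_le h
      rw [fcn_hi Wn.eq, Nat.add_assoc, fcn_hi Wn.eq]
      exact Wn.ns t' (by omega)

/-- The radii of the balls. -/
theorem zz_of {M J : ℕ} {z : ℕ → ℕ → ℕ} (he : fn 0 = fb nb) (hR : RadT nb n M J u ow fb fn z) :
    ∀ t < nb + n, ∃ j ≤ M, z (fcn fb fn nb t) j =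
      ⌊ow (fcn fb fn nb (t + 1)) * J⌋₊ - ⌊ow (fcn fb fn nb t) * J⌋₊ := by
  intro t ht
  rcases Nat.lt_or_ge t nb with h | h
  · rw [fcn_lo h.le, fcn_lo (Nat.succ_le_of_lt h)]
    exact hR.1 t h
  · obtain ⟨t', rfl⟩ := Nat.exists_eq_add_of_le h
    rw [fcn_hi he, Nat.add_assoc, fcn_hi he]
    exact hR.2.1 t' (by omega)

end

/-- **The slopes.** -/
theorem lnv_of {m : ℕ} {S : PCl m} {c : ℕ → Fin m} {k : ℕ} {sn sp : ℕ → ℝ → ℝ} {G : Set ℝ}
    {al be h b o w u Λ φ e : ℝ} {lam : ℝ → ℝ} (Bx : XBox S c k sn sp G al be h b o w u Λ φ e lam) :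
    Lnv k sn G b o φ al (two k al be) where
  s0 := by linarith [Bx.be1, Bx.bal]
  b0 := fun l _ _ => by
    unfold two
    split_ifs
    · exact ⟨by linarith [Bx.be1, Bx.bal], le_rfl⟩
    · exact ⟨by linarith [Bx.be1], Bx.bal⟩
  li := fun l h1 h2 v hv v' hv' a1 a2 a3 a4 => by
    unfold two
    rcases (show l = k ∨ l = k + 1 by omega) with rfl | rfl
    · rw [if_pos rfl]
      have g1 := abs_le.1 (Bx.lin0 v hv a1 a2)
      have g2 := abs_le.1 (Bx.lin0 v' hv' a3 a4)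
      rw [abs_le]
      constructor <;> linarith [g1.1, g1.2, g2.1, g2.2]
    · rw [if_neg (by omega)]
      have g1 := abs_le.1 (Bx.lin1 v hv a1 a2)
      have g2 := abs_le.1 (Bx.lin1 v' hv' a3 a4)
      rw [abs_le]
      constructor <;> linarith [g1.1, g1.2, g2.1, g2.2]

/-- **More digits of the jets** of the slope-one places and a later record. -/
theorem ch_jt {m J : ℕ} {F : Fam m J} {A : F.Ω → Prop} (hA : 0 < Pe F.p A) {c : ℕ → Fin m}
    {k W : ℕ} {H : LnT F → ℕ → MvPolynomial (Option (Fin m)) ℝ} {N N' : ℕ → ℕ → ℝ}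
    (hN : ∀ l < k, ∀ j ≤ 1, N l j ≤ N' l j) {x x' : ℝ} (hx : x ≤ x') (hx' : x' ≤ 1) {γ : Type}
    (X : F.Ω → γ) :
    CH (Pool.Agent.H49.Ent.cond F.p A True) X
      (fun ω => (jet2 F c W H 0 k N' ω, (cR F A x' ω, F.W ω))) ≤
    CH (Pool.Agent.H49.Ent.cond F.p A True) X
      (fun ω => (jet2 F c W H 0 k N ω, (cR F A x ω, F.W ω))) + (k : ℝ) * (2 * Real.log 5) := by
  have hcl := isLaw_cond F.isLaw hA
  have h0 := hcl.nonneg
  obtain ⟨Y, hY⟩ : ∃ Y : F.Ω → _, Y = fun ω => (jet2 F c W H 0 k N' ω, (cR F A x' ω, F.W ω)) :=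
    ⟨_, rfl⟩
  rw [← hY]
  have h1 := CH_le_add h0 X (jet2 F c W H 0 k N) Y
  have hdet : ∀ ω ν, A ω → A ν → cR F A x' ω = cR F A x' ν → cR F A x ω = cR F A x ν := by
    intro ω ν hω hν e
    obtain ⟨χ, hχ⟩ := vg_mono hx hx' J F
    have hcr : Cl2 (ptr F J) (vg x J F) A (cR F A x) := (mx_cR hA x (k := 1) zero_le_one).1
    have h2 : Cl2 (ptr F J) (vg x' J F) A (cR F A x) :=
      hcr.mono ⟨fun x => x, fun _ _ => rfl⟩ ⟨χ, fun ω _ => hχ ω⟩
    have h3 := congrFun e ⟨fun ν' => cR F A x ν' = cR F A x ω, h2.comp fun v => v = cR F A x ω⟩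
    have h4 : (cR F A x ω = cR F A x ω) = (cR F A x ν = cR F A x ω) := h3
    exact (h4.mp rfl).symm
  have h2 : CH (Pool.Agent.H49.Ent.cond F.p A True) X (fun ω => (jet2 F c W H 0 k N ω, Y ω)) ≤
      CH (Pool.Agent.H49.Ent.cond F.p A True) X
        (fun ω => (jet2 F c W H 0 k N ω, (cR F A x ω, F.W ω))) := by
    refine CH_mono_cond h0 fun ω ν hω hν e => ?_
    rw [hY] at e
    simp only [Prod.mk.injEq] at e ⊢
    exact ⟨e.1, hdet ω ν (of_cond_pos hω) (of_cond_pos hν) e.2.2.1, e.2.2.2⟩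
  have h3 : CH (Pool.Agent.H49.Ent.cond F.p A True) (jet2 F c W H 0 k N) Y ≤
      (k : ℝ) * (2 * Real.log 5) := by
    have h4 : CH (Pool.Agent.H49.Ent.cond F.p A True) (jet2 F c W H 0 k N) Y ≤
        CH (Pool.Agent.H49.Ent.cond F.p A True)
          (fun ω (z : Fin k × Fin 2) => jet2 F c W H 0 k N ω z.1 z.2) Y := by
      refine CH_mono_left h0 fun ω ν _ _ e => ?_
      have e1 := (Prod.ext_iff.mp e).1
      funext l j
      by_cases h : 0 ≤ l ∧ l < k ∧ j ≤ 1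
      · exact congrFun e1 (⟨l, h.2.1⟩, ⟨j, by omega⟩)
      · unfold jet2
        rw [if_neg h, if_neg h]
    refine h4.trans ((Pool.AVG5.CH_fam h0 _ _).trans ?_)
    have h5 : ∀ z ∈ (univ : Finset (Fin k × Fin 2)),
        CH (Pool.Agent.H49.Ent.cond F.p A True) (fun ω => jet2 F c W H 0 k N ω z.1 z.2) Y ≤
          Real.log 5 := by
      rintro ⟨⟨l, hl⟩, ⟨j, hj⟩⟩ -
      have hj1 : j ≤ 1 := by omega
      have e1 : (fun ω => jet2 F c W H 0 k N ω l j) = fun ω => ⌊(2 : ℝ) ^ (N l j * J) *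
          ojet F (c l) j (H (slam F W ω) l) ω⌋ := by
        funext ω
        unfold jet2
        rw [if_pos ⟨Nat.zero_le _, hl, hj1⟩]
      show CH (Pool.Agent.H49.Ent.cond F.p A True) (fun ω => jet2 F c W H 0 k N ω l j) Y ≤ _
      rw [e1]
      have h6 := Pool.TW44.ch_fewer hcl (fun ω => ojet F (c l) j (H (slam F W ω) l) ω) Y
        (mul_le_mul_of_nonneg_right (hN l hl j hj1) (Nat.cast_nonneg (α := ℝ) J))
      have h7 : CH (Pool.Agent.H49.Ent.cond F.p A True) (fun ω => ⌊(2 : ℝ) ^ (N' l j * J) *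
          ojet F (c l) j (H (slam F W ω) l) ω⌋) Y = 0 := by
        refine CH_eq_zero h0 fun ω ν _ _ e => ?_
        rw [hY] at e
        have e2 := congrFun (congrFun (Prod.ext_iff.mp e).1 l) j
        dsimp only at e2
        unfold jet2 at e2
        rw [if_pos ⟨Nat.zero_le _, hl, hj1⟩, if_pos ⟨Nat.zero_le _, hl, hj1⟩] at e2
        exact e2
      linarith
    refine (Finset.sum_le_sum h5).trans (le_of_eq ?_)
    rw [Finset.sum_const, Finset.card_univ, Fintype.card_prod, Fintype.card_fin, Fintype.card_fin,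
      nsmul_eq_mul]
    push_cast
    ring
  linarith

end Pool.VA48
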